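import Pool.Agent.CDFlow.Types

/-!
# Module `Cover`: from flows to covers

A `Z2 x Z2`-flow on the side `X` whose only zero edge is `e` gives three even classes `D 0, D 1, D 2`
(`FBase`).  If `C`, `C'` are even on `X` and `C ∩ C' = {e}`, then `D j ∆ C ∆ C'` (`j = 0, 1, 2`),
`C`, `C'` is a cover of the side `X`.
-/

open scoped Classical

namespace CDCut
namespace MGraph

variable {V E : Type} (G : MGraph V E)

/-- three even classes avoiding `e`, every other edge meeting `X` in exactly two of them -/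
structure FBase (X : Finset V) (e : E) (D : Fin 3 → Finset E) : Prop where
  m : ∀ j, G.FMeet X (D j)
  ev : ∀ j, G.FEven X (D j)
  ne : ∀ j, e ∉ D j
  two : ∀ f, G.Meets X f → f ≠ e → ∃ j, ∀ i, (f ∈ D i ↔ i ≠ j)

theorem fin3_cases : ∀ i : Fin 3, i = 0 ∨ i = 1 ∨ i = 2 := by decide

theorem fcover {X : Finset V} {e : E} {D : Fin 3 → Finset E} (hB : G.FBase X e D)
    {C C' : Finset E} (mC : G.FMeet X C) (mC' : G.FMeet X C')
    (evC : G.FEven X C) (evC' : G.FEven X C') (hi : C ∩ C' = {e}) :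
    G.SideCover X (symmDiff (D 0) (symmDiff C C') ::ₘ symmDiff (D 1) (symmDiff C C') ::ₘ
      symmDiff (D 2) (symmDiff C C') ::ₘ C ::ₘ C' ::ₘ 0) := by
  have hC : e ∈ C ∧ e ∈ C' := by
    rw [← Finset.mem_inter, hi]
    exact Finset.mem_singleton_self e
  have hK1 : G.FMeet X (symmDiff C C') := by
    intro f hf
    rw [Finset.mem_symmDiff] at hf
    rcases hf with h | h
    · exact mC f h.1
    · exact mC' f h.1
  have hK2 : G.FEven X (symmDiff C C') := by
    intro z hz
    rw [even_deg_symmDiff]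
    exact iff_of_true (evC z hz) (evC' z hz)
  constructor
  · intro S hS
    have h1 : (∃ j, S = symmDiff (D j) (symmDiff C C')) ∨ S = C ∨ S = C' := by
      simp only [Multiset.mem_cons, Multiset.notMem_zero, or_false] at hS
      rcases hS with h | h | h | h | h
      · exact Or.inl ⟨0, h⟩
      · exact Or.inl ⟨1, h⟩
      · exact Or.inl ⟨2, h⟩
      · exact Or.inr (Or.inl h)
      · exact Or.inr (Or.inr h)
    rcases h1 with ⟨j, rfl⟩ | rfl | rfl
    · constructor
      · intro f hf
        rw [Finset.mem_symmDiff] at hf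
        rcases hf with h | h
        · exact hB.m j f h.1
        · exact hK1 f h.1
      · intro z hz
        rw [even_deg_symmDiff]
        exact iff_of_true (hB.ev j z hz) (hK2 z hz)
    · exact ⟨mC, evC⟩
    · exact ⟨mC', evC'⟩
  · intro f hf
    rw [Multiset.countP_cons, Multiset.countP_cons, Multiset.countP_cons, Multiset.countP_cons,
      Multiset.countP_cons, Multiset.countP_zero]
    by_cases hfe : f = e
    · subst hfe
      have h1 : ∀ j, f ∉ symmDiff (D j) (symmDiff C C') := by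
        intro j
        rw [Finset.mem_symmDiff, Finset.mem_symmDiff]
        have := hB.ne j
        tauto
      rw [if_neg (h1 0), if_neg (h1 1), if_neg (h1 2), if_pos hC.1, if_pos hC.2]
    · obtain ⟨j, hj⟩ := hB.two f hf hfe
      have h2 : ¬ (f ∈ C ∧ f ∈ C') := by
        rw [← Finset.mem_inter, hi, Finset.mem_singleton]
        exact hfe
      simp only [Finset.mem_symmDiff, hj]
      by_cases h3 : f ∈ C
      · have h4 : f ∉ C' := fun h => h2 ⟨h3, h⟩
        rcases fin3_cases j with rfl | rfl | rfl <;> simp [h3, h4]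
      · by_cases h4 : f ∈ C'
        · rcases fin3_cases j with rfl | rfl | rfl <;> simp [h3, h4]
        · rcases fin3_cases j with rfl | rfl | rfl <;> simp [h3, h4]

/-- the type of the cover in `fcover` -/
theorem ftype [Fintype E] {X : Finset V} {e : E} {D : Fin 3 → Finset E} (hB : G.FBase X e D)
    {C C' : Finset E} (mC : G.FMeet X C) (mC' : G.FMeet X C')
    (evC : G.FEven X C) (evC' : G.FEven X C') (hi : C ∩ C' = {e}) :
    tt (D 0 ∩ G.cut X) (D 1 ∩ G.cut X) (D 2 ∩ G.cut X) (C ∩ G.cut X) (C' ∩ G.cut X) ∈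
      G.coverTypes X := by
  refine ⟨_, G.fcover hB mC mC' evC evC' hi, ?_⟩
  unfold tt
  simp only [Multiset.map_cons, Multiset.map_zero]
  have h : ∀ A B : Finset E, symmDiff A B ∩ G.cut X =
      symmDiff (A ∩ G.cut X) (B ∩ G.cut X) := by
    intro A B
    ext x
    simp only [Finset.mem_inter, Finset.mem_symmDiff]
    tauto
  simp only [h]

/-- transfer of `tt` along an embedding -/
theorem tt_map (φ : Fin 4 ↪ E) (d0 d1 d2 c c' : Finset (Fin 4)) :
    tt (d0.map φ) (d1.map φ) (d2.map φ) (c.map φ) (c'.map φ) =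
      (tt d0 d1 d2 c c').map (Finset.map φ) := by
  have h : ∀ A B : Finset (Fin 4), symmDiff (A.map φ) (B.map φ) = (symmDiff A B).map φ := by
    intro A B
    ext x
    simp only [Finset.mem_symmDiff, Finset.mem_map]
    constructor
    · rintro (⟨⟨y, hy, rfl⟩, h⟩ | ⟨⟨y, hy, rfl⟩, h⟩)
      · exact ⟨y, Or.inl ⟨hy, fun h2 => h ⟨y, h2, rfl⟩⟩, rfl⟩
      · exact ⟨y, Or.inr ⟨hy, fun h2 => h ⟨y, h2, rfl⟩⟩, rfl⟩
    · rintro ⟨y, ⟨h1, h2⟩ | ⟨h1, h2⟩, rfl⟩
      · refine Or.inl ⟨⟨y, h1, rfl⟩, ?_⟩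
        rintro ⟨z, hz, hzy⟩
        exact h2 (φ.injective hzy ▸ hz)
      · refine Or.inr ⟨⟨y, h1, rfl⟩, ?_⟩
        rintro ⟨z, hz, hzy⟩
        exact h2 (φ.injective hzy ▸ hz)
  unfold tt
  simp only [h]
  have h2 : ((symmDiff d0 (symmDiff c c')).map φ ::ₘ (symmDiff d1 (symmDiff c c')).map φ ::ₘ
      (symmDiff d2 (symmDiff c c')).map φ ::ₘ c.map φ ::ₘ c'.map φ ::ₘ 0) =
      (symmDiff d0 (symmDiff c c') ::ₘ symmDiff d1 (symmDiff c c') ::ₘ
      symmDiff d2 (symmDiff c c') ::ₘ c ::ₘ c' ::ₘ 0).map (Finset.map φ) := by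
    simp only [Multiset.map_cons, Multiset.map_zero]
  rw [h2, Multiset.filter_map]
  congr 1
  refine Multiset.filter_congr fun A _ => ?_
  simp only [Function.comp_apply, ne_eq, Finset.map_eq_empty]

theorem mem_S0_iff (φ : Fin 4 ↪ E) (t : Multiset (Finset (Fin 4))) :
    t.map (Finset.map φ) ∈ typeS (φ 0) (φ 1) (φ 2) (φ 3) ↔ t ∈ S0 := by
  have hinj : Function.Injective (Multiset.map (Finset.map φ)) :=
    Multiset.map_injective (Finset.map_injective φ)
  unfold typeS S0
  simp only [Set.mem_insert_iff, Set.mem_singleton_iff, Finset.mem_insert, Finset.mem_singleton]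
  refine or_congr ?_ (or_congr ?_ (or_congr ?_ ?_)) <;>
  · rw [← hinj.eq_iff]
    simp [Finset.map_insert, Finset.map_singleton]

theorem mem_T0_iff (φ : Fin 4 ↪ E) (t : Multiset (Finset (Fin 4))) :
    t.map (Finset.map φ) ∈ typeT (φ 0) (φ 1) (φ 2) (φ 3) ↔ t ∈ T0 := by
  have hinj : Function.Injective (Multiset.map (Finset.map φ)) :=
    Multiset.map_injective (Finset.map_injective φ)
  unfold typeT T0
  simp only [Set.mem_insert_iff, Set.mem_singleton_iff, Finset.mem_insert, Finset.mem_singleton]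
  refine or_congr ?_ (or_congr ?_ (or_congr ?_ (or_congr ?_ ?_))) <;>
  · rw [← hinj.eq_iff]
    simp [Finset.map_insert, Finset.map_singleton]

end MGraph
end CDCut
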