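import Pool.Agent.CDFlow.Defs

/-!
# Module `Inc`: the four edges of a cyclic 4-edge-cut have different ends in `X`
-/

open scoped Classical

namespace CDCut
namespace MGraph

variable {V E : Type} (G : MGraph V E)

/-- two different edges of the cut are not incident with the same vertex of `X` -/
theorem finc_one [Fintype V] [Fintype E] (hG : G.IsSmallestCounterexample) {X : Finset V}
    (hX : G.IsCyclicFourCut X) {w : V} (hw : w ∈ X) {p q : E} (hp : p ∈ G.cut X)
    (hq : q ∈ G.cut X) (hpq : p ≠ q) (hpw : G.Inc p w) (hqw : G.Inc q w) : False := by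
  obtain ⟨h3, h3'⟩ := G.fsides hG hX
  have hmem : ∀ f, f ∈ G.cut X → G.Inc f w → f ∈ G.cut {w} ∩ G.cut X := by
    intro f hf hfw
    refine Finset.mem_inter.2 ⟨?_, hf⟩
    rw [Inner.mem_cut G] at hf ⊢
    rw [Finset.mem_singleton, Finset.mem_singleton]
    have hl := G.no_loop hG f
    rcases hfw with h | h
    · exact Or.inl ⟨h, fun h2 => hl (h.trans h2.symm)⟩
    · exact Or.inr ⟨fun h2 => hl (h2.trans h.symm), h⟩
  have h4 : 2 ≤ (G.cut {w} ∩ G.cut X).card := by
    rw [← Finset.card_pair hpq]
    apply Finset.card_le_card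
    intro f hf
    rw [Finset.mem_insert, Finset.mem_singleton] at hf
    rcases hf with rfl | rfl
    · exact hmem _ hp hpw
    · exact hmem _ hq hqw
  have h1 : G.cut (X.erase w) = symmDiff (G.cut {w}) (G.cut X) := by
    ext e
    have a1 : G.fst e = w → G.fst e ∈ X := fun h => by rw [h]; exact hw
    have a2 : G.snd e = w → G.snd e ∈ X := fun h => by rw [h]; exact hw
    simp only [cut, Finset.mem_filter, Finset.mem_univ, true_and, Finset.mem_symmDiff,
      Finset.mem_erase, Finset.mem_singleton, ne_eq]
    tauto
  have h2 := card_symmDiff_add (G.cut {w}) (G.cut X)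
  rw [← h1, G.card_cut_vertex hG w, hX.2.2.1] at h2
  have hc : (X.erase w).card = X.card - 1 := Finset.card_erase_of_mem hw
  have hne : (X.erase w).Nonempty := by
    rw [← Finset.card_pos]
    omega
  have hcc : Xᶜ.card + 1 ≤ ((X.erase w)ᶜ).card := by
    have : insert w Xᶜ ⊆ (X.erase w)ᶜ := by
      intro z hz
      rw [Finset.mem_insert, Finset.mem_compl] at hz
      rw [Finset.mem_compl, Finset.mem_erase]
      tauto
    have h5 := Finset.card_le_card this
    rw [Finset.card_insert_of_notMem (by rw [Finset.mem_compl]; exact fun h => h hw)] at h5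
    exact h5
  have hnu : X.erase w ≠ Finset.univ := by
    intro h
    rw [h, Finset.compl_univ, Finset.card_empty] at hcc
    omega
  have h5 := G.three_le_card_cut hG (X.erase w) hne hnu
  have h6 : (G.cut (X.erase w)).card = 3 := by omega
  rcases G.card_cut_eq_three hG _ h6 with h7 | h7 <;> omega

end MGraph
end CDCut
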