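import Pool.Agent.CDFlow.Defs

/-!
# Module `Bad`: a bad cut and a system

**Statement.**  Given a system (`FSys`) and a set `Z ⊆ X`, `u ∈ Z`, `v ∉ Z`, such that the inner
edges of `X` in `δ(Z)` are `e, e'` (`e' ≠ e`) and the ends in `X` of `i` and `k` are on the same side
of `Z` (`i ∈ δ(Z) ↔ k ∈ δ(Z)`; for `Z ⊆ X` an edge of `δ(X)` is in `δ(Z)` iff its end in `X` is in
`Z`).  Then `j` is incident with `u` or `l` is incident with `v`.

**Proof.**  `δ(Z) = {e, e'} ∪ (δ(X) ∩ δ(Z))` (an edge of `δ(Z)` with both ends in `X` is inside `X`).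
By `even_inter_cut_iff`, `|A1 ∩ δ(Z)|` and `|A2 ∩ δ(Z)|` are odd and `|B1 ∩ δ(Z)|`, `|B2 ∩ δ(Z)|`
are even.  Case `i, k ∉ δ(Z)`: `A1 ∩ δ(Z) ⊆ {e'}`, so `e' ∈ A1`; then `A2 ∩ δ(Z) ⊆ {j}`, so
`j ∈ δ(Z)`; `B2 ∩ δ(Z) ⊆ {l}` is even, so `l ∉ δ(Z)`.  So `δ(Z) = {e, e', j}` has 3 elements, so
`Z = {u}` (`card_cut_eq_three`; the complement of `Z` contains `Xᶜ`, `fsides`) and `j` is incident
with `u`.  Case `i, k ∈ δ(Z)`: `B1 ∩ δ(Z) ⊆ {k, e'}` contains `k` and is even, so `e' ∈ B1`; then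
`A2 ∩ δ(Z) ⊆ {j}` is odd, so `j ∈ δ(Z)`; `B2 ∩ δ(Z) ⊆ {l}` is even, so `l ∉ δ(Z)`.  Then
`δ(X \ Z) = {e, e', l}`, so `X \ Z = {v}` and `l` is incident with `v`.
-/

open scoped Classical

namespace CDCut
namespace MGraph

variable {V E : Type} (G : MGraph V E)

private theorem Bad_card {J T : Finset E} {p t : E} (hpt : p ≠ t) (hp : p ∈ T) (ht : t ∈ J)
    (hsub : ∀ c ∈ J, c ∈ T → c = p ∨ c = t) : Even (J ∩ T).card ↔ (p ∈ J ↔ t ∈ T) := by
  by_cases h1 : p ∈ J
  · by_cases h2 : t ∈ T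
    · have h3 : J ∩ T = {p, t} := by
        ext c
        rw [Finset.mem_inter, Finset.mem_insert, Finset.mem_singleton]
        constructor
        · rintro ⟨h3, h4⟩
          exact hsub c h3 h4
        · rintro (rfl | rfl)
          · exact ⟨h1, hp⟩
          · exact ⟨ht, h2⟩
      rw [h3, Finset.card_pair hpt]
      exact iff_of_true (by decide) (iff_of_true h1 h2)
    · have h3 : J ∩ T = {p} := by
        ext c
        rw [Finset.mem_inter, Finset.mem_singleton]
        constructor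
        · rintro ⟨h3, h4⟩
          rcases hsub c h3 h4 with h | h
          · exact h
          · exact absurd (h ▸ h4) h2
        · rintro rfl
          exact ⟨h1, hp⟩
      rw [h3, Finset.card_singleton]
      exact iff_of_false (by decide) (fun h => h2 (h.1 h1))
  · by_cases h2 : t ∈ T
    · have h3 : J ∩ T = {t} := by
        ext c
        rw [Finset.mem_inter, Finset.mem_singleton]
        constructor
        · rintro ⟨h3, h4⟩
          rcases hsub c h3 h4 with h | h
          · exact absurd (h ▸ h3) h1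
          · exact h
        · rintro rfl
          exact ⟨ht, h2⟩
      rw [h3, Finset.card_singleton]
      exact iff_of_false (by decide) (fun h => h1 (h.2 h2))
    · have h3 : J ∩ T = ∅ := by
        ext c
        rw [Finset.mem_inter]
        constructor
        · rintro ⟨h3, h4⟩
          rcases hsub c h3 h4 with h | h
          · exact absurd (h ▸ h3) h1
          · exact absurd (h ▸ h4) h2
        · intro h
          exact absurd h (Finset.notMem_empty c)
      rw [h3, Finset.card_empty]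
      exact iff_of_true (by decide) (iff_of_false h1 h2)

private theorem Bad_prop {a1 a2 b1 b2 i j k l : Prop} (p1 : ¬ (a1 ↔ i)) (p2 : ¬ (a2 ↔ j))
    (p3 : b1 ↔ k) (p4 : b2 ↔ l) (d1 : a1 → ¬ a2) (d2 : a1 → ¬ b2) (d3 : b1 → ¬ a2)
    (d4 : b1 → ¬ b2) (hik : i ↔ k) : j ∧ ¬ l := by
  by_cases hi : i
  · have hb := p3.2 (hik.1 hi)
    refine ⟨?_, fun h => d4 hb (p4.2 h)⟩
    by_contra hj
    exact p2 (iff_of_false (d3 hb) hj)
  · have ha : a1 := by
      by_contra ha
      exact p1 (iff_of_false ha hi)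
    refine ⟨?_, fun h => d2 ha (p4.2 h)⟩
    by_contra hj
    exact p2 (iff_of_false (d1 ha) hj)

private theorem Bad_mem_inside [Fintype E] {X : Finset V} {e : E} :
    e ∈ G.inside X ↔ G.fst e ∈ X ∧ G.snd e ∈ X := by
  unfold inside
  rw [Finset.mem_filter]
  exact ⟨fun h => h.2, fun h => ⟨Finset.mem_univ _, h⟩⟩

private theorem Bad_cutY [Fintype E] {X Z : Finset V} (hZ : Z ⊆ X) (c : E) :
    c ∈ G.cut (X \ Z) ↔ (c ∈ G.cut Z ∧ c ∈ G.inside X) ∨ (c ∈ G.cut X ∧ c ∉ G.cut Z) := by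
  rw [Inner.mem_cut, Inner.mem_cut, Inner.mem_cut, Bad_mem_inside, Finset.mem_sdiff,
    Finset.mem_sdiff]
  have h5 : G.fst c ∈ Z → G.fst c ∈ X := fun h => hZ h
  have h6 : G.snd c ∈ Z → G.snd c ∈ X := fun h => hZ h
  by_cases a : G.fst c ∈ Z <;> by_cases b : G.snd c ∈ Z <;>
    by_cases a' : G.fst c ∈ X <;> by_cases b' : G.snd c ∈ X <;>
    simp_all

private theorem Bad_cutZ [Fintype E] {X Z : Finset V} (hZ : Z ⊆ X) {c : E} (h1 : c ∈ G.cut Z)
    (h2 : c ∉ G.inside X) : c ∈ G.cut X := by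
  rw [Bad_mem_inside] at h2
  rw [Inner.mem_cut] at h1 ⊢
  rcases h1 with ⟨h3, h4⟩ | ⟨h3, h4⟩
  · exact Or.inl ⟨hZ h3, fun h => h2 ⟨hZ h3, h⟩⟩
  · exact Or.inr ⟨fun h => h2 ⟨h, hZ h4⟩, hZ h4⟩

private theorem Bad_not_cut [Fintype E] {X : Finset V} {c : E} (h1 : c ∈ G.inside X) :
    c ∉ G.cut X := by
  intro h2
  rw [Bad_mem_inside] at h1
  rw [Inner.mem_cut] at h2
  rcases h2 with h2 | h2
  · exact h2.2 h1.2
  · exact h2.1 h1.1

/-- a cut with three edges inside `X` is the star of its vertex -/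
private theorem Bad_star [Fintype V] [Fintype E] (hG : G.IsSmallestCounterexample) {X : Finset V}
    (hX : G.IsCyclicFourCut X) {Z : Finset V} (hZ : Z ⊆ X) {w : V} (hw : w ∈ Z) {e e' c : E}
    (hee : e' ≠ e) (hec : e ≠ c) (hec' : e' ≠ c)
    (hcut : G.cut Z = {e, e', c}) : G.Inc c w := by
  have h1 : (G.cut Z).card = 3 := by
    rw [hcut]
    exact Finset.card_eq_three.2 ⟨e, e', c, hee.symm, hec, hec', rfl⟩
  rcases G.card_cut_eq_three hG Z h1 with h | h
  · obtain ⟨y, rfl⟩ := Finset.card_eq_one.1 h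
    rw [Finset.mem_singleton] at hw
    subst hw
    have h2 : c ∈ G.cut {w} := by
      rw [hcut]
      simp
    rw [Inner.mem_cut, Finset.mem_singleton, Finset.mem_singleton] at h2
    rcases h2 with h2 | h2
    · exact Or.inl h2.1
    · exact Or.inr h2.2
  · exfalso
    have h2 := (G.fsides hG hX).2
    have h3 : Xᶜ.card ≤ Zᶜ.card := Finset.card_le_card (Finset.compl_subset_compl.2 hZ)
    omega

theorem fbad [Fintype V] [Fintype E] (hG : G.IsSmallestCounterexample) {X : Finset V}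
    (hX : G.IsCyclicFourCut X) {e : E} {u v : V} (hu : u ∈ X) (hv : v ∈ X) (he : G.FEnds e u v)
    {A1 A2 B1 B2 : Finset E} {i j k l : E} (hS : G.FSys X e u v A1 A2 B1 B2 i j k l)
    {Z : Finset V} (hZ : Z ⊆ X) {e' : E} (huZ : u ∈ Z) (hvZ : v ∉ Z) (hne : e' ≠ e)
    (hcut : G.cut Z ∩ G.inside X = {e, e'}) (hik : i ∈ G.cut Z ↔ k ∈ G.cut Z) :
    G.Inc j u ∨ G.Inc l v := by
  have hi : i ∈ A1 ∧ i ∈ G.cut X := by
    have h : i ∈ A1 ∩ G.cut X := by rw [hS.tA1]; exact Finset.mem_singleton_self i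
    exact Finset.mem_inter.1 h
  have hj : j ∈ A2 ∧ j ∈ G.cut X := by
    have h : j ∈ A2 ∩ G.cut X := by rw [hS.tA2]; exact Finset.mem_singleton_self j
    exact Finset.mem_inter.1 h
  have hk : k ∈ B1 ∧ k ∈ G.cut X := by
    have h : k ∈ B1 ∩ G.cut X := by rw [hS.tB1]; exact Finset.mem_singleton_self k
    exact Finset.mem_inter.1 h
  have hl : l ∈ B2 ∧ l ∈ G.cut X := by
    have h : l ∈ B2 ∩ G.cut X := by rw [hS.tB2]; exact Finset.mem_singleton_self l
    exact Finset.mem_inter.1 h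
  -- the edges of the cut of `Z`
  have hin : ∀ c, c ∈ G.cut Z → c ∈ G.inside X → c = e ∨ c = e' := by
    intro c h1 h2
    have h : c ∈ G.cut Z ∩ G.inside X := Finset.mem_inter.2 ⟨h1, h2⟩
    rw [hcut, Finset.mem_insert, Finset.mem_singleton] at h
    exact h
  have heZ : e ∈ G.cut Z ∧ e ∈ G.inside X := by
    rw [← Finset.mem_inter, hcut]
    simp
  have heZ' : e' ∈ G.cut Z ∧ e' ∈ G.inside X := by
    rw [← Finset.mem_inter, hcut]
    simp
  have hnot : ∀ c, c ∈ G.inside X → c ∉ G.cut X := fun c h => G.Bad_not_cut h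
  have hF : ∀ c, c ∈ G.cut Z → c = e ∨ c = e' ∨ c ∈ G.cut X := by
    intro c h1
    by_cases h2 : c ∈ G.inside X
    · rcases hin c h1 h2 with h | h
      · exact Or.inl h
      · exact Or.inr (Or.inl h)
    · exact Or.inr (Or.inr (G.Bad_cutZ hZ h1 h2))
  -- the counts
  have hcount : ∀ {J : Finset E} {t : E}, t ∈ J → t ∈ G.cut X → e ∉ J → J ∩ G.cut X = {t} →
      (Even (J ∩ G.cut Z).card ↔ (e' ∈ J ↔ t ∈ G.cut Z)) := by
    intro J t h1 h2 h3 h4
    refine Bad_card ?_ heZ'.1 h1 ?_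
    · rintro rfl
      exact hnot _ heZ'.2 h2
    · intro c h5 h6
      rcases hF c h6 with h | h | h
      · exact absurd (h ▸ h5) h3
      · exact Or.inl h
      · right
        have h7 : c ∈ J ∩ G.cut X := Finset.mem_inter.2 ⟨h5, h⟩
        rw [h4, Finset.mem_singleton] at h7
        exact h7
  have hodd : ∀ {J : Finset E}, G.FOdd X J u → ¬ Even (J ∩ G.cut Z).card := by
    intro J h
    rw [G.even_inter_cut_iff, ← Finset.add_sum_erase Z _ huZ, Nat.not_even_iff_odd]
    refine Odd.add_even ?_ (Finset.even_sum _ fun z hz => ?_)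
    · rw [← Nat.not_even_iff_odd, h u hu]
      exact fun h => h rfl
    · rw [Finset.mem_erase] at hz
      exact (h z (hZ hz.2)).2 hz.1
  have heven : ∀ {J : Finset E}, G.FOdd X J v → Even (J ∩ G.cut Z).card := by
    intro J h
    rw [G.even_inter_cut_iff]
    refine Finset.even_sum _ fun z hz => ?_
    refine (h z (hZ hz)).2 ?_
    rintro rfl
    exact hvZ hz
  have c1 := hcount hi.1 hi.2 hS.eA1 hS.tA1
  have c2 := hcount hj.1 hj.2 hS.eA2 hS.tA2
  have c3 := hcount hk.1 hk.2 hS.eB1 hS.tB1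
  have c4 := hcount hl.1 hl.2 hS.eB2 hS.tB2
  have p1 := hodd hS.oA1
  have p2 := hodd hS.oA2
  have p3 := heven hS.oB1
  have p4 := heven hS.oB2
  rw [c1] at p1
  rw [c2] at p2
  rw [c3] at p3
  rw [c4] at p4
  have d1 : e' ∈ A1 → e' ∉ A2 := fun h => Finset.disjoint_left.1 hS.dAA h
  have d2 : e' ∈ A1 → e' ∉ B2 := fun h => Finset.disjoint_left.1 hS.dA1B2 h
  have d3 : e' ∈ B1 → e' ∉ A2 := fun h h' => Finset.disjoint_left.1 hS.dA2B1 h' h
  have d4 : e' ∈ B1 → e' ∉ B2 := fun h => Finset.disjoint_left.1 hS.dBB h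
  have hcutX : ∀ c, c ∈ G.cut X → c = i ∨ c = j ∨ c = k ∨ c = l := by
    intro c h
    rw [hS.cut] at h
    simpa only [Finset.mem_insert, Finset.mem_singleton] using h
  obtain ⟨h2, h3⟩ := Bad_prop p1 p2 p3 p4 d1 d2 d3 d4 hik
  by_cases hiZ : i ∈ G.cut Z
  · have hkZ := hik.1 hiZ
    right
    have hvY : v ∈ X \ Z := Finset.mem_sdiff.2 ⟨hv, hvZ⟩
    refine G.Bad_star hG hX (Finset.sdiff_subset : X \ Z ⊆ X) hvY (c := l) hne ?_ ?_ ?_
    · rintro rfl
      exact hnot _ heZ.2 hl.2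
    · rintro rfl
      exact hnot _ heZ'.2 hl.2
    · ext c
      rw [G.Bad_cutY hZ c, Finset.mem_insert, Finset.mem_insert, Finset.mem_singleton]
      constructor
      · rintro (⟨h5, h6⟩ | ⟨h5, h6⟩)
        · rcases hin c h5 h6 with h | h
          · exact Or.inl h
          · exact Or.inr (Or.inl h)
        · rcases hcutX c h5 with h | h | h | h
          · exact absurd (h ▸ hiZ) h6
          · exact absurd (h ▸ h2) h6
          · exact absurd (h ▸ hkZ) h6
          · exact Or.inr (Or.inr h)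
      · rintro (rfl | rfl | rfl)
        · exact Or.inl heZ
        · exact Or.inl heZ'
        · exact Or.inr ⟨hl.2, h3⟩
  · have hkZ : k ∉ G.cut Z := fun h => hiZ (hik.2 h)
    left
    refine G.Bad_star hG hX hZ huZ (c := j) hne ?_ ?_ ?_
    · rintro rfl
      exact hnot _ heZ.2 hj.2
    · rintro rfl
      exact hnot _ heZ'.2 hj.2
    · ext c
      rw [Finset.mem_insert, Finset.mem_insert, Finset.mem_singleton]
      constructor
      · intro h5
        rcases hF c h5 with h | h | h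
        · exact Or.inl h
        · exact Or.inr (Or.inl h)
        · rcases hcutX c h with h | h | h | h
          · exact absurd (h ▸ h5) hiZ
          · exact Or.inr (Or.inr h)
          · exact absurd (h ▸ h5) hkZ
          · exact absurd (h ▸ h5) h3
      · rintro (rfl | rfl | rfl)
        · exact heZ.1
        · exact heZ'.1
        · exact h2

end MGraph
end CDCut
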