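import Pool.Agent.CDFlow.Cover

/-!
# Module `Base`: bases from flows, their traces, covers from pairs of joins
-/

open scoped Classical

namespace CDCut
namespace MGraph

variable {V E : Type} (G : MGraph V E)

theorem fdeg_filter {X : Finset V} (P : Finset E) {z : V} (hz : z ∈ X) :
    G.deg (P.filter fun f => G.Meets X f) z = G.deg P z := by
  unfold deg
  congr 2
  · ext f
    simp only [Finset.mem_filter]
    constructor
    · rintro ⟨⟨h1, -⟩, h2⟩
      exact ⟨h1, h2⟩
    · rintro ⟨h1, h2⟩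
      exact ⟨⟨h1, Or.inl (h2 ▸ hz)⟩, h2⟩
  · ext f
    simp only [Finset.mem_filter]
    constructor
    · rintro ⟨⟨h1, -⟩, h2⟩
      exact ⟨h1, h2⟩
    · rintro ⟨h1, h2⟩
      exact ⟨⟨h1, Or.inr (h2 ▸ hz)⟩, h2⟩

theorem feven_symmDiff {X : Finset V} {A B : Finset E} (hA : G.FEven X A) (hB : G.FEven X B) :
    G.FEven X (symmDiff A B) := by
  intro z hz
  rw [even_deg_symmDiff]
  exact iff_of_true (hA z hz) (hB z hz)

theorem fmeet_symmDiff {X : Finset V} {A B : Finset E} (hA : G.FMeet X A) (hB : G.FMeet X B) :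
    G.FMeet X (symmDiff A B) := by
  intro f hf
  rw [Finset.mem_symmDiff] at hf
  rcases hf with h | h
  · exact hA f h.1
  · exact hB f h.1

/-- the three classes of a flow -/
theorem fclasses {X : Finset V} {P Q : Finset E} (hP : G.FEven X P) (hQ : G.FEven X Q) :
    ∃ D : Fin 3 → Finset E, (∀ j, G.FMeet X (D j)) ∧ (∀ j, G.FEven X (D j)) ∧
      (∀ f, f ∉ P → f ∉ Q → ∀ j, f ∉ D j) ∧
      ∀ f, G.Meets X f → (f ∈ P ∨ f ∈ Q) → ∃ j, ∀ i, (f ∈ D i ↔ i ≠ j) := by
  set P' := P.filter fun f => G.Meets X f with hP'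
  set Q' := Q.filter fun f => G.Meets X f with hQ'
  have mP : G.FMeet X P' := fun f hf => (Finset.mem_filter.1 hf).2
  have mQ : G.FMeet X Q' := fun f hf => (Finset.mem_filter.1 hf).2
  have eP : G.FEven X P' := fun z hz => by rw [hP', G.fdeg_filter P hz]; exact hP z hz
  have eQ : G.FEven X Q' := fun z hz => by rw [hQ', G.fdeg_filter Q hz]; exact hQ z hz
  refine ⟨![P', Q', symmDiff P' Q'], ?_, ?_, ?_, ?_⟩
  · intro j
    rcases fin3_cases j with rfl | rfl | rfl
    · exact mP
    · exact mQ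
    · exact G.fmeet_symmDiff mP mQ
  · intro j
    rcases fin3_cases j with rfl | rfl | rfl
    · exact eP
    · exact eQ
    · exact G.feven_symmDiff eP eQ
  · intro f h1 h2 j
    have h3 : f ∉ P' := fun h => h1 (Finset.mem_filter.1 h).1
    have h4 : f ∉ Q' := fun h => h2 (Finset.mem_filter.1 h).1
    rcases fin3_cases j with rfl | rfl | rfl
    · exact h3
    · exact h4
    · show f ∉ symmDiff P' Q'
      rw [Finset.mem_symmDiff]
      tauto
  · intro f hf h1
    have h3 : f ∈ P' ↔ f ∈ P := by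
      rw [hP', Finset.mem_filter]
      exact ⟨fun h => h.1, fun h => ⟨h, hf⟩⟩
    have h4 : f ∈ Q' ↔ f ∈ Q := by
      rw [hQ', Finset.mem_filter]
      exact ⟨fun h => h.1, fun h => ⟨h, hf⟩⟩
    have key : ∀ j0 : Fin 3, ((f ∈ P' ↔ (0 : Fin 3) ≠ j0) ∧ (f ∈ Q' ↔ (1 : Fin 3) ≠ j0) ∧
        (f ∈ symmDiff P' Q' ↔ (2 : Fin 3) ≠ j0)) →
        ∃ j, ∀ i, (f ∈ (![P', Q', symmDiff P' Q'] : Fin 3 → Finset E) i ↔ i ≠ j) := by
      rintro j0 ⟨k0, k1, k2⟩
      refine ⟨j0, fun i => ?_⟩
      rcases fin3_cases i with rfl | rfl | rfl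
      · exact k0
      · exact k1
      · exact k2
    by_cases h5 : f ∈ P
    · by_cases h6 : f ∈ Q
      · apply key 2
        rw [Finset.mem_symmDiff, h3, h4]
        simp [h5, h6]
      · apply key 1
        rw [Finset.mem_symmDiff, h3, h4]
        simp [h5, h6]
    · have h6 : f ∈ Q := by tauto
      apply key 0
      rw [Finset.mem_symmDiff, h3, h4]
      simp [h5, h6]

theorem fbase_perm {X : Finset V} {e : E} {D : Fin 3 → Finset E} (hB : G.FBase X e D)
    (σ : Equiv.Perm (Fin 3)) : G.FBase X e (fun j => D (σ j)) := by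
  refine ⟨fun j => hB.m _, fun j => hB.ev _, fun j => hB.ne _, fun f hf hfe => ?_⟩
  obtain ⟨j, hj⟩ := hB.two f hf hfe
  refine ⟨σ.symm j, fun i => ?_⟩
  rw [hj (σ i), not_iff_not, Equiv.eq_symm_apply]

theorem fmeets_of_cut [Fintype E] {X : Finset V} {f : E} (hf : f ∈ G.cut X) : G.Meets X f := by
  rw [Inner.mem_cut G] at hf
  unfold Meets
  tauto

/-- three even classes such that every cut edge is in exactly two of them: one has full trace -/
theorem ffull [Fintype V] [Fintype E] {X : Finset V} (h4 : (G.cut X).card = 4)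
    {D : Fin 3 → Finset E} (hev : ∀ j, G.FEven X (D j))
    (htwo : ∀ f ∈ G.cut X, ∃ j, ∀ i, (f ∈ D i ↔ i ≠ j)) :
    ∃ j, D j ∩ G.cut X = G.cut X := by
  have heven : ∀ j, Even (D j ∩ G.cut X).card := fun j => G.even_inter_cut X (D j) (hev j)
  have hpart : ∀ j, (D j ∩ G.cut X).card + ((G.cut X).filter fun f => f ∉ D j).card = 4 := by
    intro j
    rw [← h4, ← Finset.card_filter_add_card_filter_not (s := G.cut X) (fun f => f ∈ D j)]
    congr 2
    ext f
    rw [Finset.mem_inter, Finset.mem_filter, and_comm]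
  have hsum : ((G.cut X).filter fun f => f ∉ D 0).card +
      ((G.cut X).filter fun f => f ∉ D 1).card +
      ((G.cut X).filter fun f => f ∉ D 2).card = 4 := by
    choose! g hg using htwo
    have h1 : ∀ j, ((G.cut X).filter fun f => f ∉ D j) = (G.cut X).filter fun f => g f = j := by
      intro j
      refine Finset.filter_congr fun f hf => ?_
      rw [hg f hf j, not_not]
      exact eq_comm
    rw [h1, h1, h1, ← h4, Finset.card_eq_sum_card_fiberwise (f := g) (s := G.cut X)
      (t := Finset.univ) (fun f _ => Finset.mem_coe.2 (Finset.mem_univ _)), Fin.sum_univ_three]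
  have hex : ∃ j, ((G.cut X).filter fun f => f ∉ D j).card = 0 := by
    have p0 := hpart 0
    have p1 := hpart 1
    have p2 := hpart 2
    have e0 := Nat.even_iff.1 (heven 0)
    have e1 := Nat.even_iff.1 (heven 1)
    have e2 := Nat.even_iff.1 (heven 2)
    by_contra hno
    rw [not_exists] at hno
    have n0 := hno 0
    have n1 := hno 1
    have n2 := hno 2
    omega
  obtain ⟨j, hj⟩ := hex
  refine ⟨j, ?_⟩
  apply Finset.eq_of_subset_of_card_le Finset.inter_subset_right
  have := hpart j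
  omega

/-- normal form of the traces of a base avoiding an inner edge -/
theorem fbase_trace [Fintype V] [Fintype E] {X : Finset V} (h4 : (G.cut X).card = 4) {e : E}
    (he : e ∉ G.cut X) {D : Fin 3 → Finset E} (hB : G.FBase X e D) :
    ∃ D' : Fin 3 → Finset E, G.FBase X e D' ∧ D' 0 ∩ G.cut X = G.cut X ∧
      D' 2 ∩ G.cut X = G.cut X \ (D' 1 ∩ G.cut X) := by
  obtain ⟨j, hj⟩ := G.ffull h4 hB.ev (fun f hf => hB.two f (G.fmeets_of_cut hf)
    (fun h => he (h ▸ hf)))
  have hB' := G.fbase_perm hB (Equiv.swap 0 j)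
  refine ⟨_, hB', ?_, ?_⟩
  · simp only [Equiv.swap_apply_left]
    exact hj
  · ext f
    simp only [Finset.mem_inter, Finset.mem_sdiff]
    constructor
    · rintro ⟨h1, h2⟩
      refine ⟨h2, fun h3 => ?_⟩
      obtain ⟨i, hi⟩ := hB'.two f (G.fmeets_of_cut h2) (fun h => he (h ▸ h2))
      have h5 : f ∈ D j ∩ G.cut X := by rw [hj]; exact h2
      have h6 := (hi 0).1 (by simp only [Equiv.swap_apply_left]; exact (Finset.mem_inter.1 h5).1)
      have h7 := (hi 1).1 h3.1
      have h8 := (hi 2).1 h1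
      revert h6 h7 h8
      clear hi
      revert i
      decide
    · rintro ⟨h2, h3⟩
      refine ⟨?_, h2⟩
      obtain ⟨i, hi⟩ := hB'.two f (G.fmeets_of_cut h2) (fun h => he (h ▸ h2))
      have h5 : f ∈ D j ∩ G.cut X := by rw [hj]; exact h2
      have h6 := (hi 0).1 (by simp only [Equiv.swap_apply_left]; exact (Finset.mem_inter.1 h5).1)
      have h7 : ¬ ((1 : Fin 3) ≠ i) := fun h => h3 ⟨(hi 1).2 h, h2⟩
      refine (hi 2).2 ?_
      revert h6 h7
      clear hi
      revert i
      decide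

/-- the cover from two disjoint joins of the ends of an inner edge -/
theorem fpair [Fintype V] [Fintype E] {X : Finset V} {e : E} {u v : V} (hu : u ∈ X) (hv : v ∈ X)
    (huv : u ≠ v) (he : G.FEnds e u v) {D : Fin 3 → Finset E} (hB : G.FBase X e D)
    {J J' : Finset E} (mJ : G.FMeet X J) (mJ' : G.FMeet X J') (eJ : e ∉ J) (eJ' : e ∉ J')
    (hd : Disjoint J J') (jJ : G.FJoin X J u v) (jJ' : G.FJoin X J' u v) :
    tt (D 0 ∩ G.cut X) (D 1 ∩ G.cut X) (D 2 ∩ G.cut X) (J ∩ G.cut X) (J' ∩ G.cut X) ∈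
      G.coverTypes X := by
  have hme : G.Meets X e := by
    rcases he with ⟨h1, -⟩ | ⟨h1, -⟩
    · exact Or.inl (h1 ▸ hu)
    · exact Or.inl (h1 ▸ hv)
  have hec : e ∉ G.cut X := by
    rw [Inner.mem_cut G]
    rcases he with ⟨h1, h2⟩ | ⟨h1, h2⟩ <;> rw [h1, h2] <;> tauto
  have hev : ∀ K : Finset E, G.FJoin X K u v → G.FEven X (symmDiff K {e}) := by
    intro K hK z hz
    rw [even_deg_symmDiff_singleton, hK z hz]
    rcases he with ⟨h1, h2⟩ | ⟨h1, h2⟩ <;> rw [h1, h2]
    · constructor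
      · rintro ⟨h3, h4⟩
        exact iff_of_false (fun h => h3 h.symm) (fun h => h4 h.symm)
      · intro h3
        constructor
        · rintro rfl
          exact huv.symm (h3.1 rfl)
        · rintro rfl
          exact huv (h3.2 rfl)
    · constructor
      · rintro ⟨h3, h4⟩
        exact iff_of_false (fun h => h4 h.symm) (fun h => h3 h.symm)
      · intro h3
        constructor
        · rintro rfl
          exact huv.symm (h3.2 rfl)
        · rintro rfl
          exact huv (h3.1 rfl)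
  have hm : ∀ K : Finset E, G.FMeet X K → G.FMeet X (symmDiff K {e}) := by
    intro K hK
    refine G.fmeet_symmDiff hK fun f hf => ?_
    rw [Finset.mem_singleton.1 hf]
    exact hme
  have hi : symmDiff J {e} ∩ symmDiff J' {e} = {e} := by
    ext f
    simp only [Finset.mem_inter, Finset.mem_symmDiff, Finset.mem_singleton]
    have h1 : ¬ (f ∈ J ∧ f ∈ J') := fun h => (Finset.disjoint_left.1 hd) h.1 h.2
    constructor
    · rintro ⟨⟨h2, h3⟩ | ⟨h2, h3⟩, h4⟩
      · rcases h4 with ⟨h5, -⟩ | ⟨h5, -⟩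
        · exact absurd ⟨h2, h5⟩ h1
        · exact h5
      · exact h2
    · rintro rfl
      exact ⟨Or.inr ⟨rfl, eJ⟩, Or.inr ⟨rfl, eJ'⟩⟩
  have ht : ∀ K : Finset E, symmDiff K {e} ∩ G.cut X = K ∩ G.cut X := by
    intro K
    ext f
    simp only [Finset.mem_inter, Finset.mem_symmDiff, Finset.mem_singleton]
    constructor
    · rintro ⟨⟨h2, -⟩ | ⟨rfl, -⟩, h4⟩
      · exact ⟨h2, h4⟩
      · exact absurd h4 hec
    · rintro ⟨h2, h4⟩
      exact ⟨Or.inl ⟨h2, fun h => hec (h ▸ h4)⟩, h4⟩
  have := G.ftype hB (hm J mJ) (hm J' mJ') (hev J jJ) (hev J' jJ') hi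
  rw [ht, ht] at this
  exact this

/-- two odd sets give a join -/
theorem fjoin_union {X : Finset V} {A B : Finset E} {u v : V} (huv : u ≠ v)
    (hd : Disjoint A B) (hA : G.FOdd X A u) (hB : G.FOdd X B v) : G.FJoin X (A ∪ B) u v := by
  intro z hz
  have h1 : G.deg (A ∪ B) z = G.deg A z + G.deg B z := G.deg_union A B hd z
  rw [h1, Nat.even_add, hA z hz, hB z hz]
  by_cases h2 : z = u
  · subst h2
    simp [huv]
  · by_cases h3 : z = v
    · subst h3
      simp [h2]
    · simp [h2, h3]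

theorem fmeet_union {X : Finset V} {A B : Finset E} (hA : G.FMeet X A) (hB : G.FMeet X B) :
    G.FMeet X (A ∪ B) := by
  intro f hf
  rcases Finset.mem_union.1 hf with h | h
  · exact hA f h
  · exact hB f h

theorem fmeet_inside [Fintype E] {X : Finset V} {A : Finset E} (hA : A ⊆ G.inside X) :
    G.FMeet X A := by
  intro f hf
  have := hA hf
  unfold inside at this
  rw [Finset.mem_filter] at this
  exact Or.inl this.2.1

theorem inside_inter_cut [Fintype E] {X : Finset V} {A : Finset E} (hA : A ⊆ G.inside X) :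
    A ∩ G.cut X = ∅ := by
  rw [Finset.eq_empty_iff_forall_notMem]
  intro f hf
  rw [Finset.mem_inter, Inner.mem_cut G] at hf
  have := hA hf.1
  unfold inside at this
  rw [Finset.mem_filter] at this
  tauto

end MGraph
end CDCut
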