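import Pool.Agent.CDFlow.Menger
import Pool.Agent.CDFlow.Inc

/-!
# Module `CutEdge`: two sets through a cut edge

**Statement.**  Let `δ(X) = {a, b, c, d}`.  There are two sets `C`, `C'` of edges meeting `X`, even
on `X`, with `C ∩ C' = {a}` and traces `{a, c}` and `{a, d}`.

**Proof.**  Let `w` be the end of `a` in `X`.  Apply `menger_map` with `k = 2`, `s = w`, `t = y0`
(`y0 ∉ X`), `π z = z` for `z ∈ X`, `π z = y0` for `z ∉ X`, `A` = the edges meeting `X` except `a` and
`b`.  Cut condition: the preimage `Z'` of a set `Z` with `w ∈ Z`, `y0 ∉ Z` satisfies `w ∈ Z' ⊆ X`.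
If `|Z'| ≥ 2`, then `|δ(Z')| ≥ 4` (`four_le_card_cut`), so at least 2 edges besides `a, b`.  If
`Z' = {w}`: `|δ(w)| = 3` and `b ∉ δ(w)`, as otherwise `δ(X \ {w})` has 3 edges and `|X| ≤ 2`
(`card_cut_eq_three`, `fsides`).  So there are disjoint `J 0, J 1 ⊆ A`, with odd degree at `w` and
even degree at all other vertices of `X`; each has an odd number of edges in `δ(X)`
(`even_inter_cut_iff` or `fodd_trace`), i.e. in `{c, d}`, so exactly one.  Say `c ∈ J 0`, `d ∈ J 1`;
take `C = {a} ∪ J 0`, `C' = {a} ∪ J 1`.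
-/

open scoped Classical

namespace CDCut
namespace MGraph

variable {V E : Type} (G : MGraph V E)

/-- adding the cut edge `a` with the end `w` in `X` to a set which is odd at `w` -/
private theorem fcutEdge_even {X : Finset V} {a : E} {w : V}
    (ha : ∀ v ∈ X, ((G.fst a = v ↔ G.snd a = v) ↔ v ≠ w)) {J : Finset E} (haJ : a ∉ J)
    (hJ : G.FOdd X J w) : G.FEven X (insert a J) := by
  intro z hz
  have h1 : insert a J = symmDiff J {a} := by
    ext e
    simp only [Finset.mem_insert, Finset.mem_symmDiff, Finset.mem_singleton]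
    constructor
    · rintro (rfl | h)
      · exact Or.inr ⟨rfl, haJ⟩
      · exact Or.inl ⟨h, fun h2 => haJ (h2 ▸ h)⟩
    · rintro (⟨h, -⟩ | ⟨h, -⟩)
      · exact Or.inr h
      · exact Or.inl h
  rw [h1, even_deg_symmDiff_singleton, ha z hz, hJ z hz]

/-- the final step: from two disjoint sets odd at `w` with traces `{c}` and `{d}` -/
private theorem fcutEdge_fin [Fintype V] [Fintype E] {X : Finset V} {a b c d : E} {w : V}
    (hnd : [a, b, c, d].Nodup) (hcut : G.cut X = {a, b, c, d})
    (ha : ∀ v ∈ X, ((G.fst a = v ↔ G.snd a = v) ↔ v ≠ w)) (hma : G.Meets X a)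
    {P Q : Finset E} (hmP : G.FMeet X P) (hmQ : G.FMeet X Q) (haP : a ∉ P) (haQ : a ∉ Q)
    (hPQ : Disjoint P Q) (hP : G.FOdd X P w) (hQ : G.FOdd X Q w)
    (htP : P ∩ G.cut X = {c}) (htQ : Q ∩ G.cut X = {d}) :
    ∃ C C' : Finset E, G.FMeet X C ∧ G.FMeet X C' ∧ G.FEven X C ∧ G.FEven X C' ∧
      C ∩ C' = {a} ∧ C ∩ G.cut X = {a, c} ∧ C' ∩ G.cut X = {a, d} := by
  have hac : a ∈ G.cut X := by
    rw [hcut]
    simp
  refine ⟨insert a P, insert a Q, ?_, ?_, G.fcutEdge_even ha haP hP, G.fcutEdge_even ha haQ hQ,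
    ?_, ?_, ?_⟩
  · intro e he
    rcases Finset.mem_insert.1 he with rfl | he
    · exact hma
    · exact hmP e he
  · intro e he
    rcases Finset.mem_insert.1 he with rfl | he
    · exact hma
    · exact hmQ e he
  · rw [← Finset.insert_inter_distrib, Finset.disjoint_iff_inter_eq_empty.1 hPQ]
    rfl
  · rw [Finset.insert_inter_of_mem hac, htP]
  · rw [Finset.insert_inter_of_mem hac, htQ]

theorem fcutEdge [Fintype V] [Fintype E] (hG : G.IsSmallestCounterexample) {X : Finset V}
    (hX : G.IsCyclicFourCut X) {a b c d : E} (hnd : [a, b, c, d].Nodup)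
    (hcut : G.cut X = {a, b, c, d}) :
    ∃ C C' : Finset E, G.FMeet X C ∧ G.FMeet X C' ∧ G.FEven X C ∧ G.FEven X C' ∧
      C ∩ C' = {a} ∧ C ∩ G.cut X = {a, c} ∧ C' ∩ G.cut X = {a, d} := by
  obtain ⟨h3, h3'⟩ := G.fsides hG hX
  have hac : a ∈ G.cut X := by
    rw [hcut]
    simp
  have hbc : b ∈ G.cut X := by
    rw [hcut]
    simp
  have hne : a ≠ b ∧ a ≠ c ∧ a ≠ d ∧ b ≠ c ∧ b ≠ d ∧ c ≠ d := by
    simp only [List.nodup_cons, List.mem_cons, List.not_mem_nil, or_false, not_or,
      List.nodup_nil, and_true, not_false_eq_true] at hnd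
    tauto
  obtain ⟨hab, hac', had, hbc', hbd, hcd⟩ := hne
  -- the end of `a` in `X`
  obtain ⟨w, hwX, haw, hw⟩ : ∃ w ∈ X, G.Inc a w ∧
      ∀ v ∈ X, ((G.fst a = v ↔ G.snd a = v) ↔ v ≠ w) := by
    have hr := hac
    rw [Inner.mem_cut G] at hr
    rcases hr with ⟨h1, h2⟩ | ⟨h1, h2⟩
    · refine ⟨G.fst a, h1, Or.inl rfl, fun v hv => ?_⟩
      have h3 : G.snd a ≠ v := fun h => h2 (h ▸ hv)
      constructor
      · rintro h rfl
        exact h3 (h.1 rfl)
      · intro h
        exact ⟨fun h5 => absurd h5.symm h, fun h5 => absurd h5 h3⟩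
    · refine ⟨G.snd a, h2, Or.inr rfl, fun v hv => ?_⟩
      have h3 : G.fst a ≠ v := fun h => h1 (h ▸ hv)
      constructor
      · rintro h rfl
        exact h3 (h.2 rfl)
      · intro h
        exact ⟨fun h5 => absurd h5 h3, fun h5 => absurd h5.symm h⟩
  have hma : G.Meets X a := by
    have hr := hac
    rw [Inner.mem_cut G] at hr
    unfold Meets
    tauto
  -- a vertex outside
  obtain ⟨y0, hy0⟩ : ∃ y0, y0 ∉ X := by
    obtain ⟨y, hy⟩ := Finset.card_pos.1 (by omega : 0 < Xᶜ.card)
    exact ⟨y, Finset.mem_compl.1 hy⟩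
  have hwy : w ≠ y0 := fun h => hy0 (h ▸ hwX)
  set π : V → V := fun z => if z ∈ X then z else y0 with hπ
  set A : Finset E := (Finset.univ.filter fun e => G.Meets X e) \ {a, b} with hA
  have hmeet : ∀ Z : Finset V, Z ⊆ X → ∀ e ∈ G.cut Z, G.Meets X e := by
    intro Z hZ e he
    rw [Inner.mem_cut G] at he
    rcases he with ⟨h, -⟩ | ⟨-, h⟩
    · exact Or.inl (hZ h)
    · exact Or.inr (hZ h)
  have hcond : ∀ Z : Finset V, w ∈ Z → y0 ∉ Z →
      2 ≤ (A ∩ G.cut (Finset.univ.filter fun z => π z ∈ Z)).card := by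
    intro Z hwZ hyZ
    set Z' : Finset V := Finset.univ.filter fun z => π z ∈ Z with hZ'
    have hsub : Z' ⊆ X := by
      intro z hz
      rw [hZ', Finset.mem_filter] at hz
      by_contra h
      have h2 := hz.2
      simp only [hπ, if_neg h] at h2
      exact hyZ h2
    have hwZ' : w ∈ Z' := by
      rw [hZ', Finset.mem_filter]
      refine ⟨Finset.mem_univ _, ?_⟩
      simp only [hπ, if_pos hwX]
      exact hwZ
    have hinter : A ∩ G.cut Z' = G.cut Z' \ {a, b} := by
      ext e
      rw [Finset.mem_inter, hA, Finset.mem_sdiff, Finset.mem_sdiff, Finset.mem_filter]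
      constructor
      · rintro ⟨⟨-, h1⟩, h2⟩
        exact ⟨h2, h1⟩
      · rintro ⟨h1, h2⟩
        exact ⟨⟨⟨Finset.mem_univ _, hmeet Z' hsub e h1⟩, h2⟩, h1⟩
    rw [hinter]
    by_cases h2 : 2 ≤ Z'.card
    · have hc : 2 ≤ Z'ᶜ.card := by
        have : Xᶜ ⊆ Z'ᶜ := Finset.compl_subset_compl.2 hsub
        have := Finset.card_le_card this
        omega
      have h4 := G.four_le_card_cut hG Z' h2 hc
      have h5 : (G.cut Z').card ≤ (G.cut Z' \ {a, b}).card + ({a, b} : Finset E).card :=
        Finset.card_le_card_sdiff_add_card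
      have h6 : ({a, b} : Finset E).card ≤ 2 := Finset.card_le_two
      omega
    · have h1 : Z' = {w} := by
        have h5 : Z'.card = 1 := by
          have : 0 < Z'.card := Finset.card_pos.2 ⟨w, hwZ'⟩
          omega
        obtain ⟨u, hu⟩ := Finset.card_eq_one.1 h5
        rw [hu, Finset.mem_singleton] at hwZ'
        rw [hu, hwZ']
      have hb : b ∉ G.cut {w} := by
        intro hb
        have hbw : G.Inc b w := by
          rw [Inner.mem_cut G, Finset.mem_singleton, Finset.mem_singleton] at hb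
          unfold Inc
          tauto
        exact G.finc_one hG hX hwX hac hbc hab haw hbw
      have h7 : G.cut {w} \ {a, b} = G.cut {w} \ {a} := by
        ext e
        simp only [Finset.mem_sdiff, Finset.mem_insert, Finset.mem_singleton, not_or]
        constructor
        · rintro ⟨h, h8, -⟩
          exact ⟨h, h8⟩
        · rintro ⟨h, h8⟩
          exact ⟨h, h8, fun h9 => hb (h9 ▸ h)⟩
      rw [h1, h7]
      have h4 := G.card_cut_vertex hG w
      have h5 : (G.cut {w}).card ≤ (G.cut {w} \ {a}).card + ({a} : Finset E).card :=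
        Finset.card_le_card_sdiff_add_card
      rw [Finset.card_singleton] at h5
      omega
  obtain ⟨J, hJA, hJd, hJ⟩ := G.menger_map π A w y0 hwy 2 hcond
  have hJm : ∀ i, G.FMeet X (J i) := by
    intro i e he
    have := hJA i he
    rw [hA, Finset.mem_sdiff, Finset.mem_filter] at this
    exact this.1.2
  have hJa : ∀ i, a ∉ J i ∧ b ∉ J i := by
    intro i
    constructor
    · intro he
      have := hJA i he
      rw [hA, Finset.mem_sdiff] at this
      exact this.2 (by simp)
    · intro he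
      have := hJA i he
      rw [hA, Finset.mem_sdiff] at this
      exact this.2 (by simp)
  have hJo : ∀ i, G.FOdd X (J i) w := by
    intro i z hz
    have h1 : Finset.univ.filter (fun y => π y = z) = {z} := by
      ext y
      rw [Finset.mem_filter, Finset.mem_singleton]
      constructor
      · rintro ⟨-, h⟩
        by_cases hy : y ∈ X
        · simp only [hπ, if_pos hy] at h
          exact h
        · simp only [hπ, if_neg hy] at h
          exact absurd (h ▸ hz) hy0
      · rintro rfl
        refine ⟨Finset.mem_univ _, ?_⟩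
        simp only [hπ, if_pos hz]
    have h2 := hJ i z
    rw [h1, Finset.sum_singleton] at h2
    rw [h2]
    have h3 : z ≠ y0 := fun h => hy0 (h ▸ hz)
    tauto
  have htr : ∀ i, J i ∩ G.cut X = {c} ∨ J i ∩ G.cut X = {d} := by
    intro i
    have h1 := G.fodd_trace hwX (hJo i)
    have h2 : J i ∩ G.cut X ⊆ {c, d} := by
      intro e he
      rw [Finset.mem_inter, hcut] at he
      simp only [Finset.mem_insert, Finset.mem_singleton] at he ⊢
      rcases he with ⟨h, h4 | h4 | h4 | h4⟩
      · exact absurd (h4 ▸ h) (hJa i).1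
      · exact absurd (h4 ▸ h) (hJa i).2
      · exact Or.inl h4
      · exact Or.inr h4
    have h5 : (J i ∩ G.cut X).card ≤ 2 := by
      have := Finset.card_le_card h2
      rw [Finset.card_pair hcd] at this
      exact this
    have h6 : (J i ∩ G.cut X).card = 1 := by
      rw [Nat.odd_iff] at h1
      omega
    obtain ⟨e, he⟩ := Finset.card_eq_one.1 h6
    rw [he, Finset.singleton_subset_iff] at h2
    rw [he]
    rcases Finset.mem_insert.1 h2 with rfl | h2
    · exact Or.inl rfl
    · rw [Finset.mem_singleton] at h2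
      rw [h2]
      exact Or.inr rfl
  have hne : J 0 ∩ G.cut X ≠ J 1 ∩ G.cut X := by
    intro h
    have h1 := hJd 0 1 (by decide)
    rcases htr 0 with h2 | h2
    · have hc0 : c ∈ J 0 := by
        have : c ∈ J 0 ∩ G.cut X := by rw [h2]; simp
        exact (Finset.mem_inter.1 this).1
      have hc1 : c ∈ J 1 := by
        have : c ∈ J 1 ∩ G.cut X := by rw [← h, h2]; simp
        exact (Finset.mem_inter.1 this).1
      exact Finset.disjoint_left.1 h1 hc0 hc1
    · have hc0 : d ∈ J 0 := by
        have : d ∈ J 0 ∩ G.cut X := by rw [h2]; simp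
        exact (Finset.mem_inter.1 this).1
      have hc1 : d ∈ J 1 := by
        have : d ∈ J 1 ∩ G.cut X := by rw [← h, h2]; simp
        exact (Finset.mem_inter.1 this).1
      exact Finset.disjoint_left.1 h1 hc0 hc1
  rcases htr 0 with h0 | h0
  · have h1 : J 1 ∩ G.cut X = {d} := by
      rcases htr 1 with h1 | h1
      · exact absurd (h0.trans h1.symm) hne
      · exact h1
    exact G.fcutEdge_fin hnd hcut hw hma (hJm 0) (hJm 1) (hJa 0).1 (hJa 1).1
      (hJd 0 1 (by decide)) (hJo 0) (hJo 1) h0 h1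
  · have h1 : J 1 ∩ G.cut X = {c} := by
      rcases htr 1 with h1 | h1
      · exact h1
      · exact absurd (h0.trans h1.symm) hne
    exact G.fcutEdge_fin hnd hcut hw hma (hJm 1) (hJm 0) (hJa 1).1 (hJa 0).1
      (hJd 1 0 (by decide)) (hJo 1) (hJo 0) h1 h0

end MGraph
end CDCut
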