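import Pool.Agent.CDCut.KSwitch
import Pool.Agent.CDCut.Cubic
import Pool.Agent.CDCut.FourCirc
import Pool.Agent.CDCut.Forest

/-!
# Flows on the sides of a cyclic 4-edge-cut: definitions

Aim: let `G` be a smallest counterexample to the circuit double cover conjecture, `δ(X)` a cyclic
4-edge-cut.  Then every `Z2 x Z2`-flow on the side `X` (two sets `P, Q` of edges, even at all the
vertices of `X`) vanishes on at least two of the edges meeting `X`.
-/

open scoped Classical

namespace CDCut
namespace MGraph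

variable {V E : Type} (G : MGraph V E)

/-- all edges of `J` meet `X` -/
def FMeet (X : Finset V) (J : Finset E) : Prop := ∀ e ∈ J, G.Meets X e

/-- `J` has even degree at all vertices of `X` -/
def FEven (X : Finset V) (J : Finset E) : Prop := ∀ z ∈ X, Even (G.deg J z)

/-- `J` has odd degree at `w` and even degree at all other vertices of `X` -/
def FOdd (X : Finset V) (J : Finset E) (w : V) : Prop := ∀ z ∈ X, (Even (G.deg J z) ↔ z ≠ w)

/-- `J` has odd degree at `u` and `v` and even degree at all other vertices of `X` -/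
def FJoin (X : Finset V) (J : Finset E) (u v : V) : Prop :=
  ∀ z ∈ X, (Even (G.deg J z) ↔ (z ≠ u ∧ z ≠ v))

/-- `u` and `v` are the ends of `e` -/
def FEnds (e : E) (u v : V) : Prop :=
  (G.fst e = u ∧ G.snd e = v) ∨ (G.fst e = v ∧ G.snd e = u)

/-- Four disjoint edge sets, leading from `u` to the cut edges `i`, `j` and from `v` to the cut
edges `k`, `l`, and avoiding the edge `e`. -/
structure FSys [Fintype E] (X : Finset V) (e : E) (u v : V) (A1 A2 B1 B2 : Finset E)
    (i j k l : E) : Prop where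
  nd : [i, j, k, l].Nodup
  cut : G.cut X = {i, j, k, l}
  mA1 : G.FMeet X A1
  mA2 : G.FMeet X A2
  mB1 : G.FMeet X B1
  mB2 : G.FMeet X B2
  eA1 : e ∉ A1
  eA2 : e ∉ A2
  eB1 : e ∉ B1
  eB2 : e ∉ B2
  dAA : Disjoint A1 A2
  dA1B1 : Disjoint A1 B1
  dA1B2 : Disjoint A1 B2
  dA2B1 : Disjoint A2 B1
  dA2B2 : Disjoint A2 B2
  dBB : Disjoint B1 B2
  oA1 : G.FOdd X A1 u
  oA2 : G.FOdd X A2 u
  oB1 : G.FOdd X B1 v
  oB2 : G.FOdd X B2 v
  tA1 : A1 ∩ G.cut X = {i}
  tA2 : A2 ∩ G.cut X = {j}
  tB1 : B1 ∩ G.cut X = {k}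
  tB2 : B2 ∩ G.cut X = {l}

/-- a set with odd degree exactly at `w ∈ X` meets the cut in an odd number of edges -/
theorem fodd_trace [Fintype V] [Fintype E] {X : Finset V} {J : Finset E} {w : V} (hw : w ∈ X)
    (h : G.FOdd X J w) : Odd (J ∩ G.cut X).card := by
  have h1 : J ∩ G.cut X =
      symmDiff (J.filter fun e => G.fst e ∈ X) (J.filter fun e => G.snd e ∈ X) := by
    ext e
    simp only [MGraph.cut, Finset.mem_inter, Finset.mem_filter, Finset.mem_univ, true_and,
      Finset.mem_symmDiff]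
    tauto
  have h2 := card_symmDiff_add (J.filter fun e => G.fst e ∈ X) (J.filter fun e => G.snd e ∈ X)
  have h3 : Odd (∑ z ∈ X, G.deg J z) := by
    rw [← Finset.add_sum_erase X _ hw]
    refine Odd.add_even ?_ (Finset.even_sum _ fun z hz => ?_)
    · rw [← Nat.not_even_iff_odd, h w hw]
      exact fun h => h rfl
    · rw [Finset.mem_erase] at hz
      exact (h z hz.2).2 hz.1
  rw [sum_deg_on] at h3
  rw [h1]
  rw [Nat.odd_iff] at h3 ⊢
  omega

/-- the number of edges of `J` in the cut `δ(Z)` has the parity of the degree sum of `J` in `Z` -/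
theorem even_inter_cut_iff [Fintype V] [Fintype E] (Z : Finset V) (J : Finset E) :
    Even (J ∩ G.cut Z).card ↔ Even (∑ z ∈ Z, G.deg J z) := by
  have h1 : J ∩ G.cut Z =
      symmDiff (J.filter fun e => G.fst e ∈ Z) (J.filter fun e => G.snd e ∈ Z) := by
    ext e
    simp only [MGraph.cut, Finset.mem_inter, Finset.mem_filter, Finset.mem_univ, true_and,
      Finset.mem_symmDiff]
    tauto
  have h2 := card_symmDiff_add (J.filter fun e => G.fst e ∈ Z) (J.filter fun e => G.snd e ∈ Z)
  rw [sum_deg_on, h1, Nat.even_iff, Nat.even_iff]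
  omega

/-- both sides of a cyclic 4-edge-cut have at least three vertices -/
theorem fsides [Fintype V] [Fintype E] (hG : G.IsSmallestCounterexample) {X : Finset V}
    (hX : G.IsCyclicFourCut X) : 3 ≤ X.card ∧ 3 ≤ Xᶜ.card := by
  have h1 : ∀ Y : Finset V, G.IsCyclicFourCut Y → 3 ≤ Y.card := by
    intro Y hY
    exact G.three_le_of_inner hG Y hY.2.1 (G.exists_inner_circuit hG Y hY).1
  exact ⟨h1 X hX, h1 Xᶜ (G.isCyclicFourCut_compl X hX)⟩

end MGraph
end CDCut
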