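import Pool.Agent.CDFlow.Defs

/-!
# Module `Link`: linking the two halves of a system

**Statement.**  Given a system (`FSys`), there are `A'` inside `A1` or `A2`, `B'` inside `B1` or `B2`,
and a set `P` of inner edges joining `u` and `v`, all disjoint and not containing `e`.

**Proof.**  Let `A1' ⊆ A1` be inclusion-minimal with odd degree exactly at `u` (in `X`), the same for
`A2' ⊆ A2`, and `B1', B2'` (with `v`).  *Connectivity*: if `J` is minimal with `FOdd X J u`, `α ∈ X`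
and `J` has positive degree at `α`, then some `J' ⊆ J` joins `u` and `α` in the sense that for all
`z ∈ X`, `Even (deg J' z) ↔ (z = u ↔ z = α)`.  (Let `S` be the set of all `α ∈ X` with such a `J'`;
`u ∈ S` by `J' = ∅`; no edge of `J` has one end in `S` and the other in `X \ S` (replace `J'` by
`J' ∆ {f}`).  The set `J0` of all edges of `J` with an end in `S` has the degrees of `J` on `S` and
`0` on `X \ S`, so `FOdd X J0 u`, so `J0 = J`.)  Let `VA` = the vertices of `X` with positive degree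
in `A1' ∪ A2'` (this contains `u`), `VB` the same for `B1' ∪ B2'`, and `O` = the edges inside `X`
which are not `e` and not in `A1', A2', B1', B2'`.  Let `W` = the set of `w ∈ X` such that for some
`α ∈ VA` some `R ⊆ O` has `Even (deg R z) ↔ (z = α ↔ z = w)` for all `z ∈ X`; so `VA ⊆ W`.
*Claim*: `W` meets `VB`.  Otherwise `W` is a nonempty proper subset of `X` (`v ∈ VB`), and the only
edge inside `X` with exactly one end in `W` is `e`: an edge of `O` does not leave `W`; an edge of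
`A1' ∪ A2'` inside `X` has both ends in `VA`; an edge of `B1' ∪ B2'` inside `X` has both ends in
`VB`.  Hence `|δ(W)| + |δ(X \ W)| ≤ 2 + 4 = 6`, both are `≥ 3` (`three_le_card_cut`), so both are 3
and both `W` and `X \ W` have one element (`card_cut_eq_three`; the complements are large by
`fsides`), but `|X| ≥ 3`.  So there are `α ∈ VA`, `β ∈ VB` and `R ⊆ O` joining them.  Say `α` has
positive degree in `A_x'`, `β` in `B_y'`; take `J_α ⊆ A_x'` joining `u` and `α`, `J_β ⊆ B_y'` joining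
`v` and `β`, `P = J_α ∪ R ∪ J_β` (disjoint union), and for `A'`, `B'` the OTHER two minimal sets.
`J_α` contains no edge of the cut: `J_α ∩ δ(X)` has at most one element (`A_x ∩ δ(X)` has one) and
even size (`even_inter_cut_iff`, `J_α` has an even degree sum on `X`).
-/

open scoped Classical

namespace CDCut
namespace MGraph

variable {V E : Type} (G : MGraph V E)

/-- `J` joins `a` and `b` inside `X` (for `a = b`: `J` is even on `X`) -/
def FLconn (X : Finset V) (J : Finset E) (a b : V) : Prop :=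
  ∀ z ∈ X, (Even (G.deg J z) ↔ (z = a ↔ z = b))

theorem flconn_empty (X : Finset V) (a : V) : G.FLconn X ∅ a a := by
  intro z _
  rw [deg_empty]
  simp

theorem flconn_trans {X : Finset V} {J K : Finset E} {a b c : V} (h1 : G.FLconn X J a b)
    (h2 : G.FLconn X K b c) : G.FLconn X (symmDiff J K) a c := by
  intro z hz
  rw [even_deg_symmDiff, h1 z hz, h2 z hz]
  tauto

theorem flconn_edge (X : Finset V) (f : E) : G.FLconn X {f} (G.fst f) (G.snd f) := by
  intro z _
  rw [Bridge_even_singleton]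
  constructor
  · intro h
    exact ⟨fun h1 => (h.1 h1.symm).symm, fun h1 => (h.2 h1.symm).symm⟩
  · intro h
    exact ⟨fun h1 => (h.1 h1.symm).symm, fun h1 => (h.2 h1.symm).symm⟩

theorem flconn_symm {X : Finset V} {J : Finset E} {a b : V} (h1 : G.FLconn X J a b) :
    G.FLconn X J b a := by
  intro z hz
  rw [h1 z hz]
  tauto

/-- an inner edge leads on -/
theorem flconn_step {X : Finset V} {J O : Finset E} {a x y : V} {f : E} (hJ : J ⊆ O) (hf : f ∈ O)
    (h1 : G.FLconn X J a x) (h2 : G.FEnds f x y) : ∃ K ⊆ O, G.FLconn X K a y := by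
  refine ⟨symmDiff J {f}, ?_, ?_⟩
  · intro g hg
    rw [Finset.mem_symmDiff, Finset.mem_singleton] at hg
    rcases hg with ⟨h3, -⟩ | ⟨rfl, -⟩
    · exact hJ h3
    · exact hf
  · rcases h2 with ⟨rfl, rfl⟩ | ⟨rfl, rfl⟩
    · exact G.flconn_trans h1 (G.flconn_edge X f)
    · exact G.flconn_trans h1 (G.flconn_symm (G.flconn_edge X f))

theorem flink_deg_eq {J : Finset E} {p : E → Prop} {z : V}
    (h : ∀ f ∈ J, G.Inc f z → p f) : G.deg (J.filter p) z = G.deg J z := by
  unfold deg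
  rw [Finset.filter_filter, Finset.filter_filter]
  congr 2
  · apply Finset.filter_congr
    intro f hf
    exact ⟨fun h1 => h1.2, fun h1 => ⟨h f hf (Or.inl h1), h1⟩⟩
  · apply Finset.filter_congr
    intro f hf
    exact ⟨fun h1 => h1.2, fun h1 => ⟨h f hf (Or.inr h1), h1⟩⟩

theorem flink_deg_zero {J : Finset E} {z : V} (h : ∀ f ∈ J, ¬ G.Inc f z) : G.deg J z = 0 := by
  by_contra h1
  obtain ⟨f, hf, hz⟩ := (G.deg_pos_iff J z).1 (Nat.pos_of_ne_zero h1)
  exact h f hf hz

/-- a minimal set with odd degree exactly at `u` -/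
theorem flink_min {X : Finset V} {J : Finset E} {u : V} (h : G.FOdd X J u) :
    ∃ K ⊆ J, G.FOdd X K u ∧ ∀ L ⊆ K, G.FOdd X L u → L = K := by
  obtain ⟨K, hK, hmin⟩ := Finset.exists_min_image (J.powerset.filter fun K => G.FOdd X K u)
    (fun K => K.card) ⟨J, Finset.mem_filter.2 ⟨Finset.mem_powerset.2 (Finset.Subset.refl J), h⟩⟩
  rw [Finset.mem_filter, Finset.mem_powerset] at hK
  refine ⟨K, hK.1, hK.2, fun L hL hLo => ?_⟩
  refine Finset.eq_of_subset_of_card_le hL ?_
  exact hmin L (Finset.mem_filter.2 ⟨Finset.mem_powerset.2 (hL.trans hK.1), hLo⟩)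

/-- in a minimal set, every vertex of positive degree is joined to `u` -/
theorem flink_conn {X : Finset V} {J : Finset E} {u : V} (hu : u ∈ X) (hJ : G.FOdd X J u)
    (hmin : ∀ L ⊆ J, G.FOdd X L u → L = J) {α : V} (hα : α ∈ X) (hpos : 0 < G.deg J α) :
    ∃ K ⊆ J, G.FLconn X K u α := by
  set S : Finset V := X.filter fun a => ∃ K ⊆ J, G.FLconn X K u a with hS
  have hmem : ∀ a, a ∈ S ↔ a ∈ X ∧ ∃ K ⊆ J, G.FLconn X K u a := by
    intro a
    rw [hS, Finset.mem_filter]
  have huS : u ∈ S := (hmem u).2 ⟨hu, ∅, Finset.empty_subset J, G.flconn_empty X u⟩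
  have hstep : ∀ f ∈ J, ∀ x y, x ∈ S → y ∈ X → G.FEnds f x y → y ∈ S := by
    intro f hf x y hx hy hxy
    obtain ⟨-, K, hK, hc⟩ := (hmem x).1 hx
    exact (hmem y).2 ⟨hy, G.flconn_step hK hf hc hxy⟩
  have hinc : ∀ f ∈ J, ∀ z ∈ X, z ∉ S → G.Inc f z → ¬ G.Meets S f := by
    intro f hf z hz hzS hfz hm
    apply hzS
    rcases hfz with h | h <;> rcases hm with h1 | h1
    · rw [h] at h1; exact h1
    · exact hstep f hf (G.snd f) z h1 hz (Or.inr ⟨h, rfl⟩)
    · exact hstep f hf (G.fst f) z h1 hz (Or.inl ⟨rfl, h⟩)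
    · rw [h] at h1; exact h1
  have h0 : J.filter (fun f => G.Meets S f) = J := by
    apply hmin _ (Finset.filter_subset _ _)
    intro z hz
    by_cases hzS : z ∈ S
    · rw [G.flink_deg_eq, hJ z hz]
      intro f _ hfz
      rcases hfz with h | h
      · exact Or.inl (h ▸ hzS)
      · exact Or.inr (h ▸ hzS)
    · have h1 : G.deg (J.filter fun f => G.Meets S f) z = 0 := by
        apply G.flink_deg_zero
        intro f hf hfz
        rw [Finset.mem_filter] at hf
        exact hinc f hf.1 z hz hzS hfz hf.2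
      rw [h1]
      simp only [Even.zero, ne_eq, true_iff]
      intro h2
      exact hzS (h2 ▸ huS)
  by_cases hαS : α ∈ S
  · exact ((hmem α).1 hαS).2
  · exfalso
    obtain ⟨f, hf, hfα⟩ := (G.deg_pos_iff J α).1 hpos
    have h2 : f ∈ J.filter fun f => G.Meets S f := by rw [h0]; exact hf
    exact hinc f hf α hα hαS hfα (Finset.mem_filter.1 h2).2

/-- the joining set contains no edge of the cut -/
theorem flink_inside [Fintype V] [Fintype E] {X : Finset V} {J K : Finset E} {u α : V} {i : E}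
    (hα : α ∈ X) (hJ : G.FOdd X J u) (hm : G.FMeet X J) (ht : J ∩ G.cut X ⊆ {i}) (hK : K ⊆ J)
    (hc : G.FLconn X K u α) : K ⊆ G.inside X := by
  have h1 : G.FOdd X (symmDiff J K) α := by
    intro z hz
    rw [even_deg_symmDiff, hJ z hz, hc z hz]
    tauto
  have h2 := G.fodd_trace hα h1
  have h3 : i ∉ K := by
    intro hi
    have h4 : (symmDiff J K ∩ G.cut X).Nonempty := by
      rw [← Finset.card_pos]
      exact h2.pos
    obtain ⟨f, hf⟩ := h4
    rw [Finset.mem_inter, Finset.mem_symmDiff] at hf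
    rcases hf with ⟨⟨h5, h6⟩ | ⟨h5, h6⟩, h7⟩
    · have h8 : f ∈ ({i} : Finset E) := ht (Finset.mem_inter.2 ⟨h5, h7⟩)
      rw [Finset.mem_singleton] at h8
      rw [h8] at h6
      exact h6 hi
    · exact h6 (hK h5)
  intro f hf
  have h4 : f ∉ G.cut X := by
    intro h5
    have h8 : f ∈ ({i} : Finset E) := ht (Finset.mem_inter.2 ⟨hK hf, h5⟩)
    rw [Finset.mem_singleton] at h8
    rw [h8] at hf
    exact h3 hf
  have h5 := Inner.notMem_cut G h4
  have h6 := hm f (hK hf)
  unfold inside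
  rw [Finset.mem_filter]
  refine ⟨Finset.mem_univ _, ?_⟩
  unfold Meets at h6
  tauto

/-- the main claim: some vertex of `VB` is reached from `VA` by the other edges -/
theorem flink_reach [Fintype V] [Fintype E] (hG : G.IsSmallestCounterexample) {X : Finset V}
    (hX : G.IsCyclicFourCut X) {e : E} {u v : V} (hu : u ∈ X) (hv : v ∈ X) {A B : Finset E}
    (hA : 0 < G.deg A u) (hB : 0 < G.deg B v) :
    ∃ α ∈ X, ∃ β ∈ X, 0 < G.deg A α ∧ 0 < G.deg B β ∧
      ∃ R ⊆ (G.inside X).filter (fun f => f ≠ e ∧ f ∉ A ∧ f ∉ B), G.FLconn X R α β := by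
  set O : Finset E := (G.inside X).filter (fun f => f ≠ e ∧ f ∉ A ∧ f ∉ B) with hO
  set W : Finset V := X.filter fun w => ∃ α ∈ X, 0 < G.deg A α ∧ ∃ R ⊆ O, G.FLconn X R α w with hW
  have hmem : ∀ w, w ∈ W ↔ w ∈ X ∧ ∃ α ∈ X, 0 < G.deg A α ∧ ∃ R ⊆ O, G.FLconn X R α w := by
    intro w
    rw [hW, Finset.mem_filter]
  by_contra hno
  have hVA : ∀ w ∈ X, 0 < G.deg A w → w ∈ W := by
    intro w hw hp
    exact (hmem w).2 ⟨hw, w, hw, hp, ∅, Finset.empty_subset _, G.flconn_empty X w⟩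
  have hVB : ∀ w ∈ X, 0 < G.deg B w → w ∉ W := by
    intro w hw hp hwW
    obtain ⟨-, α, hα, hpα, R, hR, hc⟩ := (hmem w).1 hwW
    exact hno ⟨α, hα, w, hw, hpα, hp, R, hR, hc⟩
  have hstep : ∀ f ∈ O, ∀ x y, x ∈ W → y ∈ X → G.FEnds f x y → y ∈ W := by
    intro f hf x y hx hy hxy
    obtain ⟨-, α, hα, hpα, R, hR, hc⟩ := (hmem x).1 hx
    exact (hmem y).2 ⟨hy, α, hα, hpα, G.flconn_step hR hf hc hxy⟩
  have hcross : ∀ f, f ≠ e → G.fst f ∈ X → G.snd f ∈ X → (G.fst f ∈ W ↔ G.snd f ∈ W) := by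
    intro f hfe h1 h2
    by_cases hfA : f ∈ A
    · exact iff_of_true (hVA _ h1 ((G.deg_pos_iff A _).2 ⟨f, hfA, Or.inl rfl⟩))
        (hVA _ h2 ((G.deg_pos_iff A _).2 ⟨f, hfA, Or.inr rfl⟩))
    · by_cases hfB : f ∈ B
      · exact iff_of_false (hVB _ h1 ((G.deg_pos_iff B _).2 ⟨f, hfB, Or.inl rfl⟩))
          (hVB _ h2 ((G.deg_pos_iff B _).2 ⟨f, hfB, Or.inr rfl⟩))
      · have hfO : f ∈ O := by
          rw [hO, Finset.mem_filter]
          unfold inside
          rw [Finset.mem_filter]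
          exact ⟨⟨Finset.mem_univ _, h1, h2⟩, hfe, hfA, hfB⟩
        constructor
        · intro h
          exact hstep f hfO _ _ h h2 (Or.inl ⟨rfl, rfl⟩)
        · intro h
          exact hstep f hfO _ _ h h1 (Or.inr ⟨rfl, rfl⟩)
  have hWX : W ⊆ X := Finset.filter_subset _ _
  have hWX' : ∀ z, z ∈ W → z ∈ X := fun z hz => hWX hz
  have huW : u ∈ W := hVA u hu hA
  have hvW : v ∉ W := hVB v hv hB
  have hs1 : (G.cut W).erase e ⊆ G.cut X := by
    intro f hf
    rw [Finset.mem_erase] at hf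
    by_contra h1
    have h2 := Inner.notMem_cut G h1
    have h3 := hcross f hf.1
    have h4 := hf.2
    rw [Inner.mem_cut G] at h4
    have h5 := hWX' (G.fst f)
    have h6 := hWX' (G.snd f)
    tauto
  have hs2 : (G.cut (X \ W)).erase e ⊆ G.cut X := by
    intro f hf
    rw [Finset.mem_erase] at hf
    by_contra h1
    have h2 := Inner.notMem_cut G h1
    have h3 := hcross f hf.1
    have h4 := hf.2
    rw [Inner.mem_cut G, Finset.mem_sdiff, Finset.mem_sdiff] at h4
    tauto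
  have hdis : Disjoint ((G.cut W).erase e) ((G.cut (X \ W)).erase e) := by
    rw [Finset.disjoint_left]
    intro f h1 h2
    have h3 := hs1 h1
    rw [Finset.mem_erase] at h1 h2
    obtain ⟨h10, h11⟩ := h1
    obtain ⟨h20, h21⟩ := h2
    rw [Inner.mem_cut G] at h11 h21 h3
    rw [Finset.mem_sdiff, Finset.mem_sdiff] at h21
    have h4 := hWX' (G.fst f)
    have h5 := hWX' (G.snd f)
    tauto
  have h1 := G.three_le_card_cut hG W ⟨u, huW⟩ (by
    intro h
    apply hvW
    rw [h]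
    exact Finset.mem_univ _)
  have h2 := G.three_le_card_cut hG (X \ W) ⟨v, Finset.mem_sdiff.2 ⟨hv, hvW⟩⟩ (by
    intro h
    have h3 : u ∈ X \ W := by
      rw [h]
      exact Finset.mem_univ _
    exact (Finset.mem_sdiff.1 h3).2 huW)
  have h3 := Finset.card_le_card (Finset.union_subset hs1 hs2)
  rw [Finset.card_union_of_disjoint hdis, hX.2.2.1] at h3
  have h4 := Finset.pred_card_le_card_erase (s := G.cut W) (a := e)
  have h5 := Finset.pred_card_le_card_erase (s := G.cut (X \ W)) (a := e)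
  obtain ⟨h6, h7⟩ := G.fsides hG hX
  have hXc : Xᶜ ⊆ Wᶜ := by
    intro z hz
    rw [Finset.mem_compl] at hz ⊢
    exact fun h => hz (hWX h)
  have hXc' : Xᶜ ⊆ (X \ W)ᶜ := by
    intro z hz
    rw [Finset.mem_compl] at hz ⊢
    exact fun h => hz (Finset.mem_sdiff.1 h).1
  have h8 := Finset.card_le_card hXc
  have h9 := Finset.card_le_card hXc'
  have h10 := G.card_cut_eq_three hG W (by omega)
  have h11 := G.card_cut_eq_three hG (X \ W) (by omega)
  have h12 := Finset.card_sdiff_add_card_eq_card hWX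
  omega

theorem flink [Fintype V] [Fintype E] (hG : G.IsSmallestCounterexample) {X : Finset V}
    (hX : G.IsCyclicFourCut X) {e : E} {u v : V} (hu : u ∈ X) (hv : v ∈ X) (he : G.FEnds e u v)
    {A1 A2 B1 B2 : Finset E} {i j k l : E} (hS : G.FSys X e u v A1 A2 B1 B2 i j k l) :
    ∃ A' B' P : Finset E, (A' ⊆ A1 ∨ A' ⊆ A2) ∧ (B' ⊆ B1 ∨ B' ⊆ B2) ∧ G.FOdd X A' u ∧
      G.FOdd X B' v ∧ P ⊆ G.inside X ∧ e ∉ P ∧ G.FJoin X P u v ∧ Disjoint P A' ∧
      Disjoint P B' := by
  have huv : u ≠ v := by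
    have h1 := G.no_loop hG e
    rcases he with ⟨h2, h3⟩ | ⟨h2, h3⟩
    · rw [h2, h3] at h1
      exact h1
    · rw [h2, h3] at h1
      exact h1.symm
  obtain ⟨C1, hC1, oC1, mC1⟩ := G.flink_min hS.oA1
  obtain ⟨C2, hC2, oC2, mC2⟩ := G.flink_min hS.oA2
  obtain ⟨D1, hD1, oD1, mD1⟩ := G.flink_min hS.oB1
  obtain ⟨D2, hD2, oD2, mD2⟩ := G.flink_min hS.oB2
  have hpos : ∀ (J : Finset E) (w : V), w ∈ X → G.FOdd X J w → 0 < G.deg J w := by
    intro J w hw h
    rcases Nat.eq_zero_or_pos (G.deg J w) with h1 | h1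
    · have h2 := h w hw
      rw [h1] at h2
      simp at h2
    · exact h1
  obtain ⟨α, hα, β, hβ, hpα, hpβ, R, hR, hcR⟩ := G.flink_reach hG hX (e := e) hu hv
    (A := C1 ∪ C2) (B := D1 ∪ D2)
    (lt_of_lt_of_le (hpos C1 u hu oC1) (G.deg_mono Finset.subset_union_left u))
    (lt_of_lt_of_le (hpos D1 v hv oD1) (G.deg_mono Finset.subset_union_left v))
  have hRm : ∀ f ∈ R, f ∈ G.inside X ∧ f ≠ e ∧ f ∉ C1 ∧ f ∉ C2 ∧ f ∉ D1 ∧ f ∉ D2 := by
    intro f hf
    have h1 := hR hf
    rw [Finset.mem_filter, Finset.mem_union, Finset.mem_union, not_or, not_or] at h1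
    tauto
  -- the halves
  have halfA : ∃ C A' : Finset E, (A' ⊆ A1 ∨ A' ⊆ A2) ∧ G.FOdd X A' u ∧ (C ⊆ G.inside X) ∧
      G.FLconn X C u α ∧ e ∉ C ∧ Disjoint C A' ∧ Disjoint R A' ∧ (C ⊆ A1 ∪ A2) ∧
      (A' ⊆ A1 ∪ A2) := by
    obtain ⟨f, hf, hfα⟩ := (G.deg_pos_iff _ _).1 hpα
    rcases Finset.mem_union.1 hf with hf | hf
    · obtain ⟨C, hC, hcC⟩ := G.flink_conn hu oC1 mC1 hα ((G.deg_pos_iff _ _).2 ⟨f, hf, hfα⟩)
      refine ⟨C, C2, Or.inr hC2, oC2, ?_, hcC, fun h => hS.eA1 (hC1 (hC h)), ?_, ?_, ?_, ?_⟩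
      · refine G.flink_inside hα hS.oA1 hS.mA1 hS.tA1.le (hC.trans hC1) hcC
      · exact Finset.disjoint_of_subset_left (hC.trans hC1)
          (Finset.disjoint_of_subset_right hC2 hS.dAA)
      · rw [Finset.disjoint_left]
        exact fun g hg => (hRm g hg).2.2.2.1
      · exact (hC.trans hC1).trans Finset.subset_union_left
      · exact hC2.trans Finset.subset_union_right
    · obtain ⟨C, hC, hcC⟩ := G.flink_conn hu oC2 mC2 hα ((G.deg_pos_iff _ _).2 ⟨f, hf, hfα⟩)
      refine ⟨C, C1, Or.inl hC1, oC1, ?_, hcC, fun h => hS.eA2 (hC2 (hC h)), ?_, ?_, ?_, ?_⟩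
      · refine G.flink_inside hα hS.oA2 hS.mA2 hS.tA2.le (hC.trans hC2) hcC
      · exact Finset.disjoint_of_subset_left (hC.trans hC2)
          (Finset.disjoint_of_subset_right hC1 hS.dAA.symm)
      · rw [Finset.disjoint_left]
        exact fun g hg => (hRm g hg).2.2.1
      · exact (hC.trans hC2).trans Finset.subset_union_right
      · exact hC1.trans Finset.subset_union_left
  have halfB : ∃ D B' : Finset E, (B' ⊆ B1 ∨ B' ⊆ B2) ∧ G.FOdd X B' v ∧ (D ⊆ G.inside X) ∧
      G.FLconn X D v β ∧ e ∉ D ∧ Disjoint D B' ∧ Disjoint R B' ∧ (D ⊆ B1 ∪ B2) ∧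
      (B' ⊆ B1 ∪ B2) := by
    obtain ⟨f, hf, hfβ⟩ := (G.deg_pos_iff _ _).1 hpβ
    rcases Finset.mem_union.1 hf with hf | hf
    · obtain ⟨D, hD, hcD⟩ := G.flink_conn hv oD1 mD1 hβ ((G.deg_pos_iff _ _).2 ⟨f, hf, hfβ⟩)
      refine ⟨D, D2, Or.inr hD2, oD2, ?_, hcD, fun h => hS.eB1 (hD1 (hD h)), ?_, ?_, ?_, ?_⟩
      · refine G.flink_inside hβ hS.oB1 hS.mB1 hS.tB1.le (hD.trans hD1) hcD
      · exact Finset.disjoint_of_subset_left (hD.trans hD1)
          (Finset.disjoint_of_subset_right hD2 hS.dBB)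
      · rw [Finset.disjoint_left]
        exact fun g hg => (hRm g hg).2.2.2.2.2
      · exact (hD.trans hD1).trans Finset.subset_union_left
      · exact hD2.trans Finset.subset_union_right
    · obtain ⟨D, hD, hcD⟩ := G.flink_conn hv oD2 mD2 hβ ((G.deg_pos_iff _ _).2 ⟨f, hf, hfβ⟩)
      refine ⟨D, D1, Or.inl hD1, oD1, ?_, hcD, fun h => hS.eB2 (hD2 (hD h)), ?_, ?_, ?_, ?_⟩
      · refine G.flink_inside hβ hS.oB2 hS.mB2 hS.tB2.le (hD.trans hD2) hcD
      · exact Finset.disjoint_of_subset_left (hD.trans hD2)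
          (Finset.disjoint_of_subset_right hD1 hS.dBB.symm)
      · rw [Finset.disjoint_left]
        exact fun g hg => (hRm g hg).2.2.2.2.1
      · exact (hD.trans hD2).trans Finset.subset_union_right
      · exact hD1.trans Finset.subset_union_left
  obtain ⟨C, A', hA', oA', iC, cC, eC, dCA, dRA, sC, sA'⟩ := halfA
  obtain ⟨D, B', hB', oB', iD, cD, eD, dDB, dRB, sD, sB'⟩ := halfB
  have hAB : Disjoint (A1 ∪ A2) (B1 ∪ B2) := by
    rw [Finset.disjoint_union_left, Finset.disjoint_union_right, Finset.disjoint_union_right]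
    exact ⟨⟨hS.dA1B1, hS.dA1B2⟩, hS.dA2B1, hS.dA2B2⟩
  have hP : ∀ f ∈ symmDiff (symmDiff C R) D, f ∈ C ∨ f ∈ R ∨ f ∈ D := by
    intro f hf
    rw [Finset.mem_symmDiff, Finset.mem_symmDiff] at hf
    tauto
  refine ⟨A', B', symmDiff (symmDiff C R) D, hA', hB', oA', oB', ?_, ?_, ?_, ?_, ?_⟩
  · intro f hf
    rcases hP f hf with h | h | h
    · exact iC h
    · exact (hRm f h).1
    · exact iD h
  · intro hf
    rcases hP e hf with h | h | h
    · exact eC h
    · exact (hRm e h).2.1 rfl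
    · exact eD h
  · intro z hz
    have h1 := G.flconn_trans (G.flconn_trans cC hcR) (G.flconn_symm cD) z hz
    rw [h1]
    constructor
    · intro h
      refine ⟨fun h2 => ?_, fun h2 => ?_⟩
      · exact huv (h2.symm.trans (h.1 h2))
      · exact huv ((h.2 h2).symm.trans h2)
    · rintro ⟨h2, h3⟩
      exact iff_of_false h2 h3
  · rw [Finset.disjoint_left]
    intro f hf hfA
    rcases hP f hf with h | h | h
    · exact Finset.disjoint_left.1 dCA h hfA
    · exact Finset.disjoint_left.1 dRA h hfA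
    · exact Finset.disjoint_left.1 hAB (sA' hfA) (sD h)
  · rw [Finset.disjoint_left]
    intro f hf hfB
    rcases hP f hf with h | h | h
    · exact Finset.disjoint_left.1 hAB (sC h) (sB' hfB)
    · exact Finset.disjoint_left.1 dRB h hfB
    · exact Finset.disjoint_left.1 dDB h hfB

end MGraph
end CDCut
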