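import Pool.Agent.CDFlow.Menger

/-!
# Module `Special`: an inner edge joining two ends of cut edges

**Statement.**  Let `δ(X) = {a, b, c, d}`, `e` an edge with ends `u, v ∈ X`, `a` incident with `u`,
`b` incident with `v`, and suppose that `X` has no cover of type `{δ(X), δ(X)}`.  Then there are two
sets `C`, `C'` of edges meeting `X`, even on `X`, with `C ∩ C' = {e}`, whose traces are `δ(X), ∅` or
`{a, d}, {b, c}`.

**Proof.**  The graph is cubic (`card_cut_vertex`, `no_loop`), so `u` has exactly one more edge `x`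
and `v` exactly one more edge `y` (`x ≠ y`, otherwise `δ({u, v}) = {a, b}` has less than 3 edges).
`x, y ∉ {c, d}`: otherwise e.g. `u` is incident with two edges of `δ(X)` and `δ(X \ {u})` has 3 edges,
so `|X| ≤ 2` (`card_cut_eq_three`, `fsides`).  So `x`, `y` are inside `X`.  Let `X' = X \ {u, v}`;
`δ(X') = {x, y, c, d}`.  Use `menger_map` with `k = 2`, `A` = the edges meeting `X'` and a graph in
which `x` and `d` start from `s` and `y` and `c` start from `t`: e.g. first change the graph to
`G' = (fst', snd')` with the outer ends (the ends not in `X'`) of `x` and `d` replaced by `s = u`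
and the outer ends of `y` and `c` replaced by `t = v` (then use `menger` for `G'`; the degrees at
the vertices of `X'` and the cuts of subsets of `X'` do not change).
Cut condition: let `Z` contain `s`, not `t`, and `Z0 = Z ∩ X'`.  If `Z0 = ∅` the edges `x, d` are in
the cut, if `Z0 = X'` the edges `y, c`.  Otherwise let `m` be the number of edges between `Z0` and
`X' \ Z0`, `α` the number of edges among `x, d` with end in `Z0`, `β` the number among `y, c` with
end in `Z0`.  The cut has `m + (2 - α) + β` edges of `A`; `|δ(Z0)| = m + α + β ≥ 3` and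
`|δ(X' \ Z0)| = m + 4 - α - β ≥ 3`.  If `m + 2 - α + β ≤ 1`, then `m = 1` (`m = 0` is impossible as
`α + β` would be at least 3 and at most 1), `α = 2`, `β = 0`, both cuts have 3 edges, so
`Z0 = {w1}`, `X' \ Z0 = {w2}` (`card_cut_eq_three`), and `X = {u, v, w1, w2}`, `u v` joined by `e`,
`w1 w2` joined by the edge between them; `four_circuit_types` gives the cover type
`{δ(X), δ(X)}`, a contradiction.
So there are disjoint `J, J' ⊆ A`, even on `X'`, each with odd degree at `s` and `t` in `G'`, so each
contains exactly one of `x, d` and exactly one of `y, c`.  Say `x ∈ J`, `d ∈ J'`.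
If `y ∈ J`, `c ∈ J'`: `C = {a, b, e} ∪ J'`, `C' = {e} ∪ J` (traces `{a, b, c, d}` and `∅`).
If `c ∈ J`, `y ∈ J'`: `C = {a, e} ∪ J'` (trace `{a, d}`), `C' = {e, b} ∪ J` (trace `{b, c}`).
-/

open scoped Classical

namespace CDCut
namespace MGraph

variable {V E : Type} (G : MGraph V E)

/-- at most one edge of the cut `δ(X)` is incident with a given vertex of `X` -/
theorem Special_one [Fintype V] [Fintype E] (hG : G.IsSmallestCounterexample) {X : Finset V}
    (hX : G.IsCyclicFourCut X) {w : V} (hw : w ∈ X) : (G.cut {w} ∩ G.cut X).card ≤ 1 := by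
  obtain ⟨h3, h3'⟩ := G.fsides hG hX
  have h4 := hX.2.2.1
  have hv := G.card_cut_vertex hG w
  have h1 : G.cut (X.erase w) = symmDiff (G.cut {w}) (G.cut X) := by
    ext f
    have a1 := G.no_loop hG f
    have a2 : G.fst f = w → G.fst f ∈ X := fun h => by rw [h]; exact hw
    have a3 : G.snd f = w → G.snd f ∈ X := fun h => by rw [h]; exact hw
    have a4 : G.fst f = w → G.snd f ≠ w := fun h h' => a1 (h.trans h'.symm)
    simp only [cut, Finset.mem_filter, Finset.mem_univ, true_and, Finset.mem_symmDiff,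
      Finset.mem_erase, Finset.mem_singleton, ne_eq]
    tauto
  have h2 := card_symmDiff_add (G.cut {w}) (G.cut X)
  rw [← h1, hv, h4] at h2
  by_contra hcon
  have h5 := Finset.card_erase_of_mem hw
  have h6 : 2 ≤ ((X.erase w)ᶜ).card := by
    have : Xᶜ ⊆ (X.erase w)ᶜ := Finset.compl_subset_compl.2 (Finset.erase_subset _ _)
    have := Finset.card_le_card this
    omega
  have h7 := G.four_le_card_cut hG (X.erase w) (by omega) h6
  omega

/-- the ends of an edge of the cut -/
theorem Special_ends [Fintype E] {X : Finset V} {f : E} (hf : f ∈ G.cut X) :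
    ∃ p q, p ∈ X ∧ q ∉ X ∧ G.FEnds f p q := by
  simp only [cut, Finset.mem_filter, Finset.mem_univ, true_and] at hf
  rcases hf with ⟨h1, h2⟩ | ⟨h1, h2⟩
  · exact ⟨_, _, h1, h2, Or.inl ⟨rfl, rfl⟩⟩
  · exact ⟨_, _, h2, h1, Or.inr ⟨rfl, rfl⟩⟩

theorem Special_mem_cut [Fintype E] {X : Finset V} {f : E} {p q : V} (h : G.FEnds f p q)
    (hp : p ∈ X) (hq : q ∉ X) : f ∈ G.cut X := by
  simp only [cut, Finset.mem_filter, Finset.mem_univ, true_and]
  rcases h with ⟨h1, h2⟩ | ⟨h1, h2⟩
  · rw [h1, h2]; exact Or.inl ⟨hp, hq⟩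
  · rw [h1, h2]; exact Or.inr ⟨hq, hp⟩

theorem Special_deg_zero {S : Finset E} {z : V} (h : ∀ f ∈ S, ¬ G.Inc f z) : G.deg S z = 0 := by
  by_contra h1
  obtain ⟨f, hf, hf'⟩ := (G.deg_pos_iff S z).1 (Nat.pos_of_ne_zero h1)
  exact h f hf hf'

theorem Special_inc {f : E} {p q z : V} (h : G.FEnds f p q) : G.Inc f z ↔ (z = p ∨ z = q) := by
  unfold Inc
  rcases h with ⟨h1, h2⟩ | ⟨h1, h2⟩
  · rw [h1, h2]; constructor <;> (rintro (h | h) <;> simp [h])
  · rw [h1, h2]; constructor <;> (rintro (h | h) <;> simp [h])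

theorem Special_odd_pair {J : Finset E} {p q : E} (hpq : p ≠ q) (h : Odd (J ∩ {p, q}).card) :
    (p ∈ J ∧ q ∉ J) ∨ (p ∉ J ∧ q ∈ J) := by
  by_cases h1 : p ∈ J <;> by_cases h2 : q ∈ J
  · exfalso
    have h3 : J ∩ {p, q} = {p, q} := by
      rw [Finset.inter_eq_right]
      intro z hz
      rcases Finset.mem_insert.1 hz with rfl | hz
      · exact h1
      · rw [Finset.mem_singleton] at hz; subst hz; exact h2
    rw [h3, Finset.card_pair hpq] at h
    exact absurd h (by decide)
  · exact Or.inl ⟨h1, h2⟩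
  · exact Or.inr ⟨h1, h2⟩
  · exfalso
    have h3 : J ∩ {p, q} = ∅ := by
      rw [Finset.eq_empty_iff_forall_notMem]
      intro z hz
      rw [Finset.mem_inter, Finset.mem_insert, Finset.mem_singleton] at hz
      rcases hz with ⟨hz, rfl | rfl⟩
      · exact h1 hz
      · exact h2 hz
    rw [h3, Finset.card_empty] at h
    exact absurd h (by decide)

/-- two disjoint sets of edges leading from `{x, d}` to `{y, c}` -/
theorem Special_pair [Fintype V] [Fintype E] {X' : Finset V} {x y c d : E} {u v : V}
    (hnd : [x, y, c, d].Nodup) (hcut : G.cut X' = {x, y, c, d}) (huv : u ≠ v) (hu : u ∉ X')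
    (hv : v ∉ X')
    (h4 : ∀ Z ⊆ X', Z.Nonempty → (X' \ Z).Nonempty →
      4 ≤ (G.cut Z).card ∨ 4 ≤ (G.cut (X' \ Z)).card) :
    ∃ J J' : Finset E, (∀ f ∈ J, G.Meets X' f) ∧ (∀ f ∈ J', G.Meets X' f) ∧ Disjoint J J' ∧
      (∀ z ∈ X', Even (G.deg J z)) ∧ (∀ z ∈ X', Even (G.deg J' z)) ∧
      x ∈ J ∧ d ∉ J ∧ x ∉ J' ∧ d ∈ J' ∧
      ((y ∈ J ∧ c ∉ J ∧ y ∉ J' ∧ c ∈ J') ∨ (y ∉ J ∧ c ∈ J ∧ y ∈ J' ∧ c ∉ J')) := by
  simp only [List.nodup_cons, List.mem_cons, List.not_mem_nil, or_false, not_or,
    List.nodup_nil, and_true, not_false_eq_true] at hnd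
  obtain ⟨⟨hxy, hxc, hxd⟩, ⟨hyc, hyd⟩, hcd⟩ := hnd
  set ρ : E → V := fun f => if f = x ∨ f = d then u else v with hρ
  set G' : MGraph V E := ⟨fun f => if G.fst f ∈ X' then G.fst f else ρ f,
    fun f => if G.snd f ∈ X' then G.snd f else ρ f⟩ with hG'
  set A : Finset E := Finset.univ.filter fun f => G.Meets X' f with hA
  have hmA : ∀ f, f ∈ A ↔ G.Meets X' f := by
    intro f
    rw [hA, Finset.mem_filter]
    exact ⟨fun h => h.2, fun h => ⟨Finset.mem_univ _, h⟩⟩
  have hmc : ∀ f, f ∈ G.cut X' ↔ (f = x ∨ f = y ∨ f = c ∨ f = d) := by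
    intro f
    rw [hcut]
    simp only [Finset.mem_insert, Finset.mem_singleton]
  have k1 : ∀ f p q, G.FEnds f p q → p ∈ X' → q ∈ X' → G'.FEnds f p q := by
    intro f p q h hp hq
    rcases h with ⟨h1, h2⟩ | ⟨h1, h2⟩
    · refine Or.inl ⟨?_, ?_⟩
      · show (if G.fst f ∈ X' then G.fst f else ρ f) = p
        rw [h1, if_pos hp]
      · show (if G.snd f ∈ X' then G.snd f else ρ f) = q
        rw [h2, if_pos hq]
    · refine Or.inr ⟨?_, ?_⟩
      · show (if G.fst f ∈ X' then G.fst f else ρ f) = q
        rw [h1, if_pos hq]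
      · show (if G.snd f ∈ X' then G.snd f else ρ f) = p
        rw [h2, if_pos hp]
  have k2 : ∀ f p q, G.FEnds f p q → p ∈ X' → q ∉ X' → G'.FEnds f p (ρ f) := by
    intro f p q h hp hq
    rcases h with ⟨h1, h2⟩ | ⟨h1, h2⟩
    · refine Or.inl ⟨?_, ?_⟩
      · show (if G.fst f ∈ X' then G.fst f else ρ f) = p
        rw [h1, if_pos hp]
      · show (if G.snd f ∈ X' then G.snd f else ρ f) = ρ f
        rw [h2, if_neg hq]
    · refine Or.inr ⟨?_, ?_⟩
      · show (if G.fst f ∈ X' then G.fst f else ρ f) = ρ f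
        rw [h1, if_neg hq]
      · show (if G.snd f ∈ X' then G.snd f else ρ f) = p
        rw [h2, if_pos hp]
  have hρ1 : ∀ f, (f = x ∨ f = d) → ρ f = u := by
    intro f hf
    simp only [hρ, if_pos hf]
  have hρ2 : ∀ f, ¬ (f = x ∨ f = d) → ρ f = v := by
    intro f hf
    simp only [hρ, if_neg hf]
  -- the cut condition
  have hcond : ∀ Z : Finset V, u ∈ Z → v ∉ Z → 2 ≤ (A ∩ G'.cut Z).card := by
    intro Z huZ hvZ
    have c1 : G.cut (X' ∩ Z) ⊆ (A ∩ G'.cut Z) ∪ {x, d} := by
      intro f hf
      obtain ⟨p, q, hp, hq, hpq⟩ := G.Special_ends hf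
      rw [Finset.mem_inter] at hp
      rw [Finset.mem_union]
      by_cases hfx : f = x ∨ f = d
      · right
        simpa using hfx
      · left
        have hfA : f ∈ A := by
          rw [hmA]
          rcases hpq with ⟨h1, h2⟩ | ⟨h1, h2⟩
          · exact Or.inl (by rw [h1]; exact hp.1)
          · exact Or.inr (by rw [h2]; exact hp.1)
        rw [Finset.mem_inter]
        refine ⟨hfA, ?_⟩
        by_cases hqX : q ∈ X'
        · have hqZ : q ∉ Z := fun h => hq (Finset.mem_inter.2 ⟨hqX, h⟩)
          exact G'.Special_mem_cut (k1 f p q hpq hp.1 hqX) hp.2 hqZ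
        · have h5 := k2 f p q hpq hp.1 hqX
          rw [hρ2 f hfx] at h5
          exact G'.Special_mem_cut h5 hp.2 hvZ
    have c2 : G.cut (X' \ Z) ⊆ (A ∩ G'.cut Z) ∪ {y, c} := by
      intro f hf
      obtain ⟨p, q, hp, hq, hpq⟩ := G.Special_ends hf
      rw [Finset.mem_sdiff] at hp
      rw [Finset.mem_union]
      by_cases hfx : f = y ∨ f = c
      · right
        simpa using hfx
      · left
        have hfA : f ∈ A := by
          rw [hmA]
          rcases hpq with ⟨h1, h2⟩ | ⟨h1, h2⟩
          · exact Or.inl (by rw [h1]; exact hp.1)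
          · exact Or.inr (by rw [h2]; exact hp.1)
        rw [Finset.mem_inter]
        refine ⟨hfA, ?_⟩
        by_cases hqX : q ∈ X'
        · have hqZ : q ∈ Z := by
            by_contra h
            exact hq (Finset.mem_sdiff.2 ⟨hqX, h⟩)
          have h5 := k1 f p q hpq hp.1 hqX
          refine G'.Special_mem_cut (p := q) (q := p) ?_ hqZ hp.2
          rcases h5 with h5 | h5
          · exact Or.inr h5
          · exact Or.inl h5
        · have h5 := k2 f p q hpq hp.1 hqX
          have h6 : f = x ∨ f = d := by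
            rcases (hmc f).1 (G.Special_mem_cut hpq hp.1 hqX) with h | h | h | h
            · exact Or.inl h
            · exact absurd (Or.inl h) hfx
            · exact absurd (Or.inr h) hfx
            · exact Or.inr h
          rw [hρ1 f h6] at h5
          refine G'.Special_mem_cut (p := u) (q := p) ?_ huZ hp.2
          rcases h5 with h5 | h5
          · exact Or.inr h5
          · exact Or.inl h5
    have c3 := Finset.card_le_card c1
    have c4 := Finset.card_le_card c2
    have c5 := Finset.card_union_le (A ∩ G'.cut Z) {x, d}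
    have c6 := Finset.card_union_le (A ∩ G'.cut Z) {y, c}
    rw [Finset.card_pair hxd] at c5
    rw [Finset.card_pair hyc] at c6
    by_cases e1 : (X' ∩ Z).Nonempty
    · by_cases e2 : (X' \ Z).Nonempty
      · have e3 : X' \ (X' ∩ Z) = X' \ Z := by
          ext z
          simp only [Finset.mem_sdiff, Finset.mem_inter]
          tauto
        have e4 := h4 (X' ∩ Z) Finset.inter_subset_left e1 (by rw [e3]; exact e2)
        rw [e3] at e4
        omega
      · -- all of X' is in Z
        have e3 : ∀ z ∈ X', z ∈ Z := by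
          intro z hz
          by_contra h
          exact e2 ⟨z, Finset.mem_sdiff.2 ⟨hz, h⟩⟩
        have e4 : ({y, c} : Finset E) ⊆ A ∩ G'.cut Z := by
          intro f hf
          have hf1 : f = y ∨ f = c := by simpa using hf
          have hf2 : ¬ (f = x ∨ f = d) := by
            rcases hf1 with rfl | rfl
            · rintro (h | h)
              · exact hxy h.symm
              · exact hyd h
            · rintro (h | h)
              · exact hxc h.symm
              · exact hcd h
          have hf3 : f ∈ G.cut X' := by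
            rw [hmc]
            rcases hf1 with h | h
            · exact Or.inr (Or.inl h)
            · exact Or.inr (Or.inr (Or.inl h))
          obtain ⟨p, q, hp, hq, hpq⟩ := G.Special_ends hf3
          have h5 := k2 f p q hpq hp hq
          rw [hρ2 f hf2] at h5
          rw [Finset.mem_inter]
          refine ⟨?_, G'.Special_mem_cut h5 (e3 p hp) hvZ⟩
          rw [hmA]
          rcases hpq with ⟨h1, h2⟩ | ⟨h1, h2⟩
          · exact Or.inl (by rw [h1]; exact hp)
          · exact Or.inr (by rw [h2]; exact hp)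
        have := Finset.card_le_card e4
        rw [Finset.card_pair hyc] at this
        exact this
    · have e3 : ∀ z ∈ X', z ∉ Z := by
        intro z hz h
        exact e1 ⟨z, Finset.mem_inter.2 ⟨hz, h⟩⟩
      have e4 : ({x, d} : Finset E) ⊆ A ∩ G'.cut Z := by
        intro f hf
        have hf1 : f = x ∨ f = d := by simpa using hf
        have hf3 : f ∈ G.cut X' := by
          rw [hmc]
          rcases hf1 with h | h
          · exact Or.inl h
          · exact Or.inr (Or.inr (Or.inr h))
        obtain ⟨p, q, hp, hq, hpq⟩ := G.Special_ends hf3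
        have h5 := k2 f p q hpq hp hq
        rw [hρ1 f hf1] at h5
        rw [Finset.mem_inter]
        refine ⟨?_, G'.Special_mem_cut (p := u) (q := p) ?_ huZ (e3 p hp)⟩
        · rw [hmA]
          rcases hpq with ⟨h1, h2⟩ | ⟨h1, h2⟩
          · exact Or.inl (by rw [h1]; exact hp)
          · exact Or.inr (by rw [h2]; exact hp)
        · rcases h5 with h5 | h5
          · exact Or.inr h5
          · exact Or.inl h5
      have := Finset.card_le_card e4
      rw [Finset.card_pair hxd] at this
      exact this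
  obtain ⟨J, hJA, hJd, hJe⟩ := G'.menger A u v huv 2 hcond
  -- degrees in `X'`
  have hdeg : ∀ (B : Finset E) (z : V), z ∈ X' → G'.deg B z = G.deg B z := by
    intro B z hz
    have hzu : u ≠ z := fun h => hu (h ▸ hz)
    have hzv : v ≠ z := fun h => hv (h ▸ hz)
    have hρz : ∀ f, ρ f ≠ z := by
      intro f
      by_cases hf : f = x ∨ f = d
      · rw [hρ1 f hf]; exact hzu
      · rw [hρ2 f hf]; exact hzv
    unfold deg
    congr 1
    · congr 1
      apply Finset.filter_congr
      intro f _
      show (if G.fst f ∈ X' then G.fst f else ρ f) = z ↔ G.fst f = z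
      by_cases h : G.fst f ∈ X'
      · rw [if_pos h]
      · rw [if_neg h]
        exact ⟨fun h1 => absurd h1 (hρz f), fun h1 => absurd (h1 ▸ hz) h⟩
    · congr 1
      apply Finset.filter_congr
      intro f _
      show (if G.snd f ∈ X' then G.snd f else ρ f) = z ↔ G.snd f = z
      by_cases h : G.snd f ∈ X'
      · rw [if_pos h]
      · rw [if_neg h]
        exact ⟨fun h1 => absurd h1 (hρz f), fun h1 => absurd (h1 ▸ hz) h⟩
  -- the edges of `A` in the cuts of `u` and `v`
  have hcutA : ∀ f ∈ A, ∀ w, w ∉ X' → (f ∈ G'.cut {w} ↔ (f ∈ G.cut X' ∧ ρ f = w)) := by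
    intro f hf w hw
    rw [hmA] at hf
    obtain ⟨p, q, hp, hpq⟩ : ∃ p q, p ∈ X' ∧ G.FEnds f p q := by
      rcases hf with h | h
      · exact ⟨_, _, h, Or.inl ⟨rfl, rfl⟩⟩
      · exact ⟨_, _, h, Or.inr ⟨rfl, rfl⟩⟩
    have hpw : p ≠ w := fun h => hw (h ▸ hp)
    by_cases hq : q ∈ X'
    · have hqw : q ≠ w := fun h => hw (h ▸ hq)
      have h5 := k1 f p q hpq hp hq
      constructor
      · intro h
        exfalso
        rw [Cubic_mem_cut_singleton] at h
        rcases h5 with ⟨a1, a2⟩ | ⟨a1, a2⟩
        · rcases h with ⟨b1, _⟩ | ⟨_, b1⟩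
          · exact hpw (a1.symm.trans b1)
          · exact hqw (a2.symm.trans b1)
        · rcases h with ⟨b1, _⟩ | ⟨_, b1⟩
          · exact hqw (a1.symm.trans b1)
          · exact hpw (a2.symm.trans b1)
      · rintro ⟨h, _⟩
        exfalso
        simp only [cut, Finset.mem_filter, Finset.mem_univ, true_and] at h
        rcases hpq with ⟨a1, a2⟩ | ⟨a1, a2⟩
        · rw [a1, a2] at h
          rcases h with ⟨_, b⟩ | ⟨b, _⟩
          · exact b hq
          · exact b hp
        · rw [a1, a2] at h
          rcases h with ⟨_, b⟩ | ⟨b, _⟩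
          · exact b hp
          · exact b hq
    · have h5 := k2 f p q hpq hp hq
      have h6 := G.Special_mem_cut hpq hp hq
      rw [Cubic_mem_cut_singleton]
      rcases h5 with ⟨a1, a2⟩ | ⟨a1, a2⟩
      · rw [a1, a2]
        constructor
        · rintro (⟨b1, _⟩ | ⟨_, b1⟩)
          · exact absurd b1 hpw
          · exact ⟨h6, b1⟩
        · rintro ⟨_, b1⟩
          exact Or.inr ⟨hpw, b1⟩
      · rw [a1, a2]
        constructor
        · rintro (⟨b1, _⟩ | ⟨_, b1⟩)
          · exact ⟨h6, b1⟩
          · exact absurd b1 hpw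
        · rintro ⟨_, b1⟩
          exact Or.inl ⟨b1, hpw⟩
  have hoddu : ∀ i, Odd (J i ∩ {x, d}).card := by
    intro i
    have h1 : J i ∩ {x, d} = J i ∩ G'.cut {u} := by
      ext f
      rw [Finset.mem_inter, Finset.mem_inter]
      refine and_congr_right fun hf => ?_
      rw [hcutA f (hJA i hf) u hu, hmc, Finset.mem_insert, Finset.mem_singleton]
      constructor
      · intro h
        refine ⟨?_, hρ1 f h⟩
        rcases h with h | h
        · exact Or.inl h
        · exact Or.inr (Or.inr (Or.inr h))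
      · rintro ⟨_, h⟩
        by_contra hcon
        rw [hρ2 f hcon] at h
        exact huv h.symm
    rw [h1, ← Nat.not_even_iff_odd, G'.even_inter_cut_iff, Finset.sum_singleton, hJe i u]
    exact fun h => h.1 rfl
  have hoddv : ∀ i, Odd (J i ∩ {y, c}).card := by
    intro i
    have h1 : J i ∩ {y, c} = J i ∩ G'.cut {v} := by
      ext f
      rw [Finset.mem_inter, Finset.mem_inter]
      refine and_congr_right fun hf => ?_
      rw [hcutA f (hJA i hf) v hv, hmc, Finset.mem_insert, Finset.mem_singleton]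
      constructor
      · intro h
        refine ⟨?_, hρ2 f ?_⟩
        · rcases h with h | h
          · exact Or.inr (Or.inl h)
          · exact Or.inr (Or.inr (Or.inl h))
        · rcases h with rfl | rfl
          · rintro (h | h)
            · exact hxy h.symm
            · exact hyd h
          · rintro (h | h)
            · exact hxc h.symm
            · exact hcd h
      · rintro ⟨h, h'⟩
        rcases h with h | h | h | h
        · rw [hρ1 f (Or.inl h)] at h'
          exact absurd h' huv
        · exact Or.inl h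
        · exact Or.inr h
        · rw [hρ1 f (Or.inr h)] at h'
          exact absurd h' huv
    rw [h1, ← Nat.not_even_iff_odd, G'.even_inter_cut_iff, Finset.sum_singleton, hJe i v]
    exact fun h => h.2 rfl
  have heven : ∀ i, ∀ z ∈ X', Even (G.deg (J i) z) := by
    intro i z hz
    rw [← hdeg _ z hz, hJe i z]
    exact ⟨fun h => hu (h ▸ hz), fun h => hv (h ▸ hz)⟩
  have hmeet : ∀ i, ∀ f ∈ J i, G.Meets X' f := fun i f hf => (hmA f).1 (hJA i hf)
  have hfin : ∀ i j : Fin 2, i ≠ j → x ∈ J i → ∃ J J' : Finset E, (∀ f ∈ J, G.Meets X' f) ∧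
      (∀ f ∈ J', G.Meets X' f) ∧ Disjoint J J' ∧
      (∀ z ∈ X', Even (G.deg J z)) ∧ (∀ z ∈ X', Even (G.deg J' z)) ∧
      x ∈ J ∧ d ∉ J ∧ x ∉ J' ∧ d ∈ J' ∧
      ((y ∈ J ∧ c ∉ J ∧ y ∉ J' ∧ c ∈ J') ∨ (y ∉ J ∧ c ∈ J ∧ y ∈ J' ∧ c ∉ J')) := by
    intro i j hij hx
    have hd := hJd i j hij
    have hxj : x ∉ J j := Finset.disjoint_left.1 hd hx
    have d1 : d ∉ J i := by
      rcases Special_odd_pair hxd (hoddu i) with h | h
      · exact h.2
      · exact absurd hx h.1
    have d2 : d ∈ J j := by
      rcases Special_odd_pair hxd (hoddu j) with h | h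
      · exact absurd h.1 hxj
      · exact h.2
    refine ⟨J i, J j, hmeet i, hmeet j, hd, heven i, heven j, hx, d1, hxj, d2, ?_⟩
    rcases Special_odd_pair hyc (hoddv i) with h | h
    · left
      have hyj : y ∉ J j := Finset.disjoint_left.1 hd h.1
      refine ⟨h.1, h.2, hyj, ?_⟩
      rcases Special_odd_pair hyc (hoddv j) with h' | h'
      · exact absurd h'.1 hyj
      · exact h'.2
    · right
      have hcj : c ∉ J j := Finset.disjoint_left.1 hd h.2
      refine ⟨h.1, h.2, ?_, hcj⟩
      rcases Special_odd_pair hyc (hoddv j) with h' | h'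
      · exact h'.1
      · exact absurd h'.2 hcj
  by_cases hx0 : x ∈ J 0
  · exact hfin 0 1 (by decide) hx0
  · refine hfin 1 0 (by decide) ?_
    -- `d ∈ J 0`, so `d ∉ J 1`, so `x ∈ J 1`
    have h1 : d ∈ J 0 := by
      rcases Special_odd_pair hxd (hoddu 0) with h | h
      · exact absurd h.1 hx0
      · exact h.2
    have h2 : d ∉ J 1 := Finset.disjoint_left.1 (hJd 0 1 (by decide)) h1
    rcases Special_odd_pair hxd (hoddu 1) with h | h
    · exact h.1
    · exact absurd h.2 h2

theorem Special_ends_unique {f : E} {p q p' q' : V} (h : G.FEnds f p q) (h' : G.FEnds f p' q') :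
    (p = p' ∧ q = q') ∨ (p = q' ∧ q = p') := by
  rcases h with ⟨a1, a2⟩ | ⟨a1, a2⟩ <;> rcases h' with ⟨b1, b2⟩ | ⟨b1, b2⟩
  · exact Or.inl ⟨a1.symm.trans b1, a2.symm.trans b2⟩
  · exact Or.inr ⟨a1.symm.trans b1, a2.symm.trans b2⟩
  · exact Or.inr ⟨a2.symm.trans b2, a1.symm.trans b1⟩
  · exact Or.inl ⟨a2.symm.trans b2, a1.symm.trans b1⟩

theorem Special_ends_symm {f : E} {p q : V} (h : G.FEnds f p q) : G.FEnds f q p := by
  rcases h with h | h
  · exact Or.inr h
  · exact Or.inl h

/-- the third edge at a vertex -/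
theorem Special_third [Fintype V] [Fintype E] (hG : G.IsSmallestCounterexample) {w : V} {a e : E}
    (ha : a ∈ G.cut {w}) (he : e ∈ G.cut {w}) (hae : a ≠ e) :
    ∃ x, x ≠ a ∧ x ≠ e ∧ ∀ f, f ∈ G.cut {w} ↔ (f = a ∨ f = e ∨ f = x) := by
  have h3 := G.card_cut_vertex hG w
  have h1 : ({a, e} : Finset E) ⊆ G.cut {w} := by
    intro f hf
    rcases Finset.mem_insert.1 hf with rfl | hf
    · exact ha
    · rw [Finset.mem_singleton] at hf; subst hf; exact he
  have h2 : (G.cut {w} \ {a, e}).card = 1 := by
    rw [Finset.card_sdiff_of_subset h1, h3, Finset.card_pair hae]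
  obtain ⟨x, hx⟩ := Finset.card_eq_one.1 h2
  have h4 : x ∈ G.cut {w} \ {a, e} := by rw [hx]; exact Finset.mem_singleton_self x
  rw [Finset.mem_sdiff, Finset.mem_insert, Finset.mem_singleton, not_or] at h4
  refine ⟨x, h4.2.1, h4.2.2, fun f => ⟨fun hf => ?_, ?_⟩⟩
  · by_cases h5 : f = a
    · exact Or.inl h5
    · by_cases h6 : f = e
      · exact Or.inr (Or.inl h6)
      · right; right
        have h7 : f ∈ G.cut {w} \ {a, e} := by
          rw [Finset.mem_sdiff, Finset.mem_insert, Finset.mem_singleton, not_or]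
          exact ⟨hf, h5, h6⟩
        rw [hx, Finset.mem_singleton] at h7
        exact h7
  · rintro (rfl | rfl | rfl)
    · exact ha
    · exact he
    · exact h4.1

/-- two vertices are joined by at most one edge -/
theorem Special_simple [Fintype V] [Fintype E] (hG : G.IsSmallestCounterexample) {X : Finset V}
    (hX : G.IsCyclicFourCut X) {u v : V} (hu : u ∈ X) (hv : v ∈ X) (huv : u ≠ v) {f g : E}
    (hf : f ∈ G.cut {u}) (hf' : f ∈ G.cut {v}) (hg : g ∈ G.cut {u}) (hg' : g ∈ G.cut {v}) :
    f = g := by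
  have h1 := G.FC_pair hG huv
  have h2 := G.three_le_card_cut hG {u, v} ⟨u, by simp⟩ (by
    intro h
    apply hX.2.1
    rw [Finset.eq_univ_iff_forall] at h ⊢
    intro z
    have hz := h z
    rcases Finset.mem_insert.1 hz with rfl | hz
    · exact hu
    · rw [Finset.mem_singleton] at hz; subst hz; exact hv)
  exact Finset.card_le_one.1 (by omega : (G.cut {u} ∩ G.cut {v}).card ≤ 1) f
    (Finset.mem_inter.2 ⟨hf, hf'⟩) g (Finset.mem_inter.2 ⟨hg, hg'⟩)

theorem fspecial [Fintype V] [Fintype E] (hG : G.IsSmallestCounterexample) {X : Finset V}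
    (hX : G.IsCyclicFourCut X) {a b c d : E} (hnd : [a, b, c, d].Nodup)
    (hcut : G.cut X = {a, b, c, d})
    (hT : ({G.cut X, G.cut X} : Multiset (Finset E)) ∉ G.coverTypes X)
    {e : E} {u v : V} (hu : u ∈ X) (hv : v ∈ X) (he : G.FEnds e u v)
    (ha : G.Inc a u) (hb : G.Inc b v) :
    ∃ C C' : Finset E, G.FMeet X C ∧ G.FMeet X C' ∧ G.FEven X C ∧ G.FEven X C' ∧
      C ∩ C' = {e} ∧ ((C ∩ G.cut X = G.cut X ∧ C' ∩ G.cut X = ∅) ∨
        (C ∩ G.cut X = {a, d} ∧ C' ∩ G.cut X = {b, c})) := by
  have hl := G.no_loop hG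
  simp only [List.nodup_cons, List.mem_cons, List.not_mem_nil, or_false, not_or,
    List.nodup_nil, and_true, not_false_eq_true] at hnd
  obtain ⟨⟨hab, hac, had⟩, ⟨hbc, hbd⟩, hcd⟩ := hnd
  have hmc : ∀ f, f ∈ G.cut X ↔ (f = a ∨ f = b ∨ f = c ∨ f = d) := by
    intro f
    rw [hcut]
    simp only [Finset.mem_insert, Finset.mem_singleton]
  have huv : u ≠ v := by
    intro h
    rcases he with ⟨h1, h2⟩ | ⟨h1, h2⟩
    · exact hl e (h1.trans (h.trans h2.symm))
    · exact hl e (h1.trans (h.symm.trans h2.symm))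
  -- the edges of the cut
  have hcutend : ∀ f ∈ G.cut X, ∀ w ∈ X, G.Inc f w → ∃ q, q ∉ X ∧ G.FEnds f w q := by
    intro f hf w hw hfw
    obtain ⟨p, q, hp, hq, hpq⟩ := G.Special_ends hf
    rcases (G.Special_inc hpq).1 hfw with h | h
    · subst h
      exact ⟨q, hq, hpq⟩
    · subst h
      exact absurd hw hq
  obtain ⟨a2, ha2, haE⟩ := hcutend a ((hmc a).2 (Or.inl rfl)) u hu ha
  obtain ⟨b2, hb2, hbE⟩ := hcutend b ((hmc b).2 (Or.inr (Or.inl rfl))) v hv hb
  have heX : e ∉ G.cut X := by
    intro h
    obtain ⟨p, q, hp, hq, hpq⟩ := G.Special_ends h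
    rcases G.Special_ends_unique he hpq with ⟨h1, h2⟩ | ⟨h1, h2⟩
    · exact hq (h2 ▸ hv)
    · exact hq (h1 ▸ hu)
  rw [hmc, not_or, not_or, not_or] at heX
  obtain ⟨hea, heb, hec, hed⟩ := heX
  have hmem1 : ∀ f p q, G.FEnds f p q → p ≠ q → f ∈ G.cut {p} := by
    intro f p q h hpq
    exact G.Special_mem_cut h (Finset.mem_singleton_self p)
      (fun h' => hpq (Finset.mem_singleton.1 h').symm)
  have hau : a ∈ G.cut {u} := hmem1 a u a2 haE (fun h => ha2 (h ▸ hu))
  have heu : e ∈ G.cut {u} := hmem1 e u v he huv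
  have hbv : b ∈ G.cut {v} := hmem1 b v b2 hbE (fun h => hb2 (h ▸ hv))
  have hev : e ∈ G.cut {v} := hmem1 e v u (G.Special_ends_symm he) huv.symm
  obtain ⟨x, hxa, hxe, hcu⟩ := G.Special_third hG hau heu (Ne.symm hea)
  obtain ⟨y, hyb, hye, hcv⟩ := G.Special_third hG hbv hev (Ne.symm heb)
  have hxu : x ∈ G.cut {u} := (hcu x).2 (Or.inr (Or.inr rfl))
  have hyv : y ∈ G.cut {v} := (hcv y).2 (Or.inr (Or.inr rfl))
  have hone : ∀ w ∈ X, ∀ f g, f ∈ G.cut {w} → f ∈ G.cut X → g ∈ G.cut {w} → g ∈ G.cut X →
      f = g := by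
    intro w hw f g h1 h2 h3 h4
    exact Finset.card_le_one.1 (G.Special_one hG hX hw) f (Finset.mem_inter.2 ⟨h1, h2⟩) g
      (Finset.mem_inter.2 ⟨h3, h4⟩)
  have hxX : x ∉ G.cut X := fun h => hxa (hone u hu x a hxu h hau ((hmc a).2 (Or.inl rfl)))
  have hyX : y ∉ G.cut X :=
    fun h => hyb (hone v hv y b hyv h hbv ((hmc b).2 (Or.inr (Or.inl rfl))))
  have hxv : x ∉ G.cut {v} := fun h => hxe (G.Special_simple hG hX hu hv huv hxu h heu hev)
  have hyu : y ∉ G.cut {u} := fun h => hye (G.Special_simple hG hX hu hv huv h hyv heu hev)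
  have hxy : x ≠ y := fun h => hxv (h ▸ hyv)
  -- the inner vertices
  set X' : Finset V := (X.erase u).erase v with hX'
  have hmX : ∀ z, z ∈ X' ↔ (z ∈ X ∧ z ≠ u ∧ z ≠ v) := by
    intro z
    rw [hX', Finset.mem_erase, Finset.mem_erase]
    tauto
  have huX' : u ∉ X' := fun h => ((hmX u).1 h).2.1 rfl
  have hvX' : v ∉ X' := fun h => ((hmX v).1 h).2.2 rfl
  have hsub : X' ⊆ X := fun z hz => ((hmX z).1 hz).1
  have hthird : ∀ w w' f, w ∈ X → f ∈ G.cut {w} → f ∉ G.cut X → f ∉ G.cut {w'} →
      ∃ z, G.FEnds f w z ∧ z ∈ X ∧ z ≠ w ∧ z ≠ w' := by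
    intro w w' f hw hf hfX hfw'
    obtain ⟨p, q, hp, hq, hpq⟩ := G.Special_ends hf
    rw [Finset.mem_singleton] at hp hq
    subst hp
    refine ⟨q, hpq, ?_, hq, ?_⟩
    · by_contra h
      exact hfX (G.Special_mem_cut hpq hw h)
    · intro h
      subst h
      exact hfw' (hmem1 f q p (G.Special_ends_symm hpq) hq)
  obtain ⟨x', hxE, hx'X, hx'u, hx'v⟩ := hthird u v x hu hxu hxX hxv
  obtain ⟨y', hyE, hy'X, hy'v, hy'u⟩ := hthird v u y hv hyv hyX hyu
  have hx' : x' ∈ X' := (hmX x').2 ⟨hx'X, hx'u, hx'v⟩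
  have hy' : y' ∈ X' := (hmX y').2 ⟨hy'X, hy'u, hy'v⟩
  have hcdin : ∀ f, f ∈ G.cut X → f ≠ a → f ≠ b → ∃ p q, p ∈ X' ∧ q ∉ X ∧ G.FEnds f p q := by
    intro f hf hfa hfb
    obtain ⟨p, q, hp, hq, hpq⟩ := G.Special_ends hf
    refine ⟨p, q, (hmX p).2 ⟨hp, ?_, ?_⟩, hq, hpq⟩
    · intro h
      subst h
      exact hfa (hone p hu f a (hmem1 f p q hpq (fun h => hq (h ▸ hp))) hf hau
        ((hmc a).2 (Or.inl rfl)))
    · intro h
      subst h
      exact hfb (hone p hv f b (hmem1 f p q hpq (fun h => hq (h ▸ hp))) hf hbv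
        ((hmc b).2 (Or.inr (Or.inl rfl))))
  have hcX : c ∈ G.cut X := (hmc c).2 (Or.inr (Or.inr (Or.inl rfl)))
  have hdX : d ∈ G.cut X := (hmc d).2 (Or.inr (Or.inr (Or.inr rfl)))
  obtain ⟨c1, c2, hc1, hc2, hcE⟩ := hcdin c hcX (Ne.symm hac) (Ne.symm hbc)
  obtain ⟨d1, d2, hd1, hd2, hdE⟩ := hcdin d hdX (Ne.symm had) (Ne.symm hbd)
  have hcutX' : G.cut X' = {x, y, c, d} := by
    ext f
    simp only [Finset.mem_insert, Finset.mem_singleton]
    constructor
    · intro hf
      obtain ⟨p, q, hp, hq, hpq⟩ := G.Special_ends hf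
      obtain ⟨hpX, hpu, hpv⟩ := (hmX p).1 hp
      by_cases hqX : q ∈ X
      · have hq2 : q = u ∨ q = v := by
          by_contra h
          rw [not_or] at h
          exact hq ((hmX q).2 ⟨hqX, h.1, h.2⟩)
        rcases hq2 with rfl | rfl
        · have h1 := hmem1 f q p (G.Special_ends_symm hpq) (Ne.symm hpu)
          rcases (hcu f).1 h1 with rfl | rfl | rfl
          · rcases G.Special_ends_unique hpq haE with ⟨h2, _⟩ | ⟨h2, _⟩
            · exact absurd h2 hpu
            · exact absurd (h2 ▸ hpX) ha2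
          · rcases G.Special_ends_unique hpq he with ⟨h2, _⟩ | ⟨h2, _⟩
            · exact absurd h2 hpu
            · exact absurd h2 hpv
          · exact Or.inl rfl
        · have h1 := hmem1 f q p (G.Special_ends_symm hpq) (Ne.symm hpv)
          rcases (hcv f).1 h1 with rfl | rfl | rfl
          · rcases G.Special_ends_unique hpq hbE with ⟨h2, _⟩ | ⟨h2, _⟩
            · exact absurd h2 hpv
            · exact absurd (h2 ▸ hpX) hb2
          · rcases G.Special_ends_unique hpq he with ⟨h2, _⟩ | ⟨h2, _⟩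
            · exact absurd h2 hpu
            · exact absurd h2 hpv
          · exact Or.inr (Or.inl rfl)
      · have h1 := G.Special_mem_cut hpq hpX hqX
        rcases (hmc f).1 h1 with rfl | rfl | rfl | rfl
        · rcases G.Special_ends_unique hpq haE with ⟨h2, _⟩ | ⟨h2, _⟩
          · exact absurd h2 hpu
          · exact absurd (h2 ▸ hpX) ha2
        · rcases G.Special_ends_unique hpq hbE with ⟨h2, _⟩ | ⟨h2, _⟩
          · exact absurd h2 hpv
          · exact absurd (h2 ▸ hpX) hb2
        · exact Or.inr (Or.inr (Or.inl rfl))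
        · exact Or.inr (Or.inr (Or.inr rfl))
    · rintro (rfl | rfl | rfl | rfl)
      · exact G.Special_mem_cut (G.Special_ends_symm hxE) hx' huX'
      · exact G.Special_mem_cut (G.Special_ends_symm hyE) hy' hvX'
      · exact G.Special_mem_cut hcE hc1 (fun h => hc2 (hsub h))
      · exact G.Special_mem_cut hdE hd1 (fun h => hd2 (hsub h))
  have hxc : x ≠ c := fun h => hxX (h ▸ hcX)
  have hxd : x ≠ d := fun h => hxX (h ▸ hdX)
  have hyc : y ≠ c := fun h => hyX (h ▸ hcX)
  have hyd : y ≠ d := fun h => hyX (h ▸ hdX)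
  have hnd' : [x, y, c, d].Nodup := by
    simp only [List.nodup_cons, List.mem_cons, List.not_mem_nil, or_false, not_or,
      List.nodup_nil, and_true, not_false_eq_true]
    exact ⟨⟨hxy, hxc, hxd⟩, ⟨hyc, hyd⟩, hcd⟩
  obtain ⟨h3, h3'⟩ := G.fsides hG hX
  -- no small cuts inside
  have h4 : ∀ Z ⊆ X', Z.Nonempty → (X' \ Z).Nonempty →
      4 ≤ (G.cut Z).card ∨ 4 ≤ (G.cut (X' \ Z)).card := by
    intro Z hZ hZ1 hZ2
    by_contra hcon
    rw [not_or, not_le, not_le] at hcon
    have hsmall : ∀ Y : Finset V, Y ⊆ X' → Y.Nonempty → (G.cut Y).card < 4 → ∃ w, Y = {w} := by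
      intro Y hY hY1 hY2
      have h5 : Xᶜ ⊆ Yᶜ := Finset.compl_subset_compl.2 (hY.trans hsub)
      have h6 := Finset.card_le_card h5
      have h7 := G.three_le_card_cut hG Y hY1 (by
        intro h
        rw [h, Finset.compl_univ, Finset.card_empty] at h6
        omega)
      rcases G.card_cut_eq_three hG Y (by omega) with h8 | h8
      · exact Finset.card_eq_one.1 h8
      · omega
    obtain ⟨w1, hw1⟩ := hsmall Z hZ hZ1 hcon.1
    obtain ⟨w2, hw2⟩ := hsmall (X' \ Z) Finset.sdiff_subset hZ2 hcon.2
    have hw1' : w1 ∈ X' := hZ (by rw [hw1]; exact Finset.mem_singleton_self w1)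
    have hw2'' : w2 ∈ X' \ Z := by rw [hw2]; exact Finset.mem_singleton_self w2
    have hw2' : w2 ∈ X' := (Finset.mem_sdiff.1 hw2'').1
    have hw12 : w1 ≠ w2 := by
      intro h
      apply (Finset.mem_sdiff.1 hw2'').2
      rw [hw1, h]
      exact Finset.mem_singleton_self w2
    have hX'2 : X' = {w1, w2} := by
      ext z
      rw [Finset.mem_insert, Finset.mem_singleton]
      constructor
      · intro hz
        by_cases hzZ : z ∈ Z
        · rw [hw1, Finset.mem_singleton] at hzZ
          exact Or.inl hzZ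
        · have hz2 : z ∈ X' \ Z := Finset.mem_sdiff.2 ⟨hz, hzZ⟩
          rw [hw2, Finset.mem_singleton] at hz2
          exact Or.inr hz2
      · rintro (rfl | rfl)
        · exact hw1'
        · exact hw2'
    obtain ⟨m1, m2, m3⟩ := (hmX w1).1 hw1'
    obtain ⟨n1, n2, n3⟩ := (hmX w2).1 hw2'
    have hXeq : X = {u, v, w1, w2} := by
      ext z
      simp only [Finset.mem_insert, Finset.mem_singleton]
      constructor
      · intro hz
        by_cases hzu : z = u
        · exact Or.inl hzu
        · by_cases hzv : z = v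
          · exact Or.inr (Or.inl hzv)
          · have hz2 : z ∈ X' := (hmX z).2 ⟨hz, hzu, hzv⟩
            rw [hX'2, Finset.mem_insert, Finset.mem_singleton] at hz2
            exact Or.inr (Or.inr hz2)
      · rintro (rfl | rfl | rfl | rfl)
        · exact hu
        · exact hv
        · exact m1
        · exact n1
    have h5 := G.FC_pair hG hw12
    rw [← hX'2, hcutX'] at h5
    have h6 : ({x, y, c, d} : Finset E).card ≤ 4 := Finset.card_le_four
    have h7 : 0 < (G.cut {w1} ∩ G.cut {w2}).card := by omega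
    obtain ⟨g, hg⟩ := Finset.card_pos.1 h7
    rw [Finset.mem_inter] at hg
    have hinc : ∀ w, g ∈ G.cut {w} → G.Inc g w := by
      intro w hgw
      rcases G.Cubic_mem_cut_singleton.1 hgw with h | h
      · exact Or.inl h.1
      · exact Or.inr h.2
    have hne : ({u, v, w1, w2} : Finset V) ≠ Finset.univ := by
      rw [← hXeq]
      exact hX.2.1
    have hc4 : (G.cut {u, v, w1, w2}).card = 4 := by
      rw [← hXeq]
      exact hX.2.2.1
    have h8 := G.four_circuit_types hG u v w1 w2 (by
      simp only [List.nodup_cons, List.mem_cons, List.not_mem_nil, or_false, not_or,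
        List.nodup_nil, and_true, not_false_eq_true]
      exact ⟨⟨huv, m2.symm, n2.symm⟩, ⟨m3.symm, n3.symm⟩, hw12⟩) hne hc4
      ⟨e, (G.Special_inc he).2 (Or.inl rfl), (G.Special_inc he).2 (Or.inr rfl)⟩
      ⟨g, hinc w1 hg.1, hinc w2 hg.2⟩
    rw [← hXeq] at h8
    exact hT h8.1
  obtain ⟨J, J', hJm, hJm', hdJ, hJe, hJe', hxJ, hdJ1, hxJ', hdJ', hor⟩ :=
    G.Special_pair hnd' hcutX' huv huX' hvX' h4
  -- edges with no end in `X'`
  have hout : ∀ f p q, G.FEnds f p q → p ∉ X' → q ∉ X' → ¬ G.Meets X' f := by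
    intro f p q h hp hq hm
    rcases h with ⟨h1, h2⟩ | ⟨h1, h2⟩
    · rcases hm with hm | hm
      · rw [h1] at hm; exact hp hm
      · rw [h2] at hm; exact hq hm
    · rcases hm with hm | hm
      · rw [h1] at hm; exact hq hm
      · rw [h2] at hm; exact hp hm
  have haM : ¬ G.Meets X' a := hout a u a2 haE huX' (fun h => ha2 (hsub h))
  have hbM : ¬ G.Meets X' b := hout b v b2 hbE hvX' (fun h => hb2 (hsub h))
  have heM : ¬ G.Meets X' e := hout e u v he huX' hvX'
  have haJ : a ∉ J := fun h => haM (hJm a h)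
  have haJ' : a ∉ J' := fun h => haM (hJm' a h)
  have hbJ : b ∉ J := fun h => hbM (hJm b h)
  have hbJ' : b ∉ J' := fun h => hbM (hJm' b h)
  have heJ : e ∉ J := fun h => heM (hJm e h)
  have heJ' : e ∉ J' := fun h => heM (hJm' e h)
  have hmeets : ∀ f w, w ∈ X → G.Inc f w → G.Meets X f := by
    intro f w hw hf
    rcases hf with h | h
    · exact Or.inl (by rw [h]; exact hw)
    · exact Or.inr (by rw [h]; exact hw)
  have hmono : ∀ f, G.Meets X' f → G.Meets X f := by
    intro f hf
    rcases hf with h | h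
    · exact Or.inl (hsub h)
    · exact Or.inr (hsub h)
  have heI : G.Inc e u := (G.Special_inc he).2 (Or.inl rfl)
  -- parity in `X'`
  have hpar : ∀ S B : Finset E, (∀ f ∈ S, ¬ G.Meets X' f) → (∀ f ∈ B, G.Meets X' f) →
      (∀ z ∈ X', Even (G.deg B z)) → ∀ z ∈ X', Even (G.deg (S ∪ B) z) := by
    intro S B hS hB hBe z hz
    have h5 : Disjoint S B := by
      rw [Finset.disjoint_left]
      intro f hf hf'
      exact hS f hf (hB f hf')
    rw [G.deg_union S B h5, G.Special_deg_zero (S := S) (z := z), zero_add]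
    · exact hBe z hz
    · intro f hf hfz
      apply hS f hf
      rcases hfz with h | h
      · exact Or.inl (by rw [h]; exact hz)
      · exact Or.inr (by rw [h]; exact hz)
  have hall : ∀ C : Finset E, (∀ z ∈ X', Even (G.deg C z)) → Even (G.deg C u) →
      Even (G.deg C v) → G.FEven X C := by
    intro C h1 h2 h5 z hz
    by_cases hzu : z = u
    · rw [hzu]; exact h2
    · by_cases hzv : z = v
      · rw [hzv]; exact h5
      · exact h1 z ((hmX z).2 ⟨hz, hzu, hzv⟩)
  have htwo : ∀ (C : Finset E) (w : V) (p q : E), p ≠ q →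
      (∀ f, (f ∈ C ∧ f ∈ G.cut {w}) ↔ (f = p ∨ f = q)) → Even (G.deg C w) := by
    intro C w p q hpq h
    have h5 : C ∩ G.cut {w} = {p, q} := by
      ext f
      rw [Finset.mem_inter, h f, Finset.mem_insert, Finset.mem_singleton]
    rw [G.FC_deg_eq hl, h5, Finset.card_pair hpq]
    decide
  have hMe : ∀ S B : Finset E, (∀ f ∈ S, f = a ∨ f = b ∨ f = e) → (∀ f ∈ B, G.Meets X' f) →
      G.FMeet X (S ∪ B) := by
    intro S B hS hB f hf
    rcases Finset.mem_union.1 hf with h | h
    · rcases hS f h with rfl | rfl | rfl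
      · exact hmeets _ u hu ha
      · exact hmeets _ v hv hb
      · exact hmeets _ u hu heI
    · exact hmono f (hB f h)
  have hSM : ∀ S : Finset E, (∀ f ∈ S, f = a ∨ f = b ∨ f = e) → ∀ f ∈ S, ¬ G.Meets X' f := by
    intro S hS f hf
    rcases hS f hf with rfl | rfl | rfl
    · exact haM
    · exact hbM
    · exact heM
  -- the traces of `J`, `J'`
  have hJt : ∀ f, f ∈ J → f ∈ G.cut X → (f = c ∨ f = d) := by
    intro f hf hfX
    rcases (hmc f).1 hfX with rfl | rfl | rfl | rfl
    · exact absurd hf haJ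
    · exact absurd hf hbJ
    · exact Or.inl rfl
    · exact Or.inr rfl
  have hJt' : ∀ f, f ∈ J' → f ∈ G.cut X → (f = c ∨ f = d) := by
    intro f hf hfX
    rcases (hmc f).1 hfX with rfl | rfl | rfl | rfl
    · exact absurd hf haJ'
    · exact absurd hf hbJ'
    · exact Or.inl rfl
    · exact Or.inr rfl
  have hdis : ∀ f, f ∈ J → f ∉ J' := fun f hf => Finset.disjoint_left.1 hdJ hf
  have hxb : x ≠ b := fun h => hxX (h ▸ (hmc b).2 (Or.inr (Or.inl rfl)))
  have hya : y ≠ a := fun h => hyX (h ▸ (hmc a).2 (Or.inl rfl))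
  rcases hor with ⟨hyJ, hcJ, hyJ', hcJ'⟩ | ⟨hyJ, hcJ, hyJ', hcJ'⟩
  · have s1 : ∀ f ∈ ({a, b, e} : Finset E), f = a ∨ f = b ∨ f = e := by
      intro f hf
      simpa using hf
    have s2 : ∀ f ∈ ({e} : Finset E), f = a ∨ f = b ∨ f = e := by
      intro f hf
      exact Or.inr (Or.inr (Finset.mem_singleton.1 hf))
    refine ⟨{a, b, e} ∪ J', {e} ∪ J, hMe _ _ s1 hJm', hMe _ _ s2 hJm, ?_, ?_, ?_, Or.inl ⟨?_, ?_⟩⟩
    · refine hall _ (hpar _ _ (hSM _ s1) hJm' hJe') (htwo _ u a e (Ne.symm hea) fun f => ?_)
        (htwo _ v b e (Ne.symm heb) fun f => ?_)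
      · rw [hcu f]
        simp only [Finset.mem_union, Finset.mem_insert, Finset.mem_singleton]
        constructor
        · rintro ⟨h1, rfl | rfl | rfl⟩
          · exact Or.inl rfl
          · exact Or.inr rfl
          · rcases h1 with (h1 | h1 | h1) | h1
            · exact absurd h1 hxa
            · exact absurd h1 hxb
            · exact absurd h1 hxe
            · exact absurd h1 hxJ'
        · rintro (rfl | rfl) <;> simp
      · rw [hcv f]
        simp only [Finset.mem_union, Finset.mem_insert, Finset.mem_singleton]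
        constructor
        · rintro ⟨h1, rfl | rfl | rfl⟩
          · exact Or.inl rfl
          · exact Or.inr rfl
          · rcases h1 with (h1 | h1 | h1) | h1
            · exact absurd h1 hya
            · exact absurd h1 hyb
            · exact absurd h1 hye
            · exact absurd h1 hyJ'
        · rintro (rfl | rfl) <;> simp
    · refine hall _ (hpar _ _ (hSM _ s2) hJm hJe) (htwo _ u e x (Ne.symm hxe) fun f => ?_)
        (htwo _ v e y (Ne.symm hye) fun f => ?_)
      · rw [hcu f]
        simp only [Finset.mem_union, Finset.mem_singleton]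
        constructor
        · rintro ⟨h1, rfl | rfl | rfl⟩
          · rcases h1 with h1 | h1
            · exact absurd h1.symm hea
            · exact absurd h1 haJ
          · exact Or.inl rfl
          · exact Or.inr rfl
        · rintro (rfl | rfl) <;> simp [hxJ]
      · rw [hcv f]
        simp only [Finset.mem_union, Finset.mem_singleton]
        constructor
        · rintro ⟨h1, rfl | rfl | rfl⟩
          · rcases h1 with h1 | h1
            · exact absurd h1.symm heb
            · exact absurd h1 hbJ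
          · exact Or.inl rfl
          · exact Or.inr rfl
        · rintro (rfl | rfl) <;> simp [hyJ]
    · ext f
      simp only [Finset.mem_inter, Finset.mem_union, Finset.mem_insert, Finset.mem_singleton]
      constructor
      · rintro ⟨h1, h2 | h2⟩
        · exact h2
        · rcases h1 with (rfl | rfl | rfl) | h1
          · exact absurd h2 haJ
          · exact absurd h2 hbJ
          · rfl
          · exact absurd h1 (hdis f h2)
      · rintro rfl
        simp
    · rw [Finset.inter_eq_right]
      intro f hf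
      rcases (hmc f).1 hf with rfl | rfl | rfl | rfl
      · simp
      · simp
      · simp [hcJ']
      · simp [hdJ']
    · rw [Finset.eq_empty_iff_forall_notMem]
      intro f hf
      rw [Finset.mem_inter, Finset.mem_union, Finset.mem_singleton] at hf
      rcases hf with ⟨rfl | h1, h2⟩
      · rcases (hmc f).1 h2 with h | h | h | h
        · exact hea h
        · exact heb h
        · exact hec h
        · exact hed h
      · rcases hJt f h1 h2 with rfl | rfl
        · exact hcJ h1
        · exact hdJ1 h1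
  · have s1 : ∀ f ∈ ({a, e} : Finset E), f = a ∨ f = b ∨ f = e := by
      intro f hf
      rcases Finset.mem_insert.1 hf with h | h
      · exact Or.inl h
      · exact Or.inr (Or.inr (Finset.mem_singleton.1 h))
    have s2 : ∀ f ∈ ({e, b} : Finset E), f = a ∨ f = b ∨ f = e := by
      intro f hf
      rcases Finset.mem_insert.1 hf with h | h
      · exact Or.inr (Or.inr h)
      · exact Or.inr (Or.inl (Finset.mem_singleton.1 h))
    refine ⟨{a, e} ∪ J', {e, b} ∪ J, hMe _ _ s1 hJm', hMe _ _ s2 hJm, ?_, ?_, ?_, Or.inr ⟨?_, ?_⟩⟩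
    · refine hall _ (hpar _ _ (hSM _ s1) hJm' hJe') (htwo _ u a e (Ne.symm hea) fun f => ?_)
        (htwo _ v e y (Ne.symm hye) fun f => ?_)
      · rw [hcu f]
        simp only [Finset.mem_union, Finset.mem_insert, Finset.mem_singleton]
        constructor
        · rintro ⟨h1, rfl | rfl | rfl⟩
          · exact Or.inl rfl
          · exact Or.inr rfl
          · rcases h1 with (h1 | h1) | h1
            · exact absurd h1 hxa
            · exact absurd h1 hxe
            · exact absurd h1 hxJ'
        · rintro (rfl | rfl) <;> simp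
      · rw [hcv f]
        simp only [Finset.mem_union, Finset.mem_insert, Finset.mem_singleton]
        constructor
        · rintro ⟨h1, rfl | rfl | rfl⟩
          · rcases h1 with (h1 | h1) | h1
            · exact absurd h1 (Ne.symm hab)
            · exact absurd h1.symm heb
            · exact absurd h1 hbJ'
          · exact Or.inl rfl
          · exact Or.inr rfl
        · rintro (rfl | rfl) <;> simp [hyJ']
    · refine hall _ (hpar _ _ (hSM _ s2) hJm hJe) (htwo _ u e x (Ne.symm hxe) fun f => ?_)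
        (htwo _ v e b heb fun f => ?_)
      · rw [hcu f]
        simp only [Finset.mem_union, Finset.mem_insert, Finset.mem_singleton]
        constructor
        · rintro ⟨h1, rfl | rfl | rfl⟩
          · rcases h1 with (h1 | h1) | h1
            · exact absurd h1.symm hea
            · exact absurd h1 hab
            · exact absurd h1 haJ
          · exact Or.inl rfl
          · exact Or.inr rfl
        · rintro (rfl | rfl) <;> simp [hxJ]
      · rw [hcv f]
        simp only [Finset.mem_union, Finset.mem_insert, Finset.mem_singleton]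
        constructor
        · rintro ⟨h1, rfl | rfl | rfl⟩
          · exact Or.inr rfl
          · exact Or.inl rfl
          · rcases h1 with (h1 | h1) | h1
            · exact absurd h1 hye
            · exact absurd h1 hyb
            · exact absurd h1 hyJ
        · rintro (rfl | rfl) <;> simp
    · ext f
      simp only [Finset.mem_inter, Finset.mem_union, Finset.mem_insert, Finset.mem_singleton]
      constructor
      · rintro ⟨h1, (h2 | h2) | h2⟩
        · exact h2
        · subst h2
          rcases h1 with (h1 | h1) | h1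
          · exact absurd h1 (Ne.symm hab)
          · exact h1
          · exact absurd h1 hbJ'
        · rcases h1 with (rfl | rfl) | h1
          · exact absurd h2 haJ
          · rfl
          · exact absurd h1 (hdis f h2)
      · rintro rfl
        simp
    · ext f
      simp only [Finset.mem_inter, Finset.mem_union, Finset.mem_insert, Finset.mem_singleton]
      constructor
      · rintro ⟨(h1 | h1) | h1, h2⟩
        · exact Or.inl h1
        · subst h1
          exfalso
          rcases (hmc f).1 h2 with h | h | h | h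
          · exact hea h
          · exact heb h
          · exact hec h
          · exact hed h
        · rcases hJt' f h1 h2 with rfl | rfl
          · exact absurd h1 hcJ'
          · exact Or.inr rfl
      · rintro (rfl | rfl)
        · exact ⟨Or.inl (Or.inl rfl), (hmc f).2 (Or.inl rfl)⟩
        · exact ⟨Or.inr hdJ', hdX⟩
    · ext f
      simp only [Finset.mem_inter, Finset.mem_union, Finset.mem_insert, Finset.mem_singleton]
      constructor
      · rintro ⟨(h1 | h1) | h1, h2⟩
        · subst h1
          exfalso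
          rcases (hmc f).1 h2 with h | h | h | h
          · exact hea h
          · exact heb h
          · exact hec h
          · exact hed h
        · exact Or.inl h1
        · rcases hJt f h1 h2 with rfl | rfl
          · exact Or.inr rfl
          · exact absurd h1 hdJ1
      · rintro (rfl | rfl)
        · exact ⟨Or.inl (Or.inr rfl), (hmc f).2 (Or.inr (Or.inl rfl))⟩
        · exact ⟨Or.inr hcJ, hcX⟩

end MGraph
end CDCut
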