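import Pool.Agent.CDFlow.Menger

/-!
# Module `Sys`: four disjoint sets from the ends of an inner edge to the cut

**Proof.**  Apply `menger_map` with `k = 4`, `s = u`, `t = y0` (some vertex outside `X`; `Xᶜ` has at
least 3 vertices by `fsides`), `π z = u` if `z ∈ {u, v}`, `π z = y0` if `z ∉ X`, `π z = z`
otherwise, `A` = the edges meeting `X` except `e`.  Cut condition: for `Z ∋ u`, `y0 ∉ Z` the preimage
`Z'` satisfies `u, v ∈ Z' ⊆ X`, so `|δ(Z')| ≥ 4` (`four_le_card_cut`), all edges of `δ(Z')` meet
`X`, and `e ∉ δ(Z')`.  Result: four disjoint sets `J i`, even at all `z ∈ X \ {u, v}`, with odd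
degree sum on `{u, v}`.  So `J i` has an odd number of edges in `δ(X)` (`even_inter_cut_iff`), hence
exactly one (four disjoint sets, `|δ(X)| = 4`), and these are the four edges of the cut.  Each `J i`
has odd degree at exactly one of `u`, `v`; at most two have odd degree at `u` since `u` has degree 3
(`card_cut_vertex`, `no_loop`) and `e` is not in any of the sets, and at most two at `v`.  So exactly
two are odd at `u` (and even at `v`): `A1, A2`; the other two are `B1, B2`.
-/

open scoped Classical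

namespace CDCut
namespace MGraph

variable {V E : Type} (G : MGraph V E)

/-- disjoint sets meeting `S`: at most `|S|` of them -/
private theorem sys_card_le {k : ℕ} (J : Fin k → Finset E)
    (hJ : ∀ i j, i ≠ j → Disjoint (J i) (J j)) (S : Finset E) (I : Finset (Fin k))
    (hI : ∀ i ∈ I, (J i ∩ S).Nonempty) : I.card ≤ S.card := by
  rcases I.eq_empty_or_nonempty with rfl | ⟨i0, hi0⟩
  · simp
  have : Nonempty E := ⟨(hI i0 hi0).choose⟩
  choose! f hf using hI
  refine Finset.card_le_card_of_injOn f (fun i hi => ?_) ?_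
  · exact (Finset.mem_inter.1 (hf i hi)).2
  · intro i hi j hj hij
    by_contra hne
    have h1 := (Finset.mem_inter.1 (hf i hi)).1
    have h2 := (Finset.mem_inter.1 (hf j hj)).1
    rw [hij] at h1
    exact (Finset.disjoint_left.1 (hJ i j hne)) h1 h2

/-- at most two of four disjoint sets avoiding `e` have odd degree at an end `w` of `e` -/
private theorem sys_two_at [Fintype V] [Fintype E] (hG : G.IsSmallestCounterexample) {e : E} {w : V}
    (hw : e ∈ G.cut {w}) (J : Fin 4 → Finset E) (hJ : ∀ i j, i ≠ j → Disjoint (J i) (J j))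
    (heJ : ∀ i, e ∉ J i) :
    (Finset.univ.filter fun i => ¬ Even (G.deg (J i) w)).card ≤ 2 := by
  have h3 : ((G.cut {w}).erase e).card = 2 := by
    rw [Finset.card_erase_of_mem hw, G.card_cut_vertex hG w]
  rw [← h3]
  refine sys_card_le J hJ _ _ fun i hi => ?_
  have h1 := (Finset.mem_filter.1 hi).2
  have h2 := G.even_inter_cut_iff {w} (J i)
  rw [Finset.sum_singleton] at h2
  rw [← h2] at h1
  have h4 : (J i ∩ G.cut {w}).Nonempty := by
    rw [Finset.nonempty_iff_ne_empty]
    intro h5
    rw [h5] at h1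
    exact h1 (by simp)
  obtain ⟨f, hf⟩ := h4
  rw [Finset.mem_inter] at hf
  refine ⟨f, Finset.mem_inter.2 ⟨hf.1, Finset.mem_erase.2 ⟨?_, hf.2⟩⟩⟩
  rintro rfl
  exact heJ i hf.1

theorem fsys_exists [Fintype V] [Fintype E] (hG : G.IsSmallestCounterexample) {X : Finset V}
    (hX : G.IsCyclicFourCut X) {e : E} {u v : V} (hu : u ∈ X) (hv : v ∈ X) (he : G.FEnds e u v) :
    ∃ A1 A2 B1 B2 : Finset E, ∃ i j k l : E, G.FSys X e u v A1 A2 B1 B2 i j k l := by
  have huv : u ≠ v := by
    intro h
    rcases he with ⟨h1, h2⟩ | ⟨h1, h2⟩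
    · exact G.no_loop hG e (by rw [h1, h2, h])
    · exact G.no_loop hG e (by rw [h1, h2, h])
  obtain ⟨-, hXc3⟩ := G.fsides hG hX
  have hcard4 : (G.cut X).card = 4 := hX.2.2.1
  obtain ⟨y0, hy0⟩ : (Xᶜ).Nonempty := Finset.card_pos.1 (by omega)
  rw [Finset.mem_compl] at hy0
  have huy : u ≠ y0 := fun h => hy0 (h ▸ hu)
  have hecut : ∀ Z : Finset V, u ∈ Z → v ∈ Z → e ∉ G.cut Z := by
    intro Z h1 h2 h3
    rw [Inner.mem_cut G] at h3
    rcases he with ⟨h4, h5⟩ | ⟨h4, h5⟩
    · rw [h4, h5] at h3
      tauto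
    · rw [h4, h5] at h3
      tauto
  set π : V → V := fun z => if z = u ∨ z = v then u else if z ∈ X then z else y0 with hπ
  have hπu : π u = u := by simp [hπ]
  have hπv : π v = u := by simp [hπ]
  have hπout : ∀ z, z ∉ X → π z = y0 := by
    intro z hz
    have h1 : ¬ (z = u ∨ z = v) := by
      rintro (rfl | rfl)
      · exact hz hu
      · exact hz hv
    simp [hπ, h1, hz]
  have hπin : ∀ z, z ∈ X → z ≠ u → z ≠ v → π z = z := by
    intro z hz h1 h2
    simp [hπ, h1, h2, hz]
  set A : Finset E := Finset.univ.filter fun f => G.Meets X f ∧ f ≠ e with hA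
  have hcut : ∀ Z : Finset V, u ∈ Z → y0 ∉ Z →
      4 ≤ (A ∩ G.cut (Finset.univ.filter fun z => π z ∈ Z)).card := by
    intro Z h1 h2
    set Z' : Finset V := Finset.univ.filter fun z => π z ∈ Z with hZ'
    have huZ : u ∈ Z' := by
      rw [hZ', Finset.mem_filter, hπu]
      exact ⟨Finset.mem_univ _, h1⟩
    have hvZ : v ∈ Z' := by
      rw [hZ', Finset.mem_filter, hπv]
      exact ⟨Finset.mem_univ _, h1⟩
    have hsub : Z' ⊆ X := by
      intro z hz
      by_contra h3
      rw [hZ', Finset.mem_filter, hπout z h3] at hz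
      exact h2 hz.2
    have h3 : 2 ≤ Z'.card := by
      have h4 : ({u, v} : Finset V) ⊆ Z' := by
        intro z hz
        rw [Finset.mem_insert, Finset.mem_singleton] at hz
        rcases hz with rfl | rfl
        · exact huZ
        · exact hvZ
      have h5 := Finset.card_le_card h4
      rwa [Finset.card_pair huv] at h5
    have h4 : 2 ≤ Z'ᶜ.card := by
      have h5 := Finset.card_le_card (Finset.compl_subset_compl.2 hsub)
      omega
    have h5 := G.four_le_card_cut hG Z' h3 h4
    have h6 : A ∩ G.cut Z' = G.cut Z' := by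
      rw [Finset.inter_eq_right]
      intro f hf
      rw [hA, Finset.mem_filter]
      refine ⟨Finset.mem_univ _, ?_, ?_⟩
      · rw [Inner.mem_cut G] at hf
        rcases hf with hf | hf
        · exact Or.inl (hsub hf.1)
        · exact Or.inr (hsub hf.2)
      · rintro rfl
        exact hecut Z' huZ hvZ hf
    rw [h6]
    exact h5
  obtain ⟨J, hJA, hJd, hJp⟩ := G.menger_map π A u y0 huy 4 hcut
  have hJm : ∀ i, G.FMeet X (J i) := fun i f hf => (Finset.mem_filter.1 (hJA i hf)).2.1
  have hJe : ∀ i, e ∉ J i := fun i hf => (Finset.mem_filter.1 (hJA i hf)).2.2 rfl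
  have hJev : ∀ i, ∀ z ∈ X, z ≠ u → z ≠ v → Even (G.deg (J i) z) := by
    intro i z hz h1 h2
    have h3 := hJp i z
    have h4 : (Finset.univ.filter fun z' => π z' = z) = {z} := by
      ext z'
      rw [Finset.mem_filter, Finset.mem_singleton]
      constructor
      · rintro ⟨-, h5⟩
        by_cases h6 : z' = u
        · rw [h6, hπu] at h5
          exact absurd h5.symm h1
        by_cases h7 : z' = v
        · rw [h7, hπv] at h5
          exact absurd h5.symm h1
        by_cases h8 : z' ∈ X
        · rw [hπin z' h8 h6 h7] at h5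
          exact h5
        · rw [hπout z' h8] at h5
          exact absurd (h5 ▸ hz) hy0
      · rintro rfl
        exact ⟨Finset.mem_univ _, hπin z' hz h1 h2⟩
    rw [h4, Finset.sum_singleton] at h3
    exact h3.2 ⟨h1, fun h => hy0 (h ▸ hz)⟩
  have hJodd : ∀ i, ¬ Even (G.deg (J i) u + G.deg (J i) v) := by
    intro i
    have h3 := hJp i u
    have h4 : (Finset.univ.filter fun z' => π z' = u) = {u, v} := by
      ext z'
      rw [Finset.mem_filter, Finset.mem_insert, Finset.mem_singleton]
      constructor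
      · rintro ⟨-, h5⟩
        by_contra h6
        rw [not_or] at h6
        by_cases h8 : z' ∈ X
        · rw [hπin z' h8 h6.1 h6.2] at h5
          exact h6.1 h5
        · rw [hπout z' h8] at h5
          exact huy h5.symm
      · rintro (rfl | rfl)
        · exact ⟨Finset.mem_univ _, hπu⟩
        · exact ⟨Finset.mem_univ _, hπv⟩
    rw [h4, Finset.sum_pair huv] at h3
    rw [h3]
    exact fun h => h.1 rfl
  have hJx : ∀ i, (Even (G.deg (J i) u) ↔ ¬ Even (G.deg (J i) v)) := by
    intro i
    have h1 := hJodd i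
    rw [Nat.even_add] at h1
    tauto
  have htr : ∀ i, Odd (J i ∩ G.cut X).card := by
    intro i
    rw [← Nat.not_even_iff_odd, G.even_inter_cut_iff X (J i)]
    have h1 : ∑ z ∈ X, G.deg (J i) z =
        G.deg (J i) u + (G.deg (J i) v + ∑ z ∈ (X.erase u).erase v, G.deg (J i) z) := by
      rw [← Finset.add_sum_erase X _ hu, ← Finset.add_sum_erase (X.erase u) _
        (Finset.mem_erase.2 ⟨huv.symm, hv⟩)]
    have h2 : Even (∑ z ∈ (X.erase u).erase v, G.deg (J i) z) := by
      refine Finset.even_sum _ fun z hz => ?_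
      rw [Finset.mem_erase, Finset.mem_erase] at hz
      exact hJev i z hz.2.2 hz.2.1 hz.1
    have h3 := hJodd i
    rw [h1]
    rw [Nat.even_iff] at h2 h3 ⊢
    omega
  have hsum : ∑ i, (J i ∩ G.cut X).card ≤ 4 := by
    have h1 : (Finset.univ.biUnion fun i => J i ∩ G.cut X).card = ∑ i, (J i ∩ G.cut X).card := by
      refine Finset.card_biUnion ?_
      intro i _ j _ hij
      exact (hJd i j hij).mono Finset.inter_subset_left Finset.inter_subset_left
    have h2 : (Finset.univ.biUnion fun i => J i ∩ G.cut X) ⊆ G.cut X := by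
      intro f hf
      rw [Finset.mem_biUnion] at hf
      obtain ⟨i, -, hi⟩ := hf
      exact (Finset.mem_inter.1 hi).2
    have h3 := Finset.card_le_card h2
    rw [h1, hcard4] at h3
    exact h3
  have hone : ∀ i, (J i ∩ G.cut X).card = 1 := by
    rw [Fin.sum_univ_four] at hsum
    obtain ⟨a0, h0⟩ := htr 0
    obtain ⟨a1, h1⟩ := htr 1
    obtain ⟨a2, h2⟩ := htr 2
    obtain ⟨a3, h3⟩ := htr 3
    intro i
    fin_cases i
    · show (J 0 ∩ G.cut X).card = 1
      omega
    · show (J 1 ∩ G.cut X).card = 1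
      omega
    · show (J 2 ∩ G.cut X).card = 1
      omega
    · show (J 3 ∩ G.cut X).card = 1
      omega
  have hc : ∀ i, ∃ f, J i ∩ G.cut X = {f} := fun i => Finset.card_eq_one.1 (hone i)
  choose c hc using hc
  have hcJ : ∀ i, c i ∈ J i := fun i =>
    (Finset.mem_inter.1 (by rw [hc i]; exact Finset.mem_singleton_self _)).1
  have hcX : ∀ i, c i ∈ G.cut X := fun i =>
    (Finset.mem_inter.1 (by rw [hc i]; exact Finset.mem_singleton_self _ :
      c i ∈ J i ∩ G.cut X)).2
  have hcinj : ∀ i j, i ≠ j → c i ≠ c j := by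
    intro i j hij h
    exact (Finset.disjoint_left.1 (hJd i j hij)) (hcJ i) (h ▸ hcJ j)
  -- two at `u`, two at `v`
  have heu : e ∈ G.cut {u} := by
    rw [Inner.mem_cut G]
    rcases he with ⟨h4, h5⟩ | ⟨h4, h5⟩
    · rw [h4, h5]
      exact Or.inl ⟨Finset.mem_singleton_self _, fun h => huv (Finset.mem_singleton.1 h).symm⟩
    · rw [h4, h5]
      exact Or.inr ⟨fun h => huv (Finset.mem_singleton.1 h).symm, Finset.mem_singleton_self _⟩
  have hev : e ∈ G.cut {v} := by
    rw [Inner.mem_cut G]
    rcases he with ⟨h4, h5⟩ | ⟨h4, h5⟩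
    · rw [h4, h5]
      exact Or.inr ⟨fun h => huv (Finset.mem_singleton.1 h), Finset.mem_singleton_self _⟩
    · rw [h4, h5]
      exact Or.inl ⟨Finset.mem_singleton_self _, fun h => huv (Finset.mem_singleton.1 h)⟩
  have hIu := G.sys_two_at hG heu J hJd hJe
  have hIv := G.sys_two_at hG hev J hJd hJe
  set I : Finset (Fin 4) := Finset.univ.filter fun i => ¬ Even (G.deg (J i) u) with hI
  have hIc : (Finset.univ.filter fun i => ¬ Even (G.deg (J i) v)) = Iᶜ := by
    ext i
    rw [Finset.mem_compl, hI, Finset.mem_filter, Finset.mem_filter]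
    have h1 := hJx i
    simp only [Finset.mem_univ, true_and]
    tauto
  rw [hIc] at hIv
  have hIsum : I.card + Iᶜ.card = 4 := by
    rw [Finset.card_add_card_compl, Fintype.card_fin]
  obtain ⟨i1, i2, h12, hI2⟩ := Finset.card_eq_two.1 (by omega : I.card = 2)
  obtain ⟨i3, i4, h34, hI4⟩ := Finset.card_eq_two.1 (by omega : Iᶜ.card = 2)
  have m1 : i1 ∈ I := by rw [hI2]; simp
  have m2 : i2 ∈ I := by rw [hI2]; simp
  have m3 : i3 ∈ Iᶜ := by rw [hI4]; simp
  have m4 : i4 ∈ Iᶜ := by rw [hI4]; simp
  have n13 : i1 ≠ i3 := by rintro rfl; exact (Finset.mem_compl.1 m3) m1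
  have n14 : i1 ≠ i4 := by rintro rfl; exact (Finset.mem_compl.1 m4) m1
  have n23 : i2 ≠ i3 := by rintro rfl; exact (Finset.mem_compl.1 m3) m2
  have n24 : i2 ≠ i4 := by rintro rfl; exact (Finset.mem_compl.1 m4) m2
  have hoU : ∀ i ∈ I, G.FOdd X (J i) u := by
    intro i hi z hz
    have h1 : ¬ Even (G.deg (J i) u) := (Finset.mem_filter.1 hi).2
    by_cases h2 : z = u
    · rw [h2]
      exact iff_of_false h1 fun h => h rfl
    by_cases h3 : z = v
    · rw [h3]
      have h4 := hJx i
      exact iff_of_true (by tauto) huv.symm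
    · exact iff_of_true (hJev i z hz h2 h3) h2
  have hoV : ∀ i ∈ Iᶜ, G.FOdd X (J i) v := by
    intro i hi z hz
    rw [← hIc, Finset.mem_filter] at hi
    have h1 := hi.2
    by_cases h2 : z = v
    · rw [h2]
      exact iff_of_false h1 fun h => h rfl
    by_cases h3 : z = u
    · rw [h3]
      have h4 := hJx i
      exact iff_of_true (by tauto) huv
    · exact iff_of_true (hJev i z hz h3 h2) h2
  have hnd : [c i1, c i2, c i3, c i4].Nodup := by
    have p1 := hcinj i1 i2 h12
    have p2 := hcinj i1 i3 n13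
    have p3 := hcinj i1 i4 n14
    have p4 := hcinj i2 i3 n23
    have p5 := hcinj i2 i4 n24
    have p6 := hcinj i3 i4 h34
    simp only [List.nodup_cons, List.mem_cons, List.not_mem_nil, or_false, not_or,
      not_false_eq_true, List.nodup_nil, and_true]
    exact ⟨⟨p1, p2, p3⟩, ⟨p4, p5⟩, p6⟩
  have hcutX : G.cut X = {c i1, c i2, c i3, c i4} := by
    symm
    refine Finset.eq_of_subset_of_card_le ?_ ?_
    · intro f hf
      simp only [Finset.mem_insert, Finset.mem_singleton] at hf
      rcases hf with rfl | rfl | rfl | rfl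
      · exact hcX _
      · exact hcX _
      · exact hcX _
      · exact hcX _
    · rw [hcard4]
      have h1 := List.toFinset_card_of_nodup hnd
      have h2 : [c i1, c i2, c i3, c i4].toFinset = {c i1, c i2, c i3, c i4} := by
        simp
      rw [h2] at h1
      rw [h1]
      simp
  exact ⟨J i1, J i2, J i3, J i4, c i1, c i2, c i3, c i4,
    { nd := hnd
      cut := hcutX
      mA1 := hJm _
      mA2 := hJm _
      mB1 := hJm _
      mB2 := hJm _
      eA1 := hJe _
      eA2 := hJe _
      eB1 := hJe _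
      eB2 := hJe _
      dAA := hJd _ _ h12
      dA1B1 := hJd _ _ n13
      dA1B2 := hJd _ _ n14
      dA2B1 := hJd _ _ n23
      dA2B2 := hJd _ _ n24
      dBB := hJd _ _ h34
      oA1 := hoU _ m1
      oA2 := hoU _ m2
      oB1 := hoV _ m3
      oB2 := hoV _ m4
      tA1 := hc _
      tA2 := hc _
      tB1 := hc _
      tB2 := hc _ }⟩

end MGraph
end CDCut
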