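import Pool.Agent.CDFlow.Menger

/-!
# Module `Two`: two disjoint joins of the ends of an inner edge

**Statement.**  Let `e` be an edge inside `X` with ends `u`, `v`, and `p ≠ q` two edges of the cut
`δ(X)`.  Then there are two disjoint sets of edges (inner edges of `X` without `e`, and `p`, `q`)
which both join `u` and `v` in `X`, the first with trace `∅` or `{p, q}`, the second with trace `∅`;
or there is a set `Z ⊆ X` with `u ∈ Z`, `v ∉ Z` such that the inner edges of `X` in `δ(Z)` are `e`
and one more edge, and the ends of `p` and `q` in `X` are on the same side.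

**Proof.**  Apply `menger_map` with `k = 2`, `s = u`, `t = v`, `π z = z` for `z ∈ X`, `π z = y0` for
`z ∉ X` (`y0 ∉ X` fixed), `A = (inside X \ {e}) ∪ {p, q}`.  If the cut condition holds, we get `J 0`,
`J 1`, disjoint, joining `u` and `v`, with even degree at `y0`, so with an even number of edges in
`{p, q}` (`even_inter_cut_iff` for `X`: the degree sum on `X` is even); as they are disjoint, at most
one of them contains `p, q`; call it `P1`.  If the cut condition fails, there is a `Z'` with at most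
one edge of `A` in the cut of its preimage; put `Z = Z' ∩ X` (as a subset of `X`).  Let `m` be the
number of inner edges of `X` in `δ(Z)` (`e` is one of them), `t` the number of edges of `δ(X)` with
end in `Z`.  `|δ(Z)| = m + t`, `|δ(X \ Z)| = m + 4 - t`, both are at least 3; if `m ≤ 1` then `m = 1`,
`t = 2` and both are 3, so both `Z` and `X \ Z` are single vertices (`card_cut_eq_three`, the
complements have at least 3 elements by `fsides`), but `|X| ≥ 3`.  So `m ≥ 2`, hence the number of
edges of `A` in the cut is at least `m - 1 ≥ 1`, so `m = 2`, and neither `p` nor `q` is counted: for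
`y0 ∉ Z'` both ends are outside `Z`, for `y0 ∈ Z'` both are in `Z`.
-/

open scoped Classical

namespace CDCut
namespace MGraph

variable {V E : Type} (G : MGraph V E)

private theorem ftwo_mem_inside [Fintype E] {X : Finset V} {f : E} :
    f ∈ G.inside X ↔ G.fst f ∈ X ∧ G.snd f ∈ X := by
  unfold inside
  rw [Finset.mem_filter]
  exact ⟨fun h => h.2, fun h => ⟨Finset.mem_univ _, h⟩⟩

private theorem ftwo_trace {S : Finset E} {p q : E} (hS : S ⊆ {p, q}) (hpq : p ≠ q)
    (h : Even S.card) : S = ∅ ∨ S = {p, q} := by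
  by_cases h0 : S = ∅
  · exact Or.inl h0
  right
  have h1 : S.card ≤ 2 := by
    have := Finset.card_le_card hS
    rwa [Finset.card_pair hpq] at this
  have h2 : 0 < S.card := Finset.card_pos.2 (Finset.nonempty_iff_ne_empty.2 h0)
  rw [Nat.even_iff] at h
  apply Finset.eq_of_subset_of_card_le hS
  rw [Finset.card_pair hpq]
  omega

theorem ftwo [Fintype V] [Fintype E] (hG : G.IsSmallestCounterexample) {X : Finset V}
    (hX : G.IsCyclicFourCut X) {e : E} {u v : V} (hu : u ∈ X) (hv : v ∈ X) (he : G.FEnds e u v)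
    {p q : E} (hp : p ∈ G.cut X) (hq : q ∈ G.cut X) (hpq : p ≠ q) :
    (∃ P1 P2 : Finset E, P1 ⊆ G.inside X ∪ {p, q} ∧ P2 ⊆ G.inside X ∧ e ∉ P1 ∧ e ∉ P2 ∧
      Disjoint P1 P2 ∧ G.FJoin X P1 u v ∧ G.FJoin X P2 u v ∧
      (P1 ∩ G.cut X = ∅ ∨ P1 ∩ G.cut X = {p, q})) ∨
    ∃ Z ⊆ X, ∃ e' : E, u ∈ Z ∧ v ∉ Z ∧ e' ≠ e ∧ G.cut Z ∩ G.inside X = {e, e'} ∧
      (p ∈ G.cut Z ↔ q ∈ G.cut Z) := by
  have hne : u ≠ v := by
    rintro rfl
    rcases he with ⟨a, b⟩ | ⟨a, b⟩ <;> exact no_loop G hG e (a.trans b.symm)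
  obtain ⟨y0, hy0⟩ : ∃ y0, y0 ∉ X := by
    by_contra h
    push Not at h
    exact hX.2.1 (Finset.eq_univ_iff_forall.2 h)
  obtain ⟨π, hπX, hπn⟩ : ∃ π : V → V, (∀ z ∈ X, π z = z) ∧ ∀ z, z ∉ X → π z = y0 :=
    ⟨fun z => if z ∈ X then z else y0, fun z hz => if_pos hz, fun z hz => if_neg hz⟩
  have heX : e ∈ G.inside X := by
    rw [ftwo_mem_inside]
    rcases he with ⟨a, b⟩ | ⟨a, b⟩ <;> rw [a, b]
    · exact ⟨hu, hv⟩
    · exact ⟨hv, hu⟩
  have hic : ∀ f ∈ G.inside X, f ∉ G.cut X := by
    intro f hf hf'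
    rw [ftwo_mem_inside] at hf
    rw [Inner.mem_cut] at hf'
    tauto
  have hep : e ≠ p := fun h => hic e heX (h ▸ hp)
  have heq : e ≠ q := fun h => hic e heX (h ▸ hq)
  obtain ⟨A, hA⟩ : ∃ A : Finset E, A = (G.inside X).erase e ∪ {p, q} := ⟨_, rfl⟩
  have hAmem : ∀ f, f ∈ A ↔ (f ≠ e ∧ f ∈ G.inside X) ∨ f = p ∨ f = q := by
    intro f
    rw [hA, Finset.mem_union, Finset.mem_erase, Finset.mem_insert, Finset.mem_singleton]
  have heA : e ∉ A := by
    rw [hAmem]
    rintro (h | h | h)
    · exact h.1 rfl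
    · exact hep h
    · exact heq h
  by_cases hc : ∀ Z : Finset V, u ∈ Z → v ∉ Z →
      2 ≤ (A ∩ G.cut (Finset.univ.filter fun z => π z ∈ Z)).card
  · left
    obtain ⟨J, hJA, hJd, hJ⟩ := G.menger_map π A u v hne 2 hc
    have hjoin : ∀ i, G.FJoin X (J i) u v := by
      intro i z hz
      have h1 := hJ i z
      have h2 : (Finset.univ.filter fun y => π y = z) = {z} := by
        ext y
        rw [Finset.mem_filter, Finset.mem_singleton]
        constructor
        · rintro ⟨-, h3⟩
          by_cases hy : y ∈ X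
          · rwa [hπX y hy] at h3
          · rw [hπn y hy] at h3
            exact absurd (h3 ▸ hz) hy0
        · rintro rfl
          exact ⟨Finset.mem_univ _, hπX y hz⟩
      rwa [h2, Finset.sum_singleton] at h1
    have htr : ∀ i, J i ∩ G.cut X = ∅ ∨ J i ∩ G.cut X = {p, q} := by
      intro i
      apply ftwo_trace _ hpq
      · have h1 := hJ i y0
        have h2 : (Finset.univ.filter fun y => π y = y0) = Xᶜ := by
          ext y
          rw [Finset.mem_filter, Finset.mem_compl]
          constructor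
          · rintro ⟨-, h3⟩ hy
            rw [hπX y hy] at h3
            exact hy0 (h3 ▸ hy)
          · intro hy
            exact ⟨Finset.mem_univ _, hπn y hy⟩
        rw [h2, ← even_inter_cut_iff, cut_compl] at h1
        exact h1.2 ⟨fun h => hy0 (h ▸ hu), fun h => hy0 (h ▸ hv)⟩
      · intro f hf
        rw [Finset.mem_inter] at hf
        rcases (hAmem f).1 (hJA i hf.1) with h1 | h1 | h1
        · exact absurd hf.2 (hic f h1.2)
        · rw [h1]
          exact Finset.mem_insert_self _ _
        · rw [h1, Finset.mem_insert]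
          exact Or.inr (Finset.mem_singleton_self _)
    have hsub : ∀ i, J i ⊆ G.inside X ∪ {p, q} := by
      intro i f hf
      rw [Finset.mem_union, Finset.mem_insert, Finset.mem_singleton]
      rcases (hAmem f).1 (hJA i hf) with h1 | h1
      · exact Or.inl h1.2
      · exact Or.inr h1
    have hsub' : ∀ i, J i ∩ G.cut X = ∅ → J i ⊆ G.inside X := by
      intro i hi f hf
      rcases (hAmem f).1 (hJA i hf) with h1 | h1 | h1
      · exact h1.2
      · have h2 : f ∈ J i ∩ G.cut X := Finset.mem_inter.2 ⟨hf, h1 ▸ hp⟩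
        rw [hi] at h2
        exact absurd h2 (Finset.notMem_empty _)
      · have h2 : f ∈ J i ∩ G.cut X := Finset.mem_inter.2 ⟨hf, h1 ▸ hq⟩
        rw [hi] at h2
        exact absurd h2 (Finset.notMem_empty _)
    have heJ : ∀ i, e ∉ J i := fun i h => heA (hJA i h)
    rcases htr 1 with h1 | h1
    · exact ⟨J 0, J 1, hsub 0, hsub' 1 h1, heJ 0, heJ 1, hJd 0 1 (by decide), hjoin 0, hjoin 1,
        htr 0⟩
    · have h0 : J 0 ∩ G.cut X = ∅ := by
        rcases htr 0 with h0 | h0
        · exact h0
        · exfalso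
          have h2 : p ∈ J 0 := by
            have : p ∈ J 0 ∩ G.cut X := by
              rw [h0]
              exact Finset.mem_insert_self _ _
            exact (Finset.mem_inter.1 this).1
          have h3 : p ∈ J 1 := by
            have : p ∈ J 1 ∩ G.cut X := by
              rw [h1]
              exact Finset.mem_insert_self _ _
            exact (Finset.mem_inter.1 this).1
          exact Finset.disjoint_left.1 (hJd 0 1 (by decide)) h2 h3
      exact ⟨J 1, J 0, hsub 1, hsub' 0 h0, heJ 1, heJ 0, hJd 1 0 (by decide), hjoin 1, hjoin 0,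
        htr 1⟩
  · right
    push Not at hc
    obtain ⟨Z', hu', hv', hlt⟩ := hc
    obtain ⟨W, hW⟩ : ∃ W : Finset V, W = Finset.univ.filter fun z => π z ∈ Z' := ⟨_, rfl⟩
    rw [← hW] at hlt
    have hWX : ∀ z ∈ X, (z ∈ W ↔ z ∈ Z' ∩ X) := by
      intro z hz
      rw [hW, Finset.mem_filter, Finset.mem_inter, hπX z hz]
      exact ⟨fun h => ⟨h.2, hz⟩, fun h => ⟨Finset.mem_univ _, h.1⟩⟩
    have hWn : ∀ z, z ∉ X → (z ∈ W ↔ y0 ∈ Z') := by
      intro z hz
      rw [hW, Finset.mem_filter, hπn z hz]
      exact ⟨fun h => h.2, fun h => ⟨Finset.mem_univ _, h⟩⟩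
    obtain ⟨Z, hZ⟩ : ∃ Z : Finset V, Z = Z' ∩ X := ⟨_, rfl⟩
    rw [← hZ] at hWX
    have hZX : Z ⊆ X := by
      rw [hZ]
      exact Finset.inter_subset_right
    have huZ : u ∈ Z := by
      rw [hZ]
      exact Finset.mem_inter.2 ⟨hu', hu⟩
    have hvZ : v ∉ Z := by
      rw [hZ]
      exact fun h => hv' (Finset.mem_inter.1 h).1
    have hM : G.cut Z ∩ G.inside X = G.cut Z \ G.cut X := by
      ext f
      have h1 : G.fst f ∈ Z → G.fst f ∈ X := fun h => hZX h
      have h2 : G.snd f ∈ Z → G.snd f ∈ X := fun h => hZX h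
      rw [Finset.mem_inter, Finset.mem_sdiff, ftwo_mem_inside, Inner.mem_cut, Inner.mem_cut]
      tauto
    have heM : e ∈ G.cut Z ∩ G.inside X := by
      rw [Finset.mem_inter]
      refine ⟨?_, heX⟩
      rw [Inner.mem_cut]
      rcases he with ⟨a, b⟩ | ⟨a, b⟩ <;> rw [a, b]
      · exact Or.inl ⟨huZ, hvZ⟩
      · exact Or.inr ⟨hvZ, huZ⟩
    have hm1 : 1 ≤ (G.cut Z ∩ G.inside X).card := Finset.card_pos.2 ⟨e, heM⟩
    have hinner : ∀ f ∈ G.inside X, (f ∈ G.cut W ↔ f ∈ G.cut Z) := by
      intro f hf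
      rw [ftwo_mem_inside] at hf
      rw [Inner.mem_cut, Inner.mem_cut, hWX _ hf.1, hWX _ hf.2]
    have hm2 : 2 ≤ (G.cut Z ∩ G.inside X).card := by
      by_contra hlt2
      have hm : (G.cut Z ∩ G.inside X).card = 1 := by omega
      have h2 := Finset.card_sdiff_add_card_inter (G.cut Z) (G.cut X)
      rw [← hM] at h2
      have h3 := Finset.card_sdiff_add_card_inter (G.cut X) (G.cut Z)
      rw [Finset.inter_comm, hX.2.2.1] at h3
      have h7 : G.cut (X \ Z) ⊆ (G.cut Z ∩ G.inside X) ∪ (G.cut X \ G.cut Z) := by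
        intro f hf
        have h9 : G.fst f ∈ Z → G.fst f ∈ X := fun h => hZX h
        have h10 : G.snd f ∈ Z → G.snd f ∈ X := fun h => hZX h
        rw [hM]
        simp only [Finset.mem_union, Finset.mem_sdiff, Inner.mem_cut] at hf ⊢
        tauto
      have h8 := (Finset.card_le_card h7).trans (Finset.card_union_le _ _)
      have h9 : 3 ≤ (G.cut (X \ Z)).card := by
        apply three_le_card_cut G hG
        · exact ⟨v, Finset.mem_sdiff.2 ⟨hv, hvZ⟩⟩
        · intro h10
          have h11 : y0 ∈ X \ Z := by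
            rw [h10]
            exact Finset.mem_univ _
          exact hy0 (Finset.mem_sdiff.1 h11).1
      have h10 : 3 ≤ (G.cut Z).card := by
        apply three_le_card_cut G hG
        · exact ⟨u, huZ⟩
        · intro h10
          exact hvZ (h10 ▸ Finset.mem_univ v)
      have hs := G.fsides hG hX
      have h4 : Z.card = 1 := by
        rcases card_cut_eq_three G hG Z (by omega) with h | h
        · exact h
        · have h5 := Finset.card_le_card (Finset.compl_subset_compl.2 hZX)
          omega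
      have h6 : (X \ Z).card = 1 := by
        rcases card_cut_eq_three G hG (X \ Z) (by omega) with h | h
        · exact h
        · have h12 := Finset.card_le_card (Finset.compl_subset_compl.2
            (Finset.sdiff_subset : X \ Z ⊆ X))
          omega
      have h13 := Finset.card_sdiff_add_card_eq_card hZX
      omega
    have hsub : (G.cut Z ∩ G.inside X).erase e ⊆ A ∩ G.cut W := by
      intro f hf
      rw [Finset.mem_erase, Finset.mem_inter] at hf
      rw [Finset.mem_inter, hAmem, hinner f hf.2.2]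
      exact ⟨Or.inl ⟨hf.1, hf.2.2⟩, hf.2.1⟩
    have hce := Finset.card_erase_of_mem heM
    have heqs : (G.cut Z ∩ G.inside X).erase e = A ∩ G.cut W := by
      apply Finset.eq_of_subset_of_card_le hsub
      omega
    have hcard : (G.cut Z ∩ G.inside X).card = 2 := by
      rw [heqs] at hce
      omega
    have hnot : ∀ f, f ∈ A → f ∈ G.cut X → f ∉ G.cut W := by
      intro f hf hf' hf''
      have h1 : f ∈ (G.cut Z ∩ G.inside X).erase e := by
        rw [heqs]
        exact Finset.mem_inter.2 ⟨hf, hf''⟩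
      rw [Finset.mem_erase, Finset.mem_inter] at h1
      exact hic f h1.2.2 hf'
    have hside : ∀ f, f ∈ A → f ∈ G.cut X → (f ∈ G.cut Z ↔ y0 ∈ Z') := by
      intro f hf hf'
      have h1 := hnot f hf hf'
      rw [Inner.mem_cut] at h1 hf' ⊢
      have h9 : G.fst f ∈ Z → G.fst f ∈ X := fun h => hZX h
      have h10 : G.snd f ∈ Z → G.snd f ∈ X := fun h => hZX h
      rcases hf' with ⟨a, b⟩ | ⟨a, b⟩
      · rw [hWX _ a, hWn _ b] at h1
        tauto
      · rw [hWX _ b, hWn _ a] at h1
        tauto
    have h1 : ((G.cut Z ∩ G.inside X).erase e).card = 1 := by omega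
    obtain ⟨e', he'⟩ := Finset.card_eq_one.1 h1
    refine ⟨Z, hZX, e', huZ, hvZ, ?_, ?_, ?_⟩
    · have h2 : e' ∈ (G.cut Z ∩ G.inside X).erase e := by
        rw [he']
        exact Finset.mem_singleton_self _
      exact (Finset.mem_erase.1 h2).1
    · rw [← he', Finset.insert_erase heM]
    · rw [hside p ((hAmem p).2 (Or.inr (Or.inl rfl))) hp,
        hside q ((hAmem q).2 (Or.inr (Or.inr rfl))) hq]

end MGraph
end CDCut
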