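import Pool.Agent.CDFlow.Base
import Pool.Agent.CDFlow.Inc
import Pool.Agent.CDFlow.Sys
import Pool.Agent.CDFlow.Link
import Pool.Agent.CDFlow.Two
import Pool.Agent.CDFlow.Bad
import Pool.Agent.CDFlow.Special
import Pool.Agent.CDFlow.CutEdge

/-!
# Module `Main`: every flow on a side of a cyclic 4-edge-cut has at least two zero edges
-/

open scoped Classical

namespace CDCut
namespace MGraph

variable {V E : Type} (G : MGraph V E)

/-! ### No zero edge -/

/-- three classes and an even set give a cover -/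
theorem fclass_cover {X : Finset V} {C : Fin 3 → Finset E} (hC1 : ∀ j, G.FMeet X (C j))
    (hC2 : ∀ j, G.FEven X (C j)) (hC3 : ∀ f, G.Meets X f → ∃ j, ∀ i, (f ∈ C i ↔ i ≠ j))
    {K : Finset E} (hK1 : G.FMeet X K) (hK2 : G.FEven X K) :
    G.SideCover X (symmDiff (C 0) K ::ₘ symmDiff (C 1) K ::ₘ symmDiff (C 2) K ::ₘ K ::ₘ 0) := by
  constructor
  · intro D hD
    have h1 : (∃ j, D = symmDiff (C j) K) ∨ D = K := by
      simp only [Multiset.mem_cons, Multiset.notMem_zero, or_false] at hD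
      rcases hD with h | h | h | h
      · exact Or.inl ⟨0, h⟩
      · exact Or.inl ⟨1, h⟩
      · exact Or.inl ⟨2, h⟩
      · exact Or.inr h
    rcases h1 with ⟨j, rfl⟩ | rfl
    · exact ⟨G.fmeet_symmDiff (hC1 j) hK1, G.feven_symmDiff (hC2 j) hK2⟩
    · exact ⟨hK1, hK2⟩
  · intro e he
    obtain ⟨j, hj⟩ := hC3 e he
    rw [Multiset.countP_cons, Multiset.countP_cons, Multiset.countP_cons, Multiset.countP_cons,
      Multiset.countP_zero]
    simp only [Finset.mem_symmDiff, hj]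
    by_cases hK : e ∈ K
    · rcases fin3_cases j with rfl | rfl | rfl <;> simp [hK]
    · rcases fin3_cases j with rfl | rfl | rfl <;> simp [hK]

theorem fzero [Fintype V] [Fintype E] (hG : G.IsSmallestCounterexample) {X : Finset V}
    (hX : G.IsCyclicFourCut X) {C : Fin 3 → Finset E} (hC1 : ∀ j, G.FMeet X (C j))
    (hC2 : ∀ j, G.FEven X (C j)) (hC3 : ∀ f, G.Meets X f → ∃ j, ∀ i, (f ∈ C i ↔ i ≠ j)) :
    False := by
  obtain ⟨a, b, c, d, hnd, hcut, h⟩ := G.main_one hG X hX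
  have hab : a ≠ b := by
    intro h
    subst h
    simp at hnd
  rcases h with ⟨h1, -, -⟩ | ⟨h1, -, -⟩
  · obtain ⟨K, hK1, hK2, hK3⟩ := G.exists_join hG X hX.2.2.1 a b (by rw [hcut]; simp)
      (by rw [hcut]; simp) hab
    have ht : (((symmDiff (C 0) K ::ₘ symmDiff (C 1) K ::ₘ symmDiff (C 2) K ::ₘ K ::ₘ 0).map
        fun C => C ∩ G.cut X).filter fun D => D ≠ ∅) ∈ G.coverTypes X :=
      ⟨_, G.fclass_cover hC1 hC2 hC3 hK1 hK2, rfl⟩
    rw [h1] at ht
    refine pair_not_mem_S a b c d hnd _ ht ?_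
    rw [Multiset.mem_filter]
    refine ⟨?_, by simp⟩
    rw [Multiset.mem_map]
    exact ⟨K, by simp, hK3⟩
  · obtain ⟨j, hj⟩ := G.ffull hX.2.2.1 hC2 (fun f hf => hC3 f (G.fmeets_of_cut hf))
    have ht : (((symmDiff (C 0) ∅ ::ₘ symmDiff (C 1) ∅ ::ₘ symmDiff (C 2) ∅ ::ₘ ∅ ::ₘ 0).map
        fun C => C ∩ G.cut X).filter fun D => D ≠ ∅) ∈ G.coverTypes X :=
      ⟨_, G.fclass_cover hC1 hC2 hC3 (fun f hf => absurd hf (Finset.notMem_empty f))
        (fun z _ => by simp [deg]), rfl⟩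
    rw [h1] at ht
    refine full_not_mem_T a b c d hnd _ ht ?_
    rw [Multiset.mem_filter]
    refine ⟨?_, by simp⟩
    rw [Multiset.mem_map]
    refine ⟨symmDiff (C j) ∅, ?_, ?_⟩
    · rcases fin3_cases j with rfl | rfl | rfl <;> simp
    · rw [← Finset.bot_eq_empty, symmDiff_bot, hj, hcut]

/-! ### An inner zero edge -/

/-- a base avoiding the inner edge `e`, with coded traces -/
structure FCode [Fintype V] [Fintype E] (X : Finset V) (e : E) (D : Fin 3 → Finset E)
    (φ : Fin 4 ↪ E) (s : Finset (Fin 4)) (K0 : Finset (Multiset (Finset (Fin 4)))) : Prop where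
  base : G.FBase X e D
  cut : G.cut X = Finset.univ.map φ
  t0 : D 0 ∩ G.cut X = Finset.univ.map φ
  t1 : D 1 ∩ G.cut X = s.map φ
  t2 : D 2 ∩ G.cut X = sᶜ.map φ
  types : ∀ t, t.map (Finset.map φ) ∈ G.coverTypes X → t ∈ K0

theorem fcode_type [Fintype V] [Fintype E] {X : Finset V} {e : E} {D : Fin 3 → Finset E}
    {φ : Fin 4 ↪ E} {s : Finset (Fin 4)} {K0 : Finset (Multiset (Finset (Fin 4)))}
    (h : G.FCode X e D φ s K0) {C C' : Finset E} (mC : G.FMeet X C) (mC' : G.FMeet X C')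
    (evC : G.FEven X C) (evC' : G.FEven X C') (hi : C ∩ C' = {e}) {c c' : Finset (Fin 4)}
    (hc : C ∩ G.cut X = c.map φ) (hc' : C' ∩ G.cut X = c'.map φ) :
    tt Finset.univ s sᶜ c c' ∈ K0 := by
  have := G.ftype h.base mC mC' evC evC' hi
  rw [h.t0, h.t1, h.t2, hc, hc', tt_map] at this
  exact h.types _ this

theorem fcode_pair [Fintype V] [Fintype E] {X : Finset V} {e : E} {u v : V} (hu : u ∈ X)
    (hv : v ∈ X) (huv : u ≠ v) (he : G.FEnds e u v) {D : Fin 3 → Finset E}
    {φ : Fin 4 ↪ E} {s : Finset (Fin 4)} {K0 : Finset (Multiset (Finset (Fin 4)))}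
    (h : G.FCode X e D φ s K0) {J J' : Finset E} (mJ : G.FMeet X J) (mJ' : G.FMeet X J')
    (eJ : e ∉ J) (eJ' : e ∉ J') (hd : Disjoint J J') (jJ : G.FJoin X J u v)
    (jJ' : G.FJoin X J' u v) {c c' : Finset (Fin 4)}
    (hc : J ∩ G.cut X = c.map φ) (hc' : J' ∩ G.cut X = c'.map φ) :
    tt Finset.univ s sᶜ c c' ∈ K0 := by
  have := G.fpair hu hv huv he h.base mJ mJ' eJ eJ' hd jJ jJ'
  rw [h.t0, h.t1, h.t2, hc, hc', tt_map] at this
  exact h.types _ this

theorem fsys_swapA [Fintype E] {X : Finset V} {e : E} {u v : V} {A1 A2 B1 B2 : Finset E}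
    {i j k l : E} (h : G.FSys X e u v A1 A2 B1 B2 i j k l) :
    G.FSys X e u v A2 A1 B1 B2 j i k l := by
  have hnd := h.nd
  simp only [List.nodup_cons, List.mem_cons, List.not_mem_nil, or_false, not_or,
    List.nodup_nil, and_true, not_false_eq_true] at hnd
  obtain ⟨⟨hij, hik, hil⟩, ⟨hjk, hjl⟩, hkl⟩ := hnd
  exact
    { nd := by
        simp only [List.nodup_cons, List.mem_cons, List.not_mem_nil, or_false, not_or,
          List.nodup_nil, and_true, not_false_eq_true]
        exact ⟨⟨Ne.symm hij, hjk, hjl⟩, ⟨hik, hil⟩, hkl⟩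
      cut := by rw [h.cut]; exact Finset.insert_comm _ _ _
      mA1 := h.mA2
      mA2 := h.mA1
      mB1 := h.mB1
      mB2 := h.mB2
      eA1 := h.eA2
      eA2 := h.eA1
      eB1 := h.eB1
      eB2 := h.eB2
      dAA := h.dAA.symm
      dA1B1 := h.dA2B1
      dA1B2 := h.dA2B2
      dA2B1 := h.dA1B1
      dA2B2 := h.dA1B2
      dBB := h.dBB
      oA1 := h.oA2
      oA2 := h.oA1
      oB1 := h.oB1
      oB2 := h.oB2
      tA1 := h.tA2
      tA2 := h.tA1
      tB1 := h.tB1
      tB2 := h.tB2 }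

theorem fsys_swapB [Fintype E] {X : Finset V} {e : E} {u v : V} {A1 A2 B1 B2 : Finset E}
    {i j k l : E} (h : G.FSys X e u v A1 A2 B1 B2 i j k l) :
    G.FSys X e u v A1 A2 B2 B1 i j l k := by
  have hnd := h.nd
  simp only [List.nodup_cons, List.mem_cons, List.not_mem_nil, or_false, not_or,
    List.nodup_nil, and_true, not_false_eq_true] at hnd
  obtain ⟨⟨hij, hik, hil⟩, ⟨hjk, hjl⟩, hkl⟩ := hnd
  exact
    { nd := by
        simp only [List.nodup_cons, List.mem_cons, List.not_mem_nil, or_false, not_or,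
          List.nodup_nil, and_true, not_false_eq_true]
        exact ⟨⟨hij, hil, hik⟩, ⟨hjl, hjk⟩, Ne.symm hkl⟩
      cut := by rw [h.cut, Finset.pair_comm k l]
      mA1 := h.mA1
      mA2 := h.mA2
      mB1 := h.mB2
      mB2 := h.mB1
      eA1 := h.eA1
      eA2 := h.eA2
      eB1 := h.eB2
      eB2 := h.eB1
      dAA := h.dAA
      dA1B1 := h.dA1B2
      dA1B2 := h.dA1B1
      dA2B1 := h.dA2B2
      dA2B2 := h.dA2B1
      dBB := h.dBB.symm
      oA1 := h.oA1
      oA2 := h.oA2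
      oB1 := h.oB2
      oB2 := h.oB1
      tA1 := h.tA1
      tA2 := h.tA2
      tB1 := h.tB2
      tB2 := h.tB1 }

/-- the covers from the two splittings of a system -/
theorem fcode_split [Fintype V] [Fintype E] {X : Finset V} {e : E} {u v : V} (hu : u ∈ X)
    (hv : v ∈ X) (huv : u ≠ v) (he : G.FEnds e u v) {D : Fin 3 → Finset E}
    {φ : Fin 4 ↪ E} {s : Finset (Fin 4)} {K0 : Finset (Multiset (Finset (Fin 4)))}
    (h : G.FCode X e D φ s K0) {A1 A2 B1 B2 : Finset E} {i j k l : Fin 4}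
    (hS : G.FSys X e u v A1 A2 B1 B2 (φ i) (φ j) (φ k) (φ l)) :
    tt Finset.univ s sᶜ {i, k} {j, l} ∈ K0 := by
  refine G.fcode_pair hu hv huv he h (J := A1 ∪ B1) (J' := A2 ∪ B2)
    (G.fmeet_union hS.mA1 hS.mB1) (G.fmeet_union hS.mA2 hS.mB2) ?_ ?_ ?_
    (G.fjoin_union huv hS.dA1B1 hS.oA1 hS.oB1) (G.fjoin_union huv hS.dA2B2 hS.oA2 hS.oB2) ?_ ?_
  · rw [Finset.mem_union, not_or]
    exact ⟨hS.eA1, hS.eB1⟩
  · rw [Finset.mem_union, not_or]
    exact ⟨hS.eA2, hS.eB2⟩
  · rw [Finset.disjoint_union_left, Finset.disjoint_union_right, Finset.disjoint_union_right]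
    exact ⟨⟨hS.dAA, hS.dA1B2⟩, ⟨hS.dA2B1.symm, hS.dBB⟩⟩
  · rw [Finset.union_inter_distrib_right, hS.tA1, hS.tB1, Finset.map_insert,
      Finset.map_singleton]
    rfl
  · rw [Finset.union_inter_distrib_right, hS.tA2, hS.tB2, Finset.map_insert,
      Finset.map_singleton]
    rfl

/-- an odd subset of a set with one cut edge has the same cut edge -/
theorem fodd_sub [Fintype V] [Fintype E] {X : Finset V} {w : V} (hw : w ∈ X) {A A' : Finset E}
    {x : E} (hA : A ∩ G.cut X = {x}) (h : A' ⊆ A) (ho : G.FOdd X A' w) : A' ∩ G.cut X = {x} := by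
  have h1 := G.fodd_trace hw ho
  have h2 : A' ∩ G.cut X ⊆ {x} := by
    rw [← hA]
    exact Finset.inter_subset_inter_right h
  rcases Finset.subset_singleton_iff.1 h2 with h3 | h3
  · rw [h3, Finset.card_empty] at h1
    exact absurd h1 (by decide)
  · exact h3

/-- the cover from the link -/
theorem fcode_link [Fintype V] [Fintype E] (hG : G.IsSmallestCounterexample) {X : Finset V}
    (hX : G.IsCyclicFourCut X) {e : E} {u v : V} (hu : u ∈ X)
    (hv : v ∈ X) (huv : u ≠ v) (he : G.FEnds e u v) {D : Fin 3 → Finset E}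
    {φ : Fin 4 ↪ E} {s : Finset (Fin 4)} {K0 : Finset (Multiset (Finset (Fin 4)))}
    (h : G.FCode X e D φ s K0) {A1 A2 B1 B2 : Finset E} {i j k l : Fin 4}
    (hS : G.FSys X e u v A1 A2 B1 B2 (φ i) (φ j) (φ k) (φ l)) :
    ∃ x y : Fin 4, (x = i ∨ x = j) ∧ (y = k ∨ y = l) ∧ tt Finset.univ s sᶜ {x, y} ∅ ∈ K0 := by
  obtain ⟨A', B', P, hA', hB', oA', oB', hP, eP, jP, dPA, dPB⟩ := G.flink hG hX hu hv he hS
  have hxA : ∃ x : Fin 4, (x = i ∨ x = j) ∧ A' ∩ G.cut X = {φ x} := by
    rcases hA' with h1 | h1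
    · exact ⟨i, Or.inl rfl, G.fodd_sub hu hS.tA1 h1 oA'⟩
    · exact ⟨j, Or.inr rfl, G.fodd_sub hu hS.tA2 h1 oA'⟩
  have hyB : ∃ y : Fin 4, (y = k ∨ y = l) ∧ B' ∩ G.cut X = {φ y} := by
    rcases hB' with h1 | h1
    · exact ⟨k, Or.inl rfl, G.fodd_sub hv hS.tB1 h1 oB'⟩
    · exact ⟨l, Or.inr rfl, G.fodd_sub hv hS.tB2 h1 oB'⟩
  obtain ⟨x, hx, hxA⟩ := hxA
  obtain ⟨y, hy, hyB⟩ := hyB
  have hAA : A' ⊆ A1 ∪ A2 := by
    rcases hA' with h1 | h1
    · exact h1.trans Finset.subset_union_left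
    · exact h1.trans Finset.subset_union_right
  have hBB : B' ⊆ B1 ∪ B2 := by
    rcases hB' with h1 | h1
    · exact h1.trans Finset.subset_union_left
    · exact h1.trans Finset.subset_union_right
  have mA : G.FMeet X A' := fun f hf => G.fmeet_union hS.mA1 hS.mA2 f (hAA hf)
  have mB : G.FMeet X B' := fun f hf => G.fmeet_union hS.mB1 hS.mB2 f (hBB hf)
  have eA : e ∉ A' := fun hf => by
    rcases Finset.mem_union.1 (hAA hf) with h1 | h1
    · exact hS.eA1 h1
    · exact hS.eA2 h1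
  have eB : e ∉ B' := fun hf => by
    rcases Finset.mem_union.1 (hBB hf) with h1 | h1
    · exact hS.eB1 h1
    · exact hS.eB2 h1
  have dAB : Disjoint A' B' := by
    refine Finset.disjoint_of_subset_left hAA (Finset.disjoint_of_subset_right hBB ?_)
    rw [Finset.disjoint_union_left, Finset.disjoint_union_right, Finset.disjoint_union_right]
    exact ⟨⟨hS.dA1B1, hS.dA1B2⟩, ⟨hS.dA2B1, hS.dA2B2⟩⟩
  refine ⟨x, y, hx, hy, G.fcode_pair hu hv huv he h (J := A' ∪ B') (J' := P)
    (G.fmeet_union mA mB) (G.fmeet_inside hP) ?_ eP ?_ (G.fjoin_union huv dAB oA' oB') jP ?_ ?_⟩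
  · rw [Finset.mem_union, not_or]
    exact ⟨eA, eB⟩
  · rw [Finset.disjoint_union_left]
    exact ⟨dPA.symm, dPB.symm⟩
  · rw [Finset.union_inter_distrib_right, hxA, hyB, Finset.map_insert, Finset.map_singleton]
    rfl
  · rw [G.inside_inter_cut hP, Finset.map_empty]

/-- a bad cut for the pair `p, q` -/
theorem fcode_bad [Fintype V] [Fintype E] (hG : G.IsSmallestCounterexample) {X : Finset V}
    (hX : G.IsCyclicFourCut X) {e : E} {u v : V} (hu : u ∈ X)
    (hv : v ∈ X) (huv : u ≠ v) (he : G.FEnds e u v) {D : Fin 3 → Finset E}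
    {φ : Fin 4 ↪ E} {s : Finset (Fin 4)} (hs : Even s.card)
    (h : G.FCode X e D φ s T0) {p q : Fin 4} (hpq : p ≠ q)
    (hT : tt Finset.univ s sᶜ {p, q} ∅ ∉ T0) :
    ∃ Z ⊆ X, ∃ e' : E, u ∈ Z ∧ v ∉ Z ∧ e' ≠ e ∧ G.cut Z ∩ G.inside X = {e, e'} ∧
      (φ p ∈ G.cut Z ↔ φ q ∈ G.cut Z) := by
  have hp : φ p ∈ G.cut X := by
    rw [h.cut]
    exact Finset.mem_map_of_mem φ (Finset.mem_univ p)
  have hq : φ q ∈ G.cut X := by
    rw [h.cut]
    exact Finset.mem_map_of_mem φ (Finset.mem_univ q)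
  have hφ : φ p ≠ φ q := fun h => hpq (φ.injective h)
  rcases G.ftwo hG hX hu hv he hp hq hφ with ⟨P1, P2, h1, h2, h3, h4, h5, h6, h7, h8⟩ | h1
  · exfalso
    have m1 : G.FMeet X P1 := by
      intro f hf
      rcases Finset.mem_union.1 (h1 hf) with h9 | h9
      · exact G.fmeet_inside (Finset.Subset.refl _) f h9
      · rw [Finset.mem_insert, Finset.mem_singleton] at h9
        rcases h9 with rfl | rfl
        · exact G.fmeets_of_cut hp
        · exact G.fmeets_of_cut hq
    have t2 : P2 ∩ G.cut X = (∅ : Finset (Fin 4)).map φ := by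
      rw [G.inside_inter_cut h2, Finset.map_empty]
    rcases h8 with h8 | h8
    · have h9 := G.fcode_pair hu hv huv he h m1 (G.fmeet_inside h2) h3 h4 h5 h6 h7
        (c := ∅) (c' := ∅) (by rw [h8, Finset.map_empty]) t2
      exact (finT0 s hs).1 h9
    · have h9 := G.fcode_pair hu hv huv he h m1 (G.fmeet_inside h2) h3 h4 h5 h6 h7
        (c := {p, q}) (c' := ∅)
        (by rw [h8, Finset.map_insert, Finset.map_singleton]) t2
      exact hT h9
  · exact h1

/-- the T-side: the two remaining alternatives -/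
theorem fcode_special [Fintype V] [Fintype E] (hG : G.IsSmallestCounterexample) {X : Finset V}
    (hX : G.IsCyclicFourCut X) {e : E} {u v : V} (hu : u ∈ X)
    (hv : v ∈ X) (huv : u ≠ v) (he : G.FEnds e u v) {D : Fin 3 → Finset E}
    {φ : Fin 4 ↪ E} {s : Finset (Fin 4)} (hs : Even s.card)
    (h : G.FCode X e D φ s T0) {A1 A2 B1 B2 : Finset E} {i j k l : Fin 4}
    (hS : G.FSys X e u v A1 A2 B1 B2 (φ i) (φ j) (φ k) (φ l))
    (h1 : tt Finset.univ s sᶜ {i, k} ∅ ∉ T0) (h2 : tt Finset.univ s sᶜ {j, l} ∅ ∉ T0)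
    (h3 : tt Finset.univ s sᶜ {i, j} {k, l} ∉ T0) : False := by
  have hnd := hS.nd
  simp only [List.nodup_cons, List.mem_cons, List.not_mem_nil, or_false, not_or,
    List.nodup_nil, and_true, not_false_eq_true] at hnd
  obtain ⟨⟨hij, hik, hil⟩, ⟨hjk, hjl⟩, hkl⟩ := hnd
  have hmem : ∀ x : Fin 4, φ x ∈ G.cut X := by
    intro x
    rw [h.cut]
    exact Finset.mem_map_of_mem φ (Finset.mem_univ x)
  have hT : ({G.cut X, G.cut X} : Multiset (Finset E)) ∉ G.coverTypes X := by
    intro h4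
    rw [h.cut] at h4
    have h5 := h.types {Finset.univ, Finset.univ} (by
      have : ({Finset.univ, Finset.univ} : Multiset (Finset (Fin 4))).map (Finset.map φ) =
          {Finset.univ.map φ, Finset.univ.map φ} := by simp
      rw [this]
      exact h4)
    revert h5
    decide
  have key : ∀ x y z w : Fin 4, [φ x, φ y, φ z, φ w].Nodup →
      G.cut X = {φ x, φ y, φ z, φ w} → G.Inc (φ x) u → G.Inc (φ y) v →
      tt Finset.univ s sᶜ {x, w} {y, z} ∉ T0 → False := by
    intro x y z w hn hc hxu hyv hnT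
    obtain ⟨C, C', mC, mC', eC, eC', hi, ht⟩ := G.fspecial hG hX hn hc hT hu hv he hxu hyv
    rcases ht with ⟨t1, t2⟩ | ⟨t1, t2⟩
    · have := G.fcode_type h mC mC' eC eC' hi (c := Finset.univ) (c' := ∅)
        (by rw [t1, h.cut]) (by rw [t2, Finset.map_empty])
      exact (finT0 s hs).2 this
    · have := G.fcode_type h mC mC' eC eC' hi (c := {x, w}) (c' := {y, z})
        (by rw [t1, Finset.map_insert, Finset.map_singleton])
        (by rw [t2, Finset.map_insert, Finset.map_singleton])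
      exact hnT this
  obtain ⟨Z, hZ, e', z1, z2, z3, z4, z5⟩ := G.fcode_bad hG hX hu hv huv he hs h
    (fun h => hik (congrArg φ h)) h1
  obtain ⟨W, hW, e'', w1, w2, w3, w4, w5⟩ := G.fcode_bad hG hX hu hv huv he hs h
    (fun h => hjl (congrArg φ h)) h2
  have a1 := G.fbad hG hX hu hv he hS hZ z1 z2 z3 z4 z5
  have a2 := G.fbad hG hX hu hv he (G.fsys_swapB (G.fsys_swapA hS)) hW w1 w2 w3 w4 w5
  rcases a1 with a1 | a1
  · rcases a2 with a2 | a2
    · exact G.finc_one hG hX hu (hmem j) (hmem i) (Ne.symm hij) a1 a2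
    · refine key j k l i ?_ ?_ a1 a2 ?_
      · simp only [List.nodup_cons, List.mem_cons, List.not_mem_nil, or_false, not_or,
          List.nodup_nil, and_true, not_false_eq_true]
        exact ⟨⟨hjk, hjl, Ne.symm hij⟩, ⟨hkl, Ne.symm hik⟩, Ne.symm hil⟩
      · rw [hS.cut]
        ext x
        simp only [Finset.mem_insert, Finset.mem_singleton]
        tauto
      · rw [Finset.pair_comm j i]
        exact h3
  · rcases a2 with a2 | a2
    · refine key i l k j ?_ ?_ a2 a1 ?_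
      · simp only [List.nodup_cons, List.mem_cons, List.not_mem_nil, or_false, not_or,
          List.nodup_nil, and_true, not_false_eq_true]
        exact ⟨⟨hil, hik, hij⟩, ⟨Ne.symm hkl, Ne.symm hjl⟩, Ne.symm hjk⟩
      · rw [hS.cut]
        ext x
        simp only [Finset.mem_insert, Finset.mem_singleton]
        tauto
      · rw [Finset.pair_comm l k]
        exact h3
    · exact G.finc_one hG hX hv (hmem l) (hmem k) (Ne.symm hkl) a1 a2

/-- an inner zero edge is impossible -/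
theorem finner [Fintype V] [Fintype E] (hG : G.IsSmallestCounterexample) {X : Finset V}
    (hX : G.IsCyclicFourCut X) {e : E} {u v : V} (hu : u ∈ X)
    (hv : v ∈ X) (huv : u ≠ v) (he : G.FEnds e u v) {D : Fin 3 → Finset E}
    {φ : Fin 4 ↪ E} {s : Finset (Fin 4)} (hs : Even s.card)
    {K0 : Finset (Multiset (Finset (Fin 4)))} (hK : K0 = S0 ∨ K0 = T0)
    (h : G.FCode X e D φ s K0) : False := by
  obtain ⟨A1, A2, B1, B2, i0, j0, k0, l0, hS⟩ := G.fsys_exists hG hX hu hv he
  have hmem : ∀ x ∈ G.cut X, ∃ y : Fin 4, φ y = x := by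
    intro x hx
    rw [h.cut, Finset.mem_map] at hx
    obtain ⟨y, -, hy⟩ := hx
    exact ⟨y, hy⟩
  obtain ⟨i, rfl⟩ := hmem i0 (by rw [hS.cut]; simp)
  obtain ⟨j, rfl⟩ := hmem j0 (by rw [hS.cut]; simp)
  obtain ⟨k, rfl⟩ := hmem k0 (by rw [hS.cut]; simp)
  obtain ⟨l, rfl⟩ := hmem l0 (by rw [hS.cut]; simp)
  have hnd : [i, j, k, l].Nodup := by
    have h1 : ([i, j, k, l].map φ).Nodup := hS.nd
    exact List.Nodup.of_map φ h1
  have c1 := G.fcode_split hu hv huv he h hS
  have c2 := G.fcode_split hu hv huv he h (G.fsys_swapB hS)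
  obtain ⟨x, y, hx, hy, c3⟩ := G.fcode_link hG hX hu hv huv he h hS
  rcases hK with rfl | rfl
  · rcases finS s hs i j k l hnd with h1 | h1 | h1
    · exact h1 c1
    · exact h1 c2
    · exact h1 x y hx hy c3
  · rcases finT s hs i j k l hnd with h1 | h1 | h1 | ⟨h1, h2, h3⟩ | ⟨h1, h2, h3⟩
    · exact h1 c1
    · exact h1 c2
    · exact h1 x y hx hy c3
    · exact G.fcode_special hG hX hu hv huv he hs h hS h1 h2 h3
    · refine G.fcode_special hG hX hu hv huv he hs h (G.fsys_swapB hS) h1 h2 ?_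
      rw [Finset.pair_comm l k]
      exact h3

/-! ### A zero edge in the cut -/

theorem fin4_univ : ∀ i j k l : Fin 4, [i, j, k, l].Nodup →
    (Finset.univ : Finset (Fin 4)) = {i, j, k, l} := by decide

theorem fcutZero [Fintype V] [Fintype E] (hG : G.IsSmallestCounterexample) {X : Finset V}
    (hX : G.IsCyclicFourCut X) {D : Fin 3 → Finset E} {φ : Fin 4 ↪ E} {i : Fin 4}
    (hB : G.FBase X (φ i) D) (hcut : G.cut X = Finset.univ.map φ)
    {K0 : Finset (Multiset (Finset (Fin 4)))} (hK : K0 = S0 ∨ K0 = T0)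
    (types : ∀ t, t.map (Finset.map φ) ∈ G.coverTypes X → t ∈ K0) : False := by
  set d : Fin 3 → Finset (Fin 4) := fun r => Finset.univ.filter fun x => φ x ∈ D r with hd
  have hmem : ∀ r x, (x ∈ d r ↔ φ x ∈ D r) := by
    intro r x
    rw [hd]
    simp
  have hcm : ∀ x, φ x ∈ G.cut X := by
    intro x
    rw [hcut]
    exact Finset.mem_map_of_mem φ (Finset.mem_univ x)
  have htr : ∀ r, D r ∩ G.cut X = (d r).map φ := by
    intro r
    ext f
    rw [hcut, Finset.mem_inter, Finset.mem_map, Finset.mem_map]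
    constructor
    · rintro ⟨h1, x, -, rfl⟩
      exact ⟨x, (hmem r x).2 h1, rfl⟩
    · rintro ⟨x, h1, rfl⟩
      exact ⟨(hmem r x).1 h1, x, Finset.mem_univ x, rfl⟩
  have hev : ∀ r, Even (d r).card := by
    intro r
    have := G.even_inter_cut X (D r) (hB.ev r)
    rw [htr, Finset.card_map] at this
    exact this
  have hi : ∀ r, i ∉ d r := fun r h => hB.ne r ((hmem r i).1 h)
  have hx : ∀ x, x ≠ i → ∃ j, ∀ r, (x ∈ d r ↔ r ≠ j) := by
    intro x hxi
    obtain ⟨j, hj⟩ := hB.two (φ x) (G.fmeets_of_cut (hcm x)) (fun h => hxi (φ.injective h))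
    exact ⟨j, fun r => (hmem r x).trans (hj r)⟩
  have hbase : bBase i (d 0) (d 1) (d 2) = true := by
    unfold bBase
    simp only [Bool.and_eq_true, decide_eq_true_eq]
    refine ⟨⟨⟨⟨⟨hev 0, hev 1⟩, hev 2⟩, ?_⟩, ?_⟩, ?_⟩
    · intro x
      by_cases hxi : x = i
      · subst hxi
        have := hi 0
        have := hi 1
        have := hi 2
        tauto
      · obtain ⟨j, hj⟩ := hx x hxi
        rw [hj 0, hj 1, hj 2]
        rcases fin3_cases j with rfl | rfl | rfl <;> simp [hxi]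
    · intro x hxi
      obtain ⟨j, hj⟩ := hx x hxi
      rw [hj 0, hj 1, hj 2]
      rcases fin3_cases j with rfl | rfl | rfl <;> simp
    · rw [Finset.mem_union, Finset.mem_union]
      have := hi 0
      have := hi 1
      have := hi 2
      tauto
  have hfin : ∃ j k l : Fin 4, [i, j, k, l].Nodup ∧
      tt (d 0) (d 1) (d 2) {i, k} {i, l} ∉ K0 := by
    rcases hK with rfl | rfl
    · exact finSc_aux i _ _ _ hbase
    · exact finTc_aux i _ _ _ hbase
  obtain ⟨j, k, l, hnd, hnot⟩ := hfin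
  have hnd' : [φ i, φ j, φ k, φ l].Nodup := by
    have h1 : ([i, j, k, l].map φ).Nodup := hnd.map φ.injective
    exact h1
  have hcut' : G.cut X = {φ i, φ j, φ k, φ l} := by
    rw [hcut, fin4_univ i j k l hnd]
    simp only [Finset.map_insert, Finset.map_singleton]
  obtain ⟨C, C', mC, mC', eC, eC', hi', t1, t2⟩ := G.fcutEdge hG hX hnd' hcut'
  have h1 := G.ftype hB mC mC' eC eC' hi'
  have e1 : ({φ i, φ k} : Finset E) = ({i, k} : Finset (Fin 4)).map φ := by
    rw [Finset.map_insert, Finset.map_singleton]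
  have e2 : ({φ i, φ l} : Finset E) = ({i, l} : Finset (Fin 4)).map φ := by
    rw [Finset.map_insert, Finset.map_singleton]
  rw [htr, htr, htr, t1, t2, e1, e2, tt_map] at h1
  exact hnot (types _ h1)

/-! ### The theorem -/

theorem two_zeros [Fintype V] [Fintype E] (hG : G.IsSmallestCounterexample) (X : Finset V)
    (hX : G.IsCyclicFourCut X) (P Q : Finset E) (hP : ∀ v ∈ X, Even (G.deg P v))
    (hQ : ∀ v ∈ X, Even (G.deg Q v)) :
    2 ≤ (Finset.univ.filter fun e => G.Meets X e ∧ e ∉ P ∧ e ∉ Q).card := by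
  by_contra hlt
  have hle : (Finset.univ.filter fun e => G.Meets X e ∧ e ∉ P ∧ e ∉ Q).card ≤ 1 := by omega
  rw [Finset.card_le_one] at hle
  obtain ⟨D, hD1, hD2, hD3, hD4⟩ := G.fclasses hP hQ
  by_cases h0 : ∃ e, G.Meets X e ∧ e ∉ P ∧ e ∉ Q
  · obtain ⟨e, he1, he2, he3⟩ := h0
    have hB : G.FBase X e D := by
      refine ⟨hD1, hD2, hD3 e he2 he3, fun f hf hfe => hD4 f hf ?_⟩
      by_contra hno
      rw [not_or] at hno
      refine hfe (hle f ?_ e ?_)
      · exact Finset.mem_filter.2 ⟨Finset.mem_univ _, hf, hno.1, hno.2⟩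
      · exact Finset.mem_filter.2 ⟨Finset.mem_univ _, he1, he2, he3⟩
    obtain ⟨a, b, c, d, hnd, hcut, h⟩ := G.main_one hG X hX
    have hinj : Function.Injective (![a, b, c, d] : Fin 4 → E) := by
      simp only [List.nodup_cons, List.mem_cons, List.not_mem_nil, or_false, not_or,
        List.nodup_nil, and_true, not_false_eq_true] at hnd
      obtain ⟨⟨hab, hac, had⟩, ⟨hbc, hbd⟩, hcd⟩ := hnd
      intro x y hxy
      fin_cases x <;> fin_cases y <;>
        simp_all [Ne.symm hab, Ne.symm hac, Ne.symm had, Ne.symm hbc, Ne.symm hbd, Ne.symm hcd]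
    set φ : Fin 4 ↪ E := ⟨![a, b, c, d], hinj⟩ with hφ
    have hcut' : G.cut X = Finset.univ.map φ := by
      rw [hcut]
      have h1 : (Finset.univ : Finset (Fin 4)) = {0, 1, 2, 3} := by decide
      rw [h1]
      simp only [Finset.map_insert, Finset.map_singleton]
      rfl
    have hK : ∃ K0 : Finset (Multiset (Finset (Fin 4))), (K0 = S0 ∨ K0 = T0) ∧
        ∀ t, t.map (Finset.map φ) ∈ G.coverTypes X → t ∈ K0 := by
      rcases h with ⟨h1, -, -⟩ | ⟨h1, -, -⟩
      · refine ⟨S0, Or.inl rfl, fun t ht => ?_⟩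
        rw [h1] at ht
        exact (mem_S0_iff φ t).1 ht
      · refine ⟨T0, Or.inr rfl, fun t ht => ?_⟩
        rw [h1] at ht
        exact (mem_T0_iff φ t).1 ht
    obtain ⟨K0, hK0, types⟩ := hK
    by_cases hec : e ∈ G.cut X
    · rw [hcut', Finset.mem_map] at hec
      obtain ⟨i, -, rfl⟩ := hec
      exact G.fcutZero hG hX hB hcut' hK0 types
    · obtain ⟨D', hB', t0, t2⟩ := G.fbase_trace hX.2.2.1 hec hB
      set s : Finset (Fin 4) := Finset.univ.filter fun x => φ x ∈ D' 1 with hs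
      have hmem : ∀ x, (x ∈ s ↔ φ x ∈ D' 1) := by
        intro x
        rw [hs]
        simp
      have t1 : D' 1 ∩ G.cut X = s.map φ := by
        ext f
        rw [hcut', Finset.mem_inter, Finset.mem_map, Finset.mem_map]
        constructor
        · rintro ⟨h1, x, -, rfl⟩
          exact ⟨x, (hmem x).2 h1, rfl⟩
        · rintro ⟨x, h1, rfl⟩
          exact ⟨(hmem x).1 h1, x, Finset.mem_univ x, rfl⟩
      have t2' : D' 2 ∩ G.cut X = sᶜ.map φ := by
        rw [t2, t1, hcut']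
        ext f
        simp only [Finset.mem_sdiff, Finset.mem_map, Finset.mem_univ, true_and,
          Finset.mem_compl]
        constructor
        · rintro ⟨⟨x, rfl⟩, h2⟩
          exact ⟨x, fun h3 => h2 ⟨x, h3, rfl⟩, rfl⟩
        · rintro ⟨x, h2, rfl⟩
          refine ⟨⟨x, rfl⟩, ?_⟩
          rintro ⟨y, hy, hyx⟩
          exact h2 (φ.injective hyx ▸ hy)
      have hsev : Even s.card := by
        have := G.even_inter_cut X (D' 1) (hB'.ev 1)
        rw [t1, Finset.card_map] at this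
        exact this
      have hcode : G.FCode X e D' φ s K0 :=
        ⟨hB', hcut', by rw [t0, hcut'], t1, t2', types⟩
      have hin : G.fst e ∈ X ∧ G.snd e ∈ X := by
        rw [Inner.mem_cut G] at hec
        unfold Meets at he1
        tauto
      exact G.finner hG hX hin.1 hin.2 (G.no_loop hG e) (Or.inl ⟨rfl, rfl⟩) hsev hK0 hcode
  · refine G.fzero hG hX hD1 hD2 fun f hf => hD4 f hf ?_
    by_contra hno
    rw [not_or] at hno
    exact h0 ⟨f, hf, hno.1, hno.2⟩

end MGraph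
end CDCut
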