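import Pool.Agent.CDFlow.Defs

/-!
# Module `Menger`: edge-disjoint joins (Menger's theorem, mod 2 form)

**`menger`.**  `A` a set of edges, `s ≠ t` vertices, every cut `δ(Z)` with `s ∈ Z`, `t ∉ Z` contains
at least `k` edges of `A`.  Then `A` contains `k` pairwise disjoint sets `J i`, each with odd degree
exactly at `s` and `t`.

**Proof** by strong induction on `|A|`, for all graphs `G` on the same types `V`, `E` and all `k`.
`k = 0` is trivial, so let `k ≥ 1`.  Call `Z` with `s ∈ Z`, `t ∉ Z`, `|A ∩ δ(Z)| = k` tight.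
(1) If some edge `e ∈ A` is in no tight cut, replace `A` by `A \ {e}`.
(2) Suppose a tight `Z` has an edge of `A` with both ends in `Z` and an edge of `A` with both ends
outside `Z`.  Let `G1` be `G` with `Z` contracted to `s` (`fst' e = if fst e ∈ Z then s else fst e`,
same for `snd`), `A1` the edges of `A` which are not inside `Z`; `G2` is `G` with the complement of
`Z` contracted to `t`, `A2` the edges of `A` not inside the complement.  Both satisfy the cut
condition (a cut of `G1` separating `s` and `t` is the cut of its preimage), and `A1, A2` are smaller,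
so there are disjoint joins `J1 i ⊆ A1` in `G1`, `J2 i ⊆ A2` in `G2`.  Every `J1 i` has an odd number
of edges in `δ(Z)` (parity of the degree of `s` in `G1`, up to twice the loops), and so has every
`J2 i`; as there are `k` disjoint sets and `k` edges of `A` in `δ(Z)`, each `J1 i` and each `J2 i`
contains exactly one of them.  So there is a permutation `σ` such that `J1 i` and `J2 (σ i)`
contain the same edge of `δ(Z)`; take `J i = J1 i ∪ J2 (σ i)`.
(3) Otherwise every edge of `A` is in a tight cut `δ(Z)` such that one of the two sides has no edge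
of `A` inside.  Claim: every edge of `A` is incident with `s` or `t`.  If there is no edge of `A`
inside `Z` and the end of `e` in `Z` is `w ≠ s`, then `δ(Z \ {w})` has at most `k - 1` edges of `A`
(all edges of `A` at `w` are in `δ(Z)` and not in `δ(Z \ {w})`), a contradiction.  Same on the other
side with `t`.  If an edge `f ∈ A` joins `s` and `t`, take `J = {f}`, and `A \ {f}` with `k - 1`
(`f` is in every cut).  Otherwise, if some `w ≠ s, t` is joined to `s` by `f ∈ A` and to `t` by
`g ∈ A`, take `J = {f, g}`, and `A \ {f, g}` with `k - 1` (exactly one of `f, g` is in each cut).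
Otherwise `Z = {s} ∪ {w : w is joined to s by an edge of A}` has `A ∩ δ(Z) = ∅`, contradicting
`k ≥ 1`.  (Loops of `A` can be removed by (1).)

Any other proof is fine.  Only the statements of `menger` and `menger_map` matter.

**`menger_map`** is `menger` for the graph `⟨π ∘ fst, π ∘ snd⟩` on the same types: the degree of `w`
in it is the sum of the degrees over the fibre of `π` (`deg_map`), and its cut of `Z` is the cut of
the preimage of `Z`.
-/

open scoped Classical

namespace CDCut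
namespace MGraph

variable {V E : Type} (G : MGraph V E)

/-- every cut separating `s` and `t` has at least `k` edges of `A` -/
def MCond [Fintype E] (A : Finset E) (s t : V) (k : ℕ) : Prop :=
  ∀ Z : Finset V, s ∈ Z → t ∉ Z → k ≤ (A ∩ G.cut Z).card

/-- `A` contains `k` disjoint joins of `s` and `t` -/
def MSol (A : Finset E) (s t : V) (k : ℕ) : Prop :=
  ∃ J : Fin k → Finset E, (∀ i, J i ⊆ A) ∧ (∀ i j, i ≠ j → Disjoint (J i) (J j)) ∧
      ∀ i, ∀ w, (Even (G.deg (J i) w) ↔ (w ≠ s ∧ w ≠ t))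

theorem msol_zero (A : Finset E) (s t : V) : G.MSol A s t 0 :=
  ⟨fun _ => ∅, fun i => i.elim0, fun i => i.elim0, fun i => i.elim0⟩

theorem msol_mono {A B : Finset E} (h : A ⊆ B) {s t : V} {k : ℕ} (hA : G.MSol A s t k) :
    G.MSol B s t k := by
  obtain ⟨J, h1, h2, h3⟩ := hA
  exact ⟨J, fun i => (h1 i).trans h, h2, h3⟩

theorem msol_cons {A D : Finset E} (hD : D ⊆ A) {s t : V} {k : ℕ}
    (hD2 : ∀ w, (Even (G.deg D w) ↔ (w ≠ s ∧ w ≠ t))) (hA : G.MSol (A \ D) s t k) :
    G.MSol A s t (k + 1) := by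
  obtain ⟨J, h1, h2, h3⟩ := hA
  refine ⟨Fin.cons D J, ?_, ?_, ?_⟩
  · intro i
    refine Fin.cases ?_ (fun i => ?_) i
    · simpa using hD
    · simpa using (h1 i).trans Finset.sdiff_subset
  · intro i j
    refine Fin.cases ?_ (fun i => ?_) i
    · refine Fin.cases ?_ (fun j => ?_) j
      · intro h
        exact absurd rfl h
      · intro _
        simp only [Fin.cons_zero, Fin.cons_succ]
        exact (Finset.disjoint_of_subset_left (h1 j) Finset.sdiff_disjoint).symm
    · refine Fin.cases ?_ (fun j => ?_) j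
      · intro _
        simp only [Fin.cons_zero, Fin.cons_succ]
        exact Finset.disjoint_of_subset_left (h1 i) Finset.sdiff_disjoint
      · intro h
        simp only [Fin.cons_succ]
        exact h2 i j (fun h' => h (by rw [h']))
  · intro i
    refine Fin.cases ?_ (fun i => ?_) i
    · simpa using hD2
    · simpa using h3 i

/-- contract `W` to `r` -/
noncomputable def mcontr (W : Finset V) (r : V) : MGraph V E :=
  ⟨fun e => if G.fst e ∈ W then r else G.fst e, fun e => if G.snd e ∈ W then r else G.snd e⟩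

theorem mcontr_cut [Fintype V] [Fintype E] (W : Finset V) (r : V) (Z : Finset V) :
    (G.mcontr W r).cut Z = G.cut (Finset.univ.filter fun v => (if v ∈ W then r else v) ∈ Z) := by
  ext e
  simp only [cut, mcontr, Finset.mem_filter, Finset.mem_univ, true_and]

theorem mcontr_deg (W : Finset V) (r : V) (J : Finset E) (w : V) (hr : r ∈ W) (hw : w ∉ W) :
    (G.mcontr W r).deg J w = G.deg J w := by
  have h : ∀ x : V, ((if x ∈ W then r else x) = w) ↔ x = w := by
    intro x
    split_ifs with hx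
    · constructor
      · rintro rfl
        exact absurd hr hw
      · rintro rfl
        exact absurd hx hw
    · rfl
  simp only [deg, mcontr, h]

theorem mcontr_odd [Fintype V] [Fintype E] (W : Finset V) (r : V) (hr : r ∈ W) (J : Finset E)
    (h : ¬ Even ((G.mcontr W r).deg J r)) : (J ∩ G.cut W).Nonempty := by
  have h1 := (G.mcontr W r).even_inter_cut_iff {r} J
  rw [Finset.sum_singleton, mcontr_cut] at h1
  have h2 : (Finset.univ.filter fun v => (if v ∈ W then r else v) ∈ ({r} : Finset V)) = W := by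
    ext v
    rw [Finset.mem_filter, Finset.mem_singleton]
    constructor
    · rintro ⟨-, h⟩
      by_contra hv
      rw [if_neg hv] at h
      exact hv (h ▸ hr)
    · intro hv
      exact ⟨Finset.mem_univ _, if_pos hv⟩
  rw [h2] at h1
  rw [Finset.nonempty_iff_ne_empty]
  intro h3
  rw [h3] at h1
  exact h (h1.1 (by simp))

theorem mcond_contr [Fintype V] [Fintype E] (A : Finset E) (s t : V) (k : ℕ) (W : Finset V) (r : V)
    (hs : (if s ∈ W then r else s) = s) (ht : (if t ∈ W then r else t) = t)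
    (h : G.MCond A s t k) :
    (G.mcontr W r).MCond (A.filter fun e => ¬ (G.fst e ∈ W ∧ G.snd e ∈ W)) s t k := by
  intro Y hsY htY
  rw [mcontr_cut]
  have h1 := h (Finset.univ.filter fun v => (if v ∈ W then r else v) ∈ Y)
    (by rw [Finset.mem_filter, hs]; exact ⟨Finset.mem_univ _, hsY⟩)
    (by rw [Finset.mem_filter, ht]; exact fun h => htY h.2)
  refine h1.trans (Finset.card_le_card ?_)
  intro e he
  rw [Finset.mem_inter] at he ⊢
  refine ⟨Finset.mem_filter.2 ⟨he.1, ?_⟩, he.2⟩
  rintro ⟨h2, h3⟩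
  have h4 := he.2
  rw [Inner.mem_cut G, Finset.mem_filter, Finset.mem_filter, if_pos h2, if_pos h3] at h4
  have h5 : G.fst e ∈ Finset.univ := Finset.mem_univ _
  have h6 : G.snd e ∈ Finset.univ := Finset.mem_univ _
  tauto

/-- `k` disjoint sets meeting a set of `k` elements -/
theorem mcount {k : ℕ} (c : Finset E) (hc : c.card = k) (J : Fin k → Finset E)
    (hJ : ∀ i j, i ≠ j → Disjoint (J i) (J j)) (hn : ∀ i, (J i ∩ c).Nonempty) :
    ∃ e : Fin k → E, Function.Injective e ∧ (∀ i, J i ∩ c = {e i}) ∧ ∀ x ∈ c, ∃ i, e i = x := by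
  choose e he using hn
  have he1 : ∀ i, e i ∈ J i := fun i => (Finset.mem_inter.1 (he i)).1
  have he2 : ∀ i, e i ∈ c := fun i => (Finset.mem_inter.1 (he i)).2
  have hinj : Function.Injective e := by
    intro i j hij
    by_contra hne
    exact Finset.disjoint_left.1 (hJ i j hne) (he1 i) (hij ▸ he1 j)
  have himg : Finset.univ.image e = c := by
    apply Finset.eq_of_subset_of_card_le
    · intro x hx
      obtain ⟨i, -, rfl⟩ := Finset.mem_image.1 hx
      exact he2 i
    · rw [Finset.card_image_of_injective _ hinj, Finset.card_univ, Fintype.card_fin, hc]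
  have hsurj : ∀ x ∈ c, ∃ i, e i = x := by
    intro x hx
    rw [← himg] at hx
    obtain ⟨i, -, h⟩ := Finset.mem_image.1 hx
    exact ⟨i, h⟩
  refine ⟨e, hinj, ?_, hsurj⟩
  intro i
  ext x
  rw [Finset.mem_inter, Finset.mem_singleton]
  constructor
  · rintro ⟨h1, h2⟩
    obtain ⟨j, rfl⟩ := hsurj x h2
    by_contra hne
    have : i ≠ j := fun h => hne (by rw [h])
    exact Finset.disjoint_left.1 (hJ i j this) h1 (he1 j)
  · rintro rfl
    exact ⟨he1 i, he2 i⟩

theorem mdeg_union_left (J K : Finset E) (w : V)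
    (h : ∀ e ∈ K, e ∉ J → G.fst e ≠ w ∧ G.snd e ≠ w) : G.deg (J ∪ K) w = G.deg J w := by
  have h1 : (J ∪ K).filter (fun e => G.fst e = w) = J.filter fun e => G.fst e = w := by
    ext e
    simp only [Finset.mem_filter, Finset.mem_union]
    constructor
    · rintro ⟨h1 | h1, h2⟩
      · exact ⟨h1, h2⟩
      · by_contra h3
        exact (h e h1 fun h5 => h3 ⟨h5, h2⟩).1 h2
    · rintro ⟨h1, h2⟩
      exact ⟨Or.inl h1, h2⟩
  have h2 : (J ∪ K).filter (fun e => G.snd e = w) = J.filter fun e => G.snd e = w := by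
    ext e
    simp only [Finset.mem_filter, Finset.mem_union]
    constructor
    · rintro ⟨h1 | h1, h2⟩
      · exact ⟨h1, h2⟩
      · by_contra h3
        exact (h e h1 fun h5 => h3 ⟨h5, h2⟩).2 h2
    · rintro ⟨h1, h2⟩
      exact ⟨Or.inl h1, h2⟩
  unfold deg
  rw [h1, h2]

theorem menger_glue [Fintype V] [Fintype E] (A : Finset E) (s t : V) (k : ℕ) (Z : Finset V)
    (hs : s ∈ Z) (ht : t ∉ Z) (hk : (A ∩ G.cut Z).card = k)
    (h1 : (G.mcontr Z s).MSol (A.filter fun e => ¬ (G.fst e ∈ Z ∧ G.snd e ∈ Z)) s t k)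
    (h2 : (G.mcontr Zᶜ t).MSol (A.filter fun e => ¬ (G.fst e ∈ Zᶜ ∧ G.snd e ∈ Zᶜ)) s t k) :
    G.MSol A s t k := by
  obtain ⟨J1, hA1, hd1, hj1⟩ := h1
  obtain ⟨J2, hA2, hd2, hj2⟩ := h2
  have hn1 : ∀ i, (J1 i ∩ (A ∩ G.cut Z)).Nonempty := by
    intro i
    obtain ⟨e, he⟩ := G.mcontr_odd Z s hs (J1 i) (by rw [hj1 i s]; exact fun h => h.1 rfl)
    rw [Finset.mem_inter] at he
    exact ⟨e, Finset.mem_inter.2
      ⟨he.1, Finset.mem_inter.2 ⟨(Finset.mem_filter.1 (hA1 i he.1)).1, he.2⟩⟩⟩
  have hn2 : ∀ i, (J2 i ∩ (A ∩ G.cut Z)).Nonempty := by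
    intro i
    obtain ⟨e, he⟩ := G.mcontr_odd Zᶜ t (Finset.mem_compl.2 ht) (J2 i)
      (by rw [hj2 i t]; exact fun h => h.2 rfl)
    rw [Finset.mem_inter, G.cut_compl] at he
    exact ⟨e, Finset.mem_inter.2
      ⟨he.1, Finset.mem_inter.2 ⟨(Finset.mem_filter.1 (hA2 i he.1)).1, he.2⟩⟩⟩
  obtain ⟨e1, hi1, hc1, hs1⟩ := mcount _ hk J1 hd1 hn1
  obtain ⟨e2, hi2, hc2, hs2⟩ := mcount _ hk J2 hd2 hn2
  have hm1' : ∀ i, e1 i ∈ J1 i ∩ (A ∩ G.cut Z) := fun i => by
    rw [hc1]
    exact Finset.mem_singleton_self _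
  have hσ : ∀ i, ∃ j, e2 j = e1 i := fun i => hs2 _ (Finset.mem_inter.1 (hm1' i)).2
  choose σ hσ using hσ
  have hσi : Function.Injective σ := by
    intro i j h
    apply hi1
    rw [← hσ i, ← hσ j, h]
  have hm1 : ∀ i e, e ∈ J1 i → e ∈ G.cut Z → e = e1 i := by
    intro i e h3 h4
    have h5 : e ∈ J1 i ∩ (A ∩ G.cut Z) :=
      Finset.mem_inter.2 ⟨h3, Finset.mem_inter.2 ⟨(Finset.mem_filter.1 (hA1 i h3)).1, h4⟩⟩
    rw [hc1, Finset.mem_singleton] at h5
    exact h5
  have hm2 : ∀ i e, e ∈ J2 (σ i) → e ∈ G.cut Z → e = e1 i := by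
    intro i e h3 h4
    have h5 : e ∈ J2 (σ i) ∩ (A ∩ G.cut Z) :=
      Finset.mem_inter.2 ⟨h3, Finset.mem_inter.2 ⟨(Finset.mem_filter.1 (hA2 _ h3)).1, h4⟩⟩
    rw [hc2, Finset.mem_singleton, hσ] at h5
    exact h5
  have he1 : ∀ i, e1 i ∈ J1 i := fun i => (Finset.mem_inter.1 (hm1' i)).1
  have he2 : ∀ i, e1 i ∈ J2 (σ i) := by
    intro i
    have h3 : e2 (σ i) ∈ J2 (σ i) ∩ (A ∩ G.cut Z) := by
      rw [hc2]
      exact Finset.mem_singleton_self _
    rw [hσ] at h3
    exact (Finset.mem_inter.1 h3).1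
  have hx : ∀ i j, i ≠ j → Disjoint (J1 i) (J2 (σ j)) := by
    intro i j hij
    rw [Finset.disjoint_left]
    intro e h3 h4
    have hcut : e ∈ G.cut Z := by
      have h5 := (Finset.mem_filter.1 (hA1 i h3)).2
      have h6 := (Finset.mem_filter.1 (hA2 _ h4)).2
      rw [Finset.mem_compl, Finset.mem_compl] at h6
      rw [Inner.mem_cut G]
      tauto
    exact hij (hi1 ((hm1 i e h3 hcut).symm.trans (hm2 j e h4 hcut)))
  refine ⟨fun i => J1 i ∪ J2 (σ i), ?_, ?_, ?_⟩
  · intro i
    exact Finset.union_subset ((hA1 i).trans (Finset.filter_subset _ _))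
      ((hA2 _).trans (Finset.filter_subset _ _))
  · intro i j hij
    rw [Finset.disjoint_union_left, Finset.disjoint_union_right, Finset.disjoint_union_right]
    exact ⟨⟨hd1 i j hij, hx i j hij⟩,
      ⟨(hx j i hij.symm).symm, hd2 _ _ (fun h => hij (hσi h))⟩⟩
  · intro i w
    by_cases hw : w ∈ Z
    · have h3 : G.deg (J1 i ∪ J2 (σ i)) w = (G.mcontr Zᶜ t).deg (J2 (σ i)) w := by
        rw [Finset.union_comm, G.mdeg_union_left (J2 (σ i)) (J1 i) w ?_]
        · exact (G.mcontr_deg Zᶜ t _ w (Finset.mem_compl.2 ht)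
            (by rw [Finset.mem_compl]; exact fun h => h hw)).symm
        · intro e h3 h4
          have h5 := (Finset.mem_filter.1 (hA1 i h3)).2
          have h6 : e ∉ G.cut Z := fun h => h4 (by rw [hm1 i e h3 h]; exact he2 i)
          have h7 := Inner.notMem_cut G h6
          constructor
          · intro h8
            rw [h8] at h5 h7
            exact h5 ⟨hw, h7.1 hw⟩
          · intro h8
            rw [h8] at h5 h7
            exact h5 ⟨h7.2 hw, hw⟩
      show Even (G.deg (J1 i ∪ J2 (σ i)) w) ↔ _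
      rw [h3]
      exact hj2 _ w
    · have h3 : G.deg (J1 i ∪ J2 (σ i)) w = (G.mcontr Z s).deg (J1 i) w := by
        rw [G.mdeg_union_left (J1 i) (J2 (σ i)) w ?_]
        · exact (G.mcontr_deg Z s _ w hs hw).symm
        · intro e h3 h4
          have h5 := (Finset.mem_filter.1 (hA2 _ h3)).2
          rw [Finset.mem_compl, Finset.mem_compl] at h5
          have h6 : e ∉ G.cut Z := fun h => h4 (by rw [hm2 i e h3 h]; exact he1 i)
          have h7 := Inner.notMem_cut G h6
          constructor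
          · intro h8
            rw [h8] at h5 h7
            exact h5 ⟨hw, fun h => hw (h7.2 h)⟩
          · intro h8
            rw [h8] at h5 h7
            exact h5 ⟨fun h => hw (h7.1 h), hw⟩
      show Even (G.deg (J1 i ∪ J2 (σ i)) w) ↔ _
      rw [h3]
      exact hj1 _ w

theorem merase_sub [Fintype E] (A : Finset E) (W : Finset V)
    (hW : ∀ f ∈ A, ¬ (G.fst f ∈ W ∧ G.snd f ∈ W)) (e : E) (heW : e ∈ G.cut W) (w : V)
    (hw : w ∈ W) (hwe : G.fst e = w ∨ G.snd e = w) :
    A ∩ G.cut (W.erase w) ⊆ (A ∩ G.cut W).erase e := by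
  intro f hf
  rw [Finset.mem_inter] at hf
  have h1 := hW f hf.1
  have h2 := hf.2
  rw [Inner.mem_cut G, Finset.mem_erase, Finset.mem_erase] at h2
  rw [Finset.mem_erase, Finset.mem_inter, Inner.mem_cut G]
  rw [Inner.mem_cut G] at heW
  refine ⟨?_, hf.1, ?_⟩
  · rintro rfl
    rcases hwe with rfl | rfl <;> tauto
  · tauto

theorem mends_even {f : E} {a b : V} (h : G.FEnds f a b) (hab : a ≠ b) (v : V) :
    Even (G.deg {f} v) ↔ (v ≠ a ∧ v ≠ b) := by
  rw [Bridge_even_singleton]
  rcases h with ⟨h1, h2⟩ | ⟨h1, h2⟩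
  · rw [h1, h2]
    by_cases h3 : a = v
    · subst h3
      simp [Ne.symm hab]
    · by_cases h4 : b = v
      · subst h4
        simp [hab]
      · simp [h3, h4, Ne.symm h3, Ne.symm h4]
  · rw [h1, h2]
    by_cases h3 : a = v
    · subst h3
      simp [Ne.symm hab]
    · by_cases h4 : b = v
      · subst h4
        simp [hab]
      · simp [h3, h4, Ne.symm h3, Ne.symm h4]

theorem mcond_sdiff [Fintype E] (A D : Finset E) (s t : V) (k : ℕ) (h : G.MCond A s t (k + 1))
    (hD : ∀ Z : Finset V, s ∈ Z → t ∉ Z → (D ∩ G.cut Z).card ≤ 1) : G.MCond (A \ D) s t k := by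
  intro Z hs ht
  have h1 := h Z hs ht
  have h2 := hD Z hs ht
  have h3 : A ∩ G.cut Z ⊆ ((A \ D) ∩ G.cut Z) ∪ (D ∩ G.cut Z) := by
    intro e he
    rw [Finset.mem_inter] at he
    rw [Finset.mem_union, Finset.mem_inter, Finset.mem_inter, Finset.mem_sdiff]
    tauto
  have h4 := Finset.card_le_card h3
  have h5 := Finset.card_union_le ((A \ D) ∩ G.cut Z) (D ∩ G.cut Z)
  omega

theorem menger_step [Fintype V] [Fintype E] (s t : V) (hst : s ≠ t) (n : ℕ)
    (ih : ∀ (G : MGraph V E) (A : Finset E) (k : ℕ), A.card ≤ n → G.MCond A s t k →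
      G.MSol A s t k) (A : Finset E) (k : ℕ) (hA : A.card ≤ n + 1)
    (h : G.MCond A s t (k + 1)) (h3 : ∀ e ∈ A, G.Inc e s ∨ G.Inc e t) :
    G.MSol A s t (k + 1) := by
  by_cases ha : ∃ f ∈ A, G.FEnds f s t
  · obtain ⟨f, hf, hf'⟩ := ha
    refine G.msol_cons (D := {f}) (Finset.singleton_subset_iff.2 hf)
      (fun w => G.mends_even hf' hst w) (ih G (A \ {f}) k ?_ (G.mcond_sdiff A {f} s t k h ?_))
    · have h4 : A \ {f} ⊂ A := by
        rw [Finset.ssubset_iff_of_subset Finset.sdiff_subset]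
        exact ⟨f, hf, by simp⟩
      have h5 := Finset.card_lt_card h4
      omega
    · intro Z _ _
      exact (Finset.card_le_card Finset.inter_subset_left).trans (by simp)
  by_cases hb : ∃ w, w ≠ s ∧ w ≠ t ∧ (∃ f ∈ A, G.FEnds f s w) ∧ ∃ g ∈ A, G.FEnds g w t
  · obtain ⟨w, hws, hwt, ⟨f, hf, hf'⟩, g, hg, hg'⟩ := hb
    have hfg : f ≠ g := by
      rintro rfl
      rcases hf' with ⟨h4, h5⟩ | ⟨h4, h5⟩ <;> rcases hg' with ⟨h6, h7⟩ | ⟨h6, h7⟩
      · exact hws (h6.symm.trans h4)
      · exact hst (h4.symm.trans h6)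
      · exact hst (h5.symm.trans h7)
      · exact hws (h7.symm.trans h5)
    have hDA : symmDiff ({f} : Finset E) {g} ⊆ A := by
      intro x hx
      rw [Finset.mem_symmDiff, Finset.mem_singleton, Finset.mem_singleton] at hx
      rcases hx with ⟨rfl, -⟩ | ⟨rfl, -⟩
      · exact hf
      · exact hg
    refine G.msol_cons (D := symmDiff {f} {g}) hDA ?_
      (ih G (A \ symmDiff {f} {g}) k ?_ (G.mcond_sdiff A _ s t k h ?_))
    · intro v
      rw [even_deg_symmDiff, G.mends_even hf' (Ne.symm hws) v, G.mends_even hg' hwt v]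
      by_cases h4 : v = s
      · subst h4
        simp [hst, Ne.symm hws]
      · by_cases h5 : v = w
        · subst h5
          simp [h4, hwt]
        · simp [h4, h5]
    · have h4 : A \ symmDiff {f} {g} ⊂ A := by
        rw [Finset.ssubset_iff_of_subset Finset.sdiff_subset]
        refine ⟨f, hf, ?_⟩
        rw [Finset.mem_sdiff, Finset.mem_symmDiff, Finset.mem_singleton, Finset.mem_singleton]
        tauto
      have h5 := Finset.card_lt_card h4
      omega
    · intro Z hs ht
      by_cases hw : w ∈ Z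
      · have h4 : symmDiff {f} {g} ∩ G.cut Z ⊆ {g} := by
          intro x hx
          rw [Finset.mem_inter, Finset.mem_symmDiff, Finset.mem_singleton,
            Finset.mem_singleton] at hx
          rcases hx.1 with ⟨rfl, -⟩ | ⟨rfl, -⟩
          · exfalso
            have h5 := hx.2
            rw [Inner.mem_cut G] at h5
            rcases hf' with ⟨h6, h7⟩ | ⟨h6, h7⟩ <;> rw [h6, h7] at h5 <;> tauto
          · exact Finset.mem_singleton_self _
        exact (Finset.card_le_card h4).trans (by simp)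
      · have h4 : symmDiff {f} {g} ∩ G.cut Z ⊆ {f} := by
          intro x hx
          rw [Finset.mem_inter, Finset.mem_symmDiff, Finset.mem_singleton,
            Finset.mem_singleton] at hx
          rcases hx.1 with ⟨rfl, -⟩ | ⟨rfl, -⟩
          · exact Finset.mem_singleton_self _
          · exfalso
            have h5 := hx.2
            rw [Inner.mem_cut G] at h5
            rcases hg' with ⟨h6, h7⟩ | ⟨h6, h7⟩ <;> rw [h6, h7] at h5 <;> tauto
        exact (Finset.card_le_card h4).trans (by simp)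
  exfalso
  have hsZ : s ∈ insert s (Finset.univ.filter fun w => ∃ f ∈ A, G.FEnds f s w) :=
    Finset.mem_insert_self _ _
  have htZ : t ∉ insert s (Finset.univ.filter fun w => ∃ f ∈ A, G.FEnds f s w) := by
    rw [Finset.mem_insert, Finset.mem_filter]
    rintro (h4 | ⟨-, f, hf, hf'⟩)
    · exact hst h4.symm
    · exact ha ⟨f, hf, hf'⟩
  have h4 := h _ hsZ htZ
  have h5 : A ∩ G.cut (insert s (Finset.univ.filter fun w => ∃ f ∈ A, G.FEnds f s w)) = ∅ := by
    rw [Finset.eq_empty_iff_forall_notMem]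
    intro e he
    rw [Finset.mem_inter] at he
    obtain ⟨heA, he2⟩ := he
    rw [Inner.mem_cut G] at he2
    rcases h3 e heA with h6 | h6
    · obtain ⟨x, hx⟩ : ∃ x, G.FEnds e s x := by
        rcases h6 with h6 | h6
        · exact ⟨G.snd e, Or.inl ⟨h6, rfl⟩⟩
        · exact ⟨G.fst e, Or.inr ⟨rfl, h6⟩⟩
      have hxZ : x ∈ insert s (Finset.univ.filter fun w => ∃ f ∈ A, G.FEnds f s w) :=
        Finset.mem_insert_of_mem (Finset.mem_filter.2 ⟨Finset.mem_univ _, e, heA, hx⟩)
      rcases hx with ⟨h7, h8⟩ | ⟨h7, h8⟩ <;> rw [h7, h8] at he2 <;> tauto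
    · obtain ⟨x, hx⟩ : ∃ x, G.FEnds e x t := by
        rcases h6 with h6 | h6
        · exact ⟨G.snd e, Or.inr ⟨h6, rfl⟩⟩
        · exact ⟨G.fst e, Or.inl ⟨rfl, h6⟩⟩
      have hxZ : x ∉ insert s (Finset.univ.filter fun w => ∃ f ∈ A, G.FEnds f s w) := by
        rw [Finset.mem_insert, Finset.mem_filter]
        rintro (rfl | ⟨-, f, hf, hf'⟩)
        · exact ha ⟨e, heA, hx⟩
        · by_cases hxs : x = s
          · subst hxs
            exact ha ⟨e, heA, hx⟩
          · by_cases hxt : x = t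
            · subst hxt
              exact ha ⟨f, hf, hf'⟩
            · exact hb ⟨x, hxs, hxt, ⟨f, hf, hf'⟩, e, heA, hx⟩
      rcases hx with ⟨h7, h8⟩ | ⟨h7, h8⟩ <;> rw [h7, h8] at he2 <;> tauto
  rw [h5] at h4
  simp at h4

theorem menger_aux [Fintype V] [Fintype E] (s t : V) (hst : s ≠ t) (n : ℕ) :
    ∀ (G : MGraph V E) (A : Finset E) (k : ℕ), A.card ≤ n → G.MCond A s t k →
      G.MSol A s t k := by
  induction n with
  | zero =>
    intro G A k hA h
    have h1 := h {s} (by simp) (by simpa using hst.symm)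
    have h2 : (A ∩ G.cut {s}).card ≤ A.card := Finset.card_le_card Finset.inter_subset_left
    have h3 : k = 0 := by omega
    subst h3
    exact G.msol_zero A s t
  | succ n ih =>
    intro G A k hA h
    rcases k with _ | k
    · exact G.msol_zero A s t
    by_cases hT : ∃ e ∈ A, ∀ Z : Finset V, s ∈ Z → t ∉ Z → e ∈ G.cut Z →
        k + 1 < (A ∩ G.cut Z).card
    · obtain ⟨e, he, hT⟩ := hT
      refine G.msol_mono (Finset.erase_subset e A) (ih G (A.erase e) (k + 1) ?_ ?_)
      · rw [Finset.card_erase_of_mem he]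
        omega
      · intro Z hs ht
        by_cases heZ : e ∈ G.cut Z
        · have h1 := hT Z hs ht heZ
          have h2 : A.erase e ∩ G.cut Z = (A ∩ G.cut Z).erase e := by
            ext x
            simp only [Finset.mem_inter, Finset.mem_erase]
            tauto
          rw [h2, Finset.card_erase_of_mem (Finset.mem_inter.2 ⟨he, heZ⟩)]
          omega
        · have h2 : (A.erase e) ∩ G.cut Z = A ∩ G.cut Z := by
            ext x
            simp only [Finset.mem_inter, Finset.mem_erase]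
            constructor
            · rintro ⟨⟨-, h1⟩, h2⟩
              exact ⟨h1, h2⟩
            · rintro ⟨h1, h2⟩
              exact ⟨⟨fun h3 => heZ (h3 ▸ h2), h1⟩, h2⟩
          rw [h2]
          exact h Z hs ht
    by_cases h2 : ∃ Z : Finset V, s ∈ Z ∧ t ∉ Z ∧ (A ∩ G.cut Z).card = k + 1 ∧
        (∃ e ∈ A, G.fst e ∈ Z ∧ G.snd e ∈ Z) ∧ ∃ e ∈ A, G.fst e ∈ Zᶜ ∧ G.snd e ∈ Zᶜ
    · obtain ⟨Z, hs, ht, hk, ⟨e, he, he'⟩, f, hf, hf'⟩ := h2
      apply G.menger_glue A s t (k + 1) Z hs ht hk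
      · apply ih
        · have h4 : (A.filter fun e => ¬ (G.fst e ∈ Z ∧ G.snd e ∈ Z)) ⊂ A :=
            Finset.filter_ssubset.2 ⟨e, he, fun h => h he'⟩
          have h3 := Finset.card_lt_card h4
          omega
        · exact G.mcond_contr A s t _ Z s (if_pos hs) (if_neg ht) h
      · apply ih
        · have h4 : (A.filter fun e => ¬ (G.fst e ∈ Zᶜ ∧ G.snd e ∈ Zᶜ)) ⊂ A :=
            Finset.filter_ssubset.2 ⟨f, hf, fun h => h hf'⟩
          have h3 := Finset.card_lt_card h4
          omega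
        · exact G.mcond_contr A s t _ Zᶜ t (if_neg (by simpa using hs))
            (if_pos (by simpa using ht)) h
    refine G.menger_step s t hst n ih A k hA h ?_
    intro e he
    have hT' : ∃ Z : Finset V, s ∈ Z ∧ t ∉ Z ∧ e ∈ G.cut Z ∧ (A ∩ G.cut Z).card ≤ k + 1 := by
      by_contra hcon
      apply hT
      refine ⟨e, he, fun Z hs ht heZ => ?_⟩
      by_contra h4
      exact hcon ⟨Z, hs, ht, heZ, not_lt.1 h4⟩
    obtain ⟨Z, hs, ht, heZ, hZ⟩ := hT'
    have hZk : (A ∩ G.cut Z).card = k + 1 := le_antisymm hZ (h Z hs ht)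
    by_cases hin : ∃ e ∈ A, G.fst e ∈ Z ∧ G.snd e ∈ Z
    · right
      have hout : ∀ f ∈ A, ¬ (G.fst f ∈ Zᶜ ∧ G.snd f ∈ Zᶜ) := by
        intro f hf hf'
        exact h2 ⟨Z, hs, ht, hZk, hin, f, hf, hf'⟩
      obtain ⟨w, hwZ, hwe⟩ : ∃ w, w ∈ Zᶜ ∧ (G.fst e = w ∨ G.snd e = w) := by
        rcases (Inner.mem_cut G).1 heZ with ⟨-, h4⟩ | ⟨h4, -⟩
        · exact ⟨_, Finset.mem_compl.2 h4, Or.inr rfl⟩
        · exact ⟨_, Finset.mem_compl.2 h4, Or.inl rfl⟩
      by_cases hwt : w = t
      · subst hwt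
        exact hwe
      · exfalso
        have h5 := G.merase_sub A Zᶜ hout e (by rw [G.cut_compl]; exact heZ) w hwZ hwe
        have h6 := Finset.card_le_card h5
        rw [G.cut_compl, Finset.card_erase_of_mem (Finset.mem_inter.2 ⟨he, heZ⟩), hZk,
          ← G.cut_compl] at h6
        have h7 := h (Zᶜ.erase w)ᶜ (by
          rw [Finset.mem_compl, Finset.mem_erase, Finset.mem_compl]
          exact fun h8 => h8.2 hs) (by
          rw [Finset.mem_compl, Finset.mem_erase, Finset.mem_compl]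
          exact fun h8 => h8 ⟨fun h9 => hwt h9.symm, ht⟩)
        omega
    · left
      have hout : ∀ f ∈ A, ¬ (G.fst f ∈ Z ∧ G.snd f ∈ Z) := fun f hf hf' => hin ⟨f, hf, hf'⟩
      obtain ⟨w, hwZ, hwe⟩ : ∃ w, w ∈ Z ∧ (G.fst e = w ∨ G.snd e = w) := by
        rcases (Inner.mem_cut G).1 heZ with ⟨h4, -⟩ | ⟨-, h4⟩
        · exact ⟨_, h4, Or.inl rfl⟩
        · exact ⟨_, h4, Or.inr rfl⟩
      by_cases hws : w = s
      · subst hws
        exact hwe
      · exfalso
        have h5 := G.merase_sub A Z hout e heZ w hwZ hwe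
        have h6 := Finset.card_le_card h5
        rw [Finset.card_erase_of_mem (Finset.mem_inter.2 ⟨he, heZ⟩), hZk] at h6
        have h7 := h (Z.erase w) (Finset.mem_erase.2 ⟨fun h9 => hws h9.symm, hs⟩)
          (fun h8 => ht (Finset.mem_of_mem_erase h8))
        omega

theorem menger [Fintype V] [Fintype E] (A : Finset E) (s t : V) (hst : s ≠ t) (k : ℕ)
    (h : ∀ Z : Finset V, s ∈ Z → t ∉ Z → k ≤ (A ∩ G.cut Z).card) :
    ∃ J : Fin k → Finset E, (∀ i, J i ⊆ A) ∧ (∀ i j, i ≠ j → Disjoint (J i) (J j)) ∧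
      ∀ i, ∀ w, (Even (G.deg (J i) w) ↔ (w ≠ s ∧ w ≠ t)) :=
  menger_aux s t hst A.card G A k le_rfl h

theorem menger_map [Fintype V] [Fintype E] (π : V → V) (A : Finset E) (s t : V) (hst : s ≠ t)
    (k : ℕ) (h : ∀ Z : Finset V, s ∈ Z → t ∉ Z →
      k ≤ (A ∩ G.cut (Finset.univ.filter fun z => π z ∈ Z)).card) :
    ∃ J : Fin k → Finset E, (∀ i, J i ⊆ A) ∧ (∀ i j, i ≠ j → Disjoint (J i) (J j)) ∧
      ∀ i, ∀ w, (Even (∑ z ∈ Finset.univ.filter (fun z => π z = w), G.deg (J i) z) ↔
        (w ≠ s ∧ w ≠ t)) := by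
  have hcut : ∀ Z : Finset V, (⟨fun e => π (G.fst e), fun e => π (G.snd e)⟩ : MGraph V E).cut Z =
      G.cut (Finset.univ.filter fun z => π z ∈ Z) := by
    intro Z
    ext e
    simp only [cut, Finset.mem_filter, Finset.mem_univ, true_and]
  have hdeg : ∀ (J : Finset E) (w : V),
      (⟨fun e => π (G.fst e), fun e => π (G.snd e)⟩ : MGraph V E).deg J w =
        ∑ z ∈ Finset.univ.filter (fun z => π z = w), G.deg J z := by
    intro J w
    rw [G.sum_deg_on]
    simp only [deg, Finset.mem_filter, Finset.mem_univ, true_and]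
  obtain ⟨J, h1, h2, h3⟩ :=
    (⟨fun e => π (G.fst e), fun e => π (G.snd e)⟩ : MGraph V E).menger A s t hst k
      (fun Z hs ht => by rw [hcut]; exact h Z hs ht)
  refine ⟨J, h1, h2, fun i w => ?_⟩
  rw [← hdeg]
  exact h3 i w

end MGraph
end CDCut
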