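import Pool.Agent.CDFlow.Defs

/-!
# Module `Types`: the finite part

Traces on the cut `{a, b, c, d}` are coded by subsets of `Fin 4`.
-/

set_option maxRecDepth 100000

namespace CDCut

/-- `typeS` on `Fin 4` -/
def S0 : Finset (Multiset (Finset (Fin 4))) :=
  {{{0, 1, 2, 3}, {0, 1, 2, 3}}, {{0, 1, 2, 3}, {0, 2}, {1, 3}}, {{0, 1, 2, 3}, {0, 3}, {1, 2}},
   {{0, 2}, {1, 3}, {0, 3}, {1, 2}}}

/-- `typeT` on `Fin 4` -/
def T0 : Finset (Multiset (Finset (Fin 4))) :=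
  {{{0, 2}, {1, 3}, {0, 2}, {1, 3}}, {{0, 3}, {1, 2}, {0, 3}, {1, 2}},
   {{0, 1}, {2, 3}, {0, 1}, {2, 3}}, {{0, 2}, {1, 3}, {0, 1}, {2, 3}},
   {{0, 3}, {1, 2}, {0, 1}, {2, 3}}}

/-- the type of the cover `D j ∆ C ∆ C'`, `C`, `C'` -/
def tt {α : Type} [DecidableEq α] (d0 d1 d2 c c' : Finset α) : Multiset (Finset α) :=
  (symmDiff d0 (symmDiff c c') ::ₘ symmDiff d1 (symmDiff c c') ::ₘ symmDiff d2 (symmDiff c c') ::ₘ
    c ::ₘ c' ::ₘ 0).filter (fun s => s ≠ ∅)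

/-- the S-side, inner edge -/
theorem finS : ∀ s : Finset (Fin 4), Even s.card → ∀ i j k l : Fin 4, [i, j, k, l].Nodup →
    (tt Finset.univ s sᶜ {i, k} {j, l} ∉ S0) ∨ (tt Finset.univ s sᶜ {i, l} {j, k} ∉ S0) ∨
    (∀ x y : Fin 4, (x = i ∨ x = j) → (y = k ∨ y = l) →
      tt Finset.univ s sᶜ {x, y} ∅ ∉ S0) := by
  decide +kernel

/-- `tt` with a base of trace type `s` is not a T-type -/
def bT (s c c' : Finset (Fin 4)) : Bool := decide (tt Finset.univ s sᶜ c c' ∉ T0)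

theorem bT_iff (s c c' : Finset (Fin 4)) : bT s c c' = true ↔ tt Finset.univ s sᶜ c c' ∉ T0 := by
  unfold bT
  rw [decide_eq_true_eq]

theorem finT_aux : ∀ s : Finset (Fin 4), Even s.card → ∀ i j k l : Fin 4, [i, j, k, l].Nodup →
    (bT s {i, k} {j, l} || bT s {i, l} {j, k} ||
      (bT s {i, k} ∅ && bT s {i, l} ∅ && bT s {j, k} ∅ && bT s {j, l} ∅) ||
      (bT s {i, k} ∅ && bT s {j, l} ∅ && bT s {i, j} {k, l}) ||
      (bT s {i, l} ∅ && bT s {j, k} ∅ && bT s {i, j} {k, l})) = true := by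
  decide +kernel

/-- the T-side, inner edge -/
theorem finT (s : Finset (Fin 4)) (hs : Even s.card) (i j k l : Fin 4)
    (hnd : [i, j, k, l].Nodup) :
    (tt Finset.univ s sᶜ {i, k} {j, l} ∉ T0) ∨ (tt Finset.univ s sᶜ {i, l} {j, k} ∉ T0) ∨
    (∀ x y : Fin 4, (x = i ∨ x = j) → (y = k ∨ y = l) →
      tt Finset.univ s sᶜ {x, y} ∅ ∉ T0) ∨
    (tt Finset.univ s sᶜ {i, k} ∅ ∉ T0 ∧ tt Finset.univ s sᶜ {j, l} ∅ ∉ T0 ∧
      tt Finset.univ s sᶜ {i, j} {k, l} ∉ T0) ∨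
    (tt Finset.univ s sᶜ {i, l} ∅ ∉ T0 ∧ tt Finset.univ s sᶜ {j, k} ∅ ∉ T0 ∧
      tt Finset.univ s sᶜ {i, j} {k, l} ∉ T0) := by
  have h := finT_aux s hs i j k l hnd
  simp only [Bool.or_eq_true, Bool.and_eq_true, bT_iff] at h
  rcases h with (((h | h) | h) | h) | h
  · exact Or.inl h
  · exact Or.inr (Or.inl h)
  · refine Or.inr (Or.inr (Or.inl ?_))
    rintro x y (rfl | rfl) (rfl | rfl)
    · exact h.1.1.1
    · exact h.1.1.2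
    · exact h.1.2
    · exact h.2
  · exact Or.inr (Or.inr (Or.inr (Or.inl ⟨h.1.1, h.1.2, h.2⟩)))
  · exact Or.inr (Or.inr (Or.inr (Or.inr ⟨h.1.1, h.1.2, h.2⟩)))

/-- a full trace is not possible on the T-side -/
theorem finT0 : ∀ s : Finset (Fin 4), Even s.card → tt Finset.univ s sᶜ ∅ ∅ ∉ T0 ∧
    tt Finset.univ s sᶜ Finset.univ ∅ ∉ T0 := by
  decide +kernel

/-- traces of a base avoiding a cut edge -/
def bBase (i : Fin 4) (d0 d1 d2 : Finset (Fin 4)) : Bool :=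
  decide (Even d0.card) && decide (Even d1.card) && decide (Even d2.card) &&
    decide (∀ x, (x ∈ d0 ∧ x ∈ d1 → x ≠ i ∧ x ∉ d2) ∧ (x ∈ d0 ∧ x ∈ d2 → x ≠ i ∧ x ∉ d1) ∧
      (x ∈ d1 ∧ x ∈ d2 → x ≠ i ∧ x ∉ d0)) &&
    decide (∀ x, x ≠ i → (x ∈ d0 ∧ x ∈ d1) ∨ (x ∈ d0 ∧ x ∈ d2) ∨ (x ∈ d1 ∧ x ∈ d2)) &&
    decide (i ∉ d0 ∪ d1 ∪ d2)

theorem finSc_aux : ∀ i : Fin 4, ∀ d0 d1 d2 : Finset (Fin 4), bBase i d0 d1 d2 = true →
    ∃ j k l : Fin 4, [i, j, k, l].Nodup ∧ tt d0 d1 d2 {i, k} {i, l} ∉ S0 := by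
  decide +kernel

theorem finTc_aux : ∀ i : Fin 4, ∀ d0 d1 d2 : Finset (Fin 4), bBase i d0 d1 d2 = true →
    ∃ j k l : Fin 4, [i, j, k, l].Nodup ∧ tt d0 d1 d2 {i, k} {i, l} ∉ T0 := by
  decide +kernel

end CDCut
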